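import Pool.Agent.V11299.FG.Gal

/-!
The Fourier support of a jointly ergodic measure modulo the integers prime to `p q`.
-/

set_option autoImplicit false

open MeasureTheory Filter Topology Set

namespace Pool.Agent.V11299.FG

open Pool.Agent.Y139.GR
open Pool.Agent.W764.FB hiding fc

section
variable {p q : ℕ} {μ : Measure UnitAddCircle} [IsProbabilityMeasure μ]

lemma supp_one (hip : MeasurePreserving (fun x : UnitAddCircle => p • x) μ μ)
    (hiq : MeasurePreserving (fun x : UnitAddCircle => q • x) μ μ) (he : JointlyErgodic p q μ)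
    {k : ℕ} (hk : 1 ≤ k) (hkpq : Nat.Coprime k (p * q)) {n r : ℤ} (hn : fc μ n ≠ 0)
    (hnr : Int.gcd r k = Int.gcd n k) : ∃ m : ℤ, m ≡ r [ZMOD k] ∧ fc μ m ≠ 0 := by
  by_contra hcon
  push Not at hcon
  apply hn
  have h := fc_galois hk (Nat.Coprime.coprime_mul_right_right hkpq)
    (Nat.Coprime.coprime_mul_left_right hkpq) hip hiq he hnr (fun m => hcon _ (by
      show (r + k * m) ≡ r [ZMOD k]
      exact (Int.modEq_iff_dvd.2 ⟨-m, by ring⟩))) 0
  rwa [mul_zero, add_zero] at h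

/-- infinitely many elements of the support in a residue class -/
lemma supp_inf (hp : 1 ≤ p) (hq : 1 ≤ q) (hip : MeasurePreserving (fun x : UnitAddCircle => p • x) μ μ)
    (hiq : MeasurePreserving (fun x : UnitAddCircle => q • x) μ μ) (he : JointlyErgodic p q μ)
    {k : ℕ} (hk : 1 ≤ k) (hkpq : Nat.Coprime k (p * q)) {n r : ℤ} (hn0 : n ≠ 0) (hn : fc μ n ≠ 0)
    (hnr : Int.gcd r k = Int.gcd n k) : {m : ℤ | m ≡ r [ZMOD k] ∧ fc μ m ≠ 0}.Infinite := by
  intro hfin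
  obtain ⟨M, hM⟩ : ∃ M : ℕ, ∀ m ∈ {m : ℤ | m ≡ r [ZMOD k] ∧ fc μ m ≠ 0}, |m| ≤ M := by
    obtain ⟨B, hB⟩ := (hfin.image fun m => m.natAbs).bddAbove
    refine ⟨B, fun m hm => ?_⟩
    have h := hB ⟨m, hm, rfl⟩
    rw [Int.abs_eq_natAbs]
    exact_mod_cast h
  -- a large representative of the class
  set r' : ℤ := r + k * (|r| + M + 1) with hr'
  have hkz : (1 : ℤ) ≤ k := by exact_mod_cast hk
  have hr'M : (M : ℤ) < r' := by
    have h1 : -|r| ≤ r := neg_abs_le r
    have h2 : (0 : ℤ) ≤ |r| := abs_nonneg r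
    have h3 : (0 : ℤ) ≤ M := by positivity
    nlinarith
  have hr'0 : 0 < r' := lt_of_le_of_lt (by positivity) hr'M
  obtain ⟨l, hl, hlp⟩ := Nat.exists_infinite_primes (2 * r'.natAbs + n.natAbs + p * q + k + 1)
  have hlr : ¬ (l : ℤ) ∣ r' := by
    intro h
    have := Int.natAbs_dvd_natAbs.2 h
    rw [Int.natAbs_natCast] at this
    have h2 := Nat.le_of_dvd (Int.natAbs_pos.2 hr'0.ne') this
    omega
  have hln : ¬ (l : ℤ) ∣ n := by
    intro h
    have := Int.natAbs_dvd_natAbs.2 h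
    rw [Int.natAbs_natCast] at this
    have h2 := Nat.le_of_dvd (Int.natAbs_pos.2 hn0) this
    omega
  have hgcd : ∀ t : ℤ, ¬ (l : ℤ) ∣ t → Int.gcd t ((k * l : ℕ) : ℤ) = Int.gcd t k := by
    intro t ht
    have h1 : Nat.Coprime t.natAbs l := by
      rw [Nat.coprime_comm, Nat.Prime.coprime_iff_not_dvd hlp]
      intro h
      exact ht (Int.natCast_dvd.2 h)
    show Nat.gcd t.natAbs ((k * l : ℕ) : ℤ).natAbs = Nat.gcd t.natAbs (k : ℤ).natAbs
    rw [Int.natAbs_natCast, Int.natAbs_natCast]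
    exact Nat.Coprime.gcd_mul_right_cancel_right _ (Nat.coprime_comm.1 h1)
  have hr'k : Int.gcd r' k = Int.gcd r k := by
    rw [hr', Int.gcd_add_mul_left_left]
  have hlpq : Nat.Coprime l (p * q) := by
    rw [Nat.Prime.coprime_iff_not_dvd hlp]
    intro h
    have := Nat.le_of_dvd (Nat.mul_pos hp hq) h
    omega
  obtain ⟨m, hm1, hm2⟩ := supp_one hip hiq he (k := k * l) (Nat.mul_pos hk hlp.pos)
    (Nat.Coprime.mul_left hkpq hlpq) (r := r') hn (by
      rw [hgcd _ hlr, hgcd _ hln, hr'k, hnr])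
  have hmk : m ≡ r [ZMOD k] := by
    have h1 : m ≡ r' [ZMOD k] := by
      refine Int.modEq_iff_dvd.2 (dvd_trans ?_ hm1.dvd)
      push_cast
      exact dvd_mul_right _ _
    exact h1.trans (Int.modEq_iff_dvd.2 ⟨-(|r| + M + 1), by rw [hr']; ring⟩)
  have hmM := hM m ⟨hmk, hm2⟩
  have hd : (l : ℤ) ∣ r' - m := by
    have h1 := hm1.dvd
    refine dvd_trans ?_ h1
    push_cast
    exact dvd_mul_left _ _
  have h1 : 0 < r' - m := by
    have := (abs_le.1 hmM).2
    linarith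
  have h2 := Int.le_of_dvd h1 hd
  have h3 : (r'.natAbs : ℤ) = r' := Int.natAbs_of_nonneg hr'0.le
  have h4 := (abs_le.1 hmM).1
  have h5 : (2 * r'.natAbs + n.natAbs + p * q + k + 1 : ℕ) ≤ (l : ℤ) := by exact_mod_cast hl
  push_cast at h5
  rw [abs_of_pos hr'0] at h5
  have h6 : (0 : ℤ) ≤ |n| := abs_nonneg n
  have h7 : (0 : ℤ) ≤ p * q := by positivity
  linarith

omit [IsProbabilityMeasure μ] in
lemma fc_translate (t : UnitAddCircle) (n : ℤ) :
    fc (μ.map (fun x : UnitAddCircle => x + t)) n = (fourier n t : ℂ) * fc μ n := by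
  unfold fc
  rw [integral_map (measurable_add_const t).aemeasurable (map_continuous _).aestronglyMeasurable,
    ← integral_const_mul]
  refine integral_congr_ae (Eventually.of_forall fun x => ?_)
  show (fourier n (x + t) : ℂ) = fourier n t * fourier n x
  rw [fourier_apply, fourier_apply, fourier_apply, smul_add, AddCircle.toCircle_add]
  rw [mul_comm]
  rfl

lemma hh_eq (l : ℕ) : (hh l 1 1 : UnitAddCircle) = (((1 : ℝ) / l : ℝ) : UnitAddCircle) := by
  unfold hh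
  rw [pow_one, Nat.cast_one]

lemma fourier_inv_of_dvd {l : ℕ} (hl : l.Prime) {n : ℤ} (hn : (l : ℤ) ∣ n) :
    (fourier n ((((1 : ℝ) / l : ℝ) : UnitAddCircle)) : ℂ) = 1 := by
  have h := prim hl.one_le n
  have h1 : Int.gcd n l = l := by
    show Nat.gcd n.natAbs (l : ℤ).natAbs = l
    rw [Int.natAbs_natCast]
    exact Nat.gcd_eq_right (Int.natCast_dvd.1 hn)
  rw [h1, Nat.div_self hl.pos, hh_eq] at h
  exact IsPrimitiveRoot.one_right_iff.1 h

lemma fourier_inv_of_not_dvd {l : ℕ} (hl : l.Prime) {n : ℤ} (hn : ¬ (l : ℤ) ∣ n) :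
    (fourier n ((((1 : ℝ) / l : ℝ) : UnitAddCircle)) : ℂ) ≠ 1 := by
  have h := prim hl.one_le n
  have h1 : Int.gcd n l = 1 := by
    show Nat.gcd n.natAbs (l : ℤ).natAbs = 1
    rw [Int.natAbs_natCast]
    refine Nat.Coprime.symm ((Nat.Prime.coprime_iff_not_dvd hl).2 fun h => hn (Int.natCast_dvd.2 h))
  rw [h1, Nat.div_one, hh_eq] at h
  exact h.ne_one hl.one_lt

lemma gcd_pow {l : ℕ} (hl : l.Prime) (i j : ℕ) {t : ℤ} (ht : ¬ (l : ℤ) ∣ t) :
    Int.gcd ((l : ℤ) ^ i * t) ((l ^ j : ℕ) : ℤ) = Nat.gcd (l ^ i) (l ^ j) := by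
  show Nat.gcd ((l : ℤ) ^ i * t).natAbs ((l ^ j : ℕ) : ℤ).natAbs = _
  rw [Int.natAbs_natCast, Int.natAbs_mul, Int.natAbs_pow, Int.natAbs_natCast]
  have h1 : Nat.Coprime t.natAbs (l ^ j) := by
    refine Nat.Coprime.pow_right j (Nat.Coprime.symm ?_)
    exact (Nat.Prime.coprime_iff_not_dvd hl).2 fun h => ht (Int.natCast_dvd.2 h)
  exact Nat.Coprime.gcd_mul_right_cancel _ h1

/-- one residue class decides the invariance under the translation by `1 / l` -/
lemma translate_iff (hip : MeasurePreserving (fun x : UnitAddCircle => p • x) μ μ)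
    (hiq : MeasurePreserving (fun x : UnitAddCircle => q • x) μ μ) (he : JointlyErgodic p q μ)
    {l : ℕ} (hl : l.Prime) (hlpq : ¬ l ∣ p * q) {j : ℕ} (hj : 1 ≤ j) {r : ℤ} (hr : ¬ (l : ℤ) ∣ r) :
    (∀ m : ℤ, m ≡ r [ZMOD ((l ^ j : ℕ) : ℤ)] → fc μ m = 0) ↔
      μ.map (fun x => x + (((1 : ℝ) / l : ℝ) : UnitAddCircle)) = μ := by
  constructor
  · intro h
    have : IsProbabilityMeasure (μ.map (fun x => x + (((1 : ℝ) / l : ℝ) : UnitAddCircle))) :=
      Measure.isProbabilityMeasure_map (measurable_add_const _).aemeasurable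
    refine ext_fc fun n => ?_
    rw [fc_translate]
    by_cases hn : (l : ℤ) ∣ n
    · rw [fourier_inv_of_dvd hl hn, one_mul]
    · have h0 : fc μ n = 0 := by
        by_contra h1
        obtain ⟨m, hm1, hm2⟩ := supp_one hip hiq he (k := l ^ j) (Nat.pow_pos hl.pos)
          (Nat.Coprime.pow_left _ ((Nat.Prime.coprime_iff_not_dvd hl).2 hlpq)) (r := r) h1 (by
            have e1 := gcd_pow hl 0 j hr
            have e2 := gcd_pow hl 0 j hn
            rw [pow_zero, one_mul] at e1 e2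
            rw [e1, e2])
        exact hm2 (h m hm1)
      rw [h0, mul_zero]
  · intro h m hm
    have h1 := fc_translate (μ := μ) ((((1 : ℝ) / l : ℝ) : UnitAddCircle)) m
    rw [h] at h1
    have hm' : ¬ (l : ℤ) ∣ m := by
      intro h2
      apply hr
      have h3 : (l : ℤ) ∣ r - m := by
        refine dvd_trans ?_ hm.dvd
        push_cast
        exact dvd_pow_self _ (by omega)
      have := dvd_add h3 h2
      rwa [sub_add_cancel] at this
    have h2 : ((fourier m ((((1 : ℝ) / l : ℝ) : UnitAddCircle)) : ℂ) - 1) * fc μ m = 0 := by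
      rw [sub_mul, ← h1, one_mul, sub_self]
    exact (mul_eq_zero.1 h2).resolve_left (sub_ne_zero.2 (fourier_inv_of_not_dvd hl hm'))

lemma exists_supp (hne : μ ≠ volume) : ∃ n : ℤ, n ≠ 0 ∧ fc μ n ≠ 0 := by
  by_contra hcon
  push Not at hcon
  exact hne (Pool.Agent.W764.FB.eq_volume fun m hm => hcon m hm)

/-- all large powers of `l` occur -/
lemma exists_level (hp : 2 ≤ p) (hq : 1 ≤ q)
    (hip : MeasurePreserving (fun x : UnitAddCircle => p • x) μ μ)
    (hiq : MeasurePreserving (fun x : UnitAddCircle => q • x) μ μ) (he : JointlyErgodic p q μ)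
    (hne : μ ≠ volume) {l : ℕ} (hl : l.Prime) (hlpq : ¬ l ∣ p * q) (N : ℕ) :
    ∃ i : ℕ, N ≤ i ∧ ∀ (j : ℕ) (r : ℤ), ¬ (l : ℤ) ∣ r →
      {m : ℤ | m ≡ (l : ℤ) ^ i * r [ZMOD ((l ^ j : ℕ) : ℤ)] ∧ fc μ m ≠ 0}.Infinite := by
  have hpos : 1 ≤ l ^ N := Nat.pow_pos hl.pos
  have hs := sing_map' hpos (sing_of_erg hp hq hip hiq he hne)
  have hprob : IsProbabilityMeasure (μ.map (fun x : UnitAddCircle => (l ^ N) • x)) :=
    Measure.isProbabilityMeasure_map (meas_nsmul _).aemeasurable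
  obtain ⟨n, hn0, hn⟩ := exists_supp (μ := μ.map (fun x : UnitAddCircle => (l ^ N) • x)) (by
    intro h
    rw [h] at hs
    exact not_sing_self hs)
  rw [fc_map] at hn
  obtain ⟨e, n', hn', hnn⟩ := Nat.exists_eq_pow_mul_and_not_dvd (Int.natAbs_ne_zero.2 hn0) l
    hl.ne_one
  obtain ⟨t, ht, hnt⟩ : ∃ t : ℤ, ¬ (l : ℤ) ∣ t ∧ n = (l : ℤ) ^ e * t := by
    rcases Int.natAbs_eq n with h | h
    · refine ⟨n', fun h1 => hn' (by exact_mod_cast h1), ?_⟩
      rw [h, hnn]
      push_cast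
      ring
    · refine ⟨-n', fun h1 => hn' (by
        rw [dvd_neg] at h1
        exact_mod_cast h1), ?_⟩
      rw [h, hnn]
      push_cast
      ring
  have hn1 : ((l ^ N : ℕ) : ℤ) * n = (l : ℤ) ^ (N + e) * t := by
    rw [hnt]
    push_cast
    ring
  refine ⟨N + e, by omega, fun j r hr => ?_⟩
  refine supp_inf (by omega) hq hip hiq he (k := l ^ j) (n := ((l ^ N : ℕ) : ℤ) * n)
    (Nat.pow_pos hl.pos) (Nat.Coprime.pow_left _ ((Nat.Prime.coprime_iff_not_dvd hl).2 hlpq)) ?_ hn ?_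
  · exact mul_ne_zero (by exact_mod_cast (by omega : l ^ N ≠ 0)) hn0
  · rw [hn1, gcd_pow hl _ _ hr, gcd_pow hl _ _ ht]

end

end Pool.Agent.V11299.FG
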