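import Pool.Agent.V11299.FG.Trans
import Pool.Agent.W764.SH.Decomp

/-!
Rational translates of jointly ergodic measures: the remaining orders, and residue classes.
-/

set_option autoImplicit false

open MeasureTheory Filter Topology Set
open scoped ENNReal

namespace Pool.Agent.V11299.FG

open Pool.Agent.Y139.GR Pool.Agent.W764.SH Pool.Agent.H847R3.XpXq
open Pool.Agent.W764.FB hiding fc

/-- essential injectivity -/
lemma ess_inj {p q : ℕ} (hp : 2 ≤ p) (hq : 2 ≤ q) (hpq : Nat.Coprime p q)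
    {μ : Measure UnitAddCircle} [IsProbabilityMeasure μ]
    (hip : MeasurePreserving (fun x : UnitAddCircle => p • x) μ μ)
    (hiq : MeasurePreserving (fun x : UnitAddCircle => q • x) μ μ) (he : JointlyErgodic p q μ)
    (hne : μ ≠ volume) : ∃ B : Set UnitAddCircle, MeasurableSet B ∧ μ Bᶜ = 0 ∧
      ∀ x ∈ B, ∀ k, 1 ≤ k → k < p → x + hh p 1 k ∉ B := by
  obtain ⟨D, hDm, hDp, hDq, hD, B, hBm, hB0, hB⟩ := decomp hp hq hpq μ hip hiq
  have hD0 : μ D = 0 := by
    rcases ae_erg hip hiq he hDm hDp hDq with h | h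
    · exact h
    · exfalso
      apply hne
      have h1 : μ.restrict D = μ := by
        refine Measure.restrict_eq_self_of_ae_mem ?_
        rw [ae_iff]
        exact (prob_compl_eq_zero_iff hDm).2 h
      rw [h1, h, one_smul] at hD
      exact hD
  refine ⟨B, hBm, ?_, hB⟩
  have hsub : Bᶜ ⊆ D ∪ (Dᶜ \ B) := by
    intro x hx
    by_cases h : x ∈ D
    · exact Or.inl h
    · exact Or.inr ⟨h, hx⟩
  exact measure_mono_null hsub (measure_union_null hD0 hB0)

/-- translates by points whose order is not prime to `p` -/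
lemma trans_p {p : ℕ} (hp : 2 ≤ p) {μ : Measure UnitAddCircle} [IsProbabilityMeasure μ]
    (hip : MeasurePreserving (fun x : UnitAddCircle => p • x) μ μ)
    {B : Set UnitAddCircle} (hBm : MeasurableSet B) (hB0 : μ Bᶜ = 0)
    (hB : ∀ x ∈ B, ∀ k, 1 ≤ k → k < p → x + hh p 1 k ∉ B) {t : UnitAddCircle}
    (ht0 : 0 < addOrderOf t) (ht : ¬ Nat.Coprime (addOrderOf t) p) :
    (μ.map fun x => x + t) ⟂ₘ μ := by
  -- a forward invariant carrying set
  set A : Set UnitAddCircle := ⋂ i : ℕ, (fun x : UnitAddCircle => (p ^ i) • x) ⁻¹' B with hA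
  have hAm : MeasurableSet A := MeasurableSet.iInter fun i => meas_nsmul _ hBm
  have hmem : ∀ x, x ∈ A ↔ ∀ i : ℕ, (p ^ i) • x ∈ B := by
    intro x
    simp only [hA, mem_iInter, mem_preimage]
  have hA0 : μ Aᶜ = 0 := by
    rw [hA, compl_iInter]
    refine measure_iUnion_null fun i => ?_
    have h1 : MeasurePreserving (fun x : UnitAddCircle => (p ^ i) • x) μ μ :=
      Pool.Agent.H847R3.XpXq.mp_pow hip i
    rw [← preimage_compl, h1.measure_preimage hBm.compl.nullMeasurableSet, hB0]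
  have hAp : ∀ x ∈ A, p • x ∈ A := by
    intro x hx
    rw [hmem] at hx ⊢
    intro i
    rw [smul_smul, ← pow_succ]
    exact hx (i + 1)
  have hApow : ∀ m : ℕ, ∀ x ∈ A, (p ^ m) • x ∈ A := by
    intro m
    induction m with
    | zero => intro x hx; simpa using hx
    | succ m ih =>
      intro x hx
      rw [pow_succ, mul_smul]
      exact ih _ (hAp x hx)
  have hinj1 : ∀ x ∈ A, ∀ y ∈ A, p • x = p • y → x = y := by
    intro x hx y hy hxy
    have h1 : (p ^ 1) • (x - y) = 0 := by rw [pow_one, smul_sub, hxy, sub_self]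
    obtain ⟨i, hi, h2⟩ := exists_hh (by omega : 1 ≤ p) h1
    rw [pow_one] at hi
    rcases Nat.eq_zero_or_pos i with h0 | h0
    · rw [h0, hh_zero, sub_eq_zero] at h2
      exact h2
    · exfalso
      have hyB : y ∈ B := by simpa using (hmem y).1 hy 0
      have hxB : x ∈ B := by simpa using (hmem x).1 hx 0
      apply hB y hyB i h0 hi
      rw [← h2, add_sub_cancel]
      exact hxB
  have hinj : ∀ m : ℕ, ∀ x ∈ A, ∀ y ∈ A, (p ^ m) • x = (p ^ m) • y → x = y := by
    intro m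
    induction m with
    | zero => intro x _ y _ h; simpa using h
    | succ m ih =>
      intro x hx y hy h
      rw [pow_succ, mul_smul, mul_smul] at h
      exact hinj1 x hx y hy (ih _ (hAp x hx) _ (hAp y hy) h)
  -- the part of `t` of order prime to `p`
  set N := addOrderOf t with hN
  obtain ⟨a, b, hbp, hNab⟩ : ∃ a b : ℕ, Nat.Coprime b p ∧ N ∣ p ^ a * b ∧ 0 < b := by
    refine ⟨N, N / Nat.gcd N (p ^ N), ?_, ?_, ?_⟩
    · -- the prime-to-`p` part
      by_contra hcop
      obtain ⟨l, hl, hl1, hl2⟩ := Nat.Prime.not_coprime_iff_dvd.1 hcop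
      have hgN : Nat.gcd N (p ^ N) ∣ N := Nat.gcd_dvd_left _ _
      set g := Nat.gcd N (p ^ N) with hg
      have hg0 : 0 < g := Nat.gcd_pos_of_pos_left _ ht0
      -- the exact power of `l`
      have h1 : padicValNat l N < N := by
        have h2 : l ^ padicValNat l N ∣ N := pow_padicValNat_dvd
        have h3 := Nat.le_of_dvd ht0 h2
        exact lt_of_lt_of_le (Nat.lt_pow_self hl.one_lt) h3
      have h2 : l ^ (padicValNat l N) ∣ g := by
        refine Nat.dvd_gcd pow_padicValNat_dvd ?_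
        exact (pow_dvd_pow l h1.le).trans (pow_dvd_pow_of_dvd hl2 N)
      have h3 : l ^ (padicValNat l N + 1) ∣ N := by
        have e : N = g * (N / g) := (Nat.mul_div_cancel' hgN).symm
        rw [e, pow_succ]
        exact mul_dvd_mul (by rw [← e]; exact h2) hl1
      have : Fact l.Prime := ⟨hl⟩
      have h4 := (padicValNat_dvd_iff_le (p := l) (by omega : N ≠ 0)).1 h3
      omega
    · have hgN : Nat.gcd N (p ^ N) ∣ N := Nat.gcd_dvd_left _ _
      conv_lhs => rw [← Nat.mul_div_cancel' hgN]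
      exact mul_dvd_mul (Nat.gcd_dvd_right _ _) (dvd_refl _)
    · exact Nat.div_pos (Nat.le_of_dvd ht0 (Nat.gcd_dvd_left _ _)) (Nat.gcd_pos_of_pos_left _ ht0)
  obtain ⟨hNab, hb0⟩ := hNab
  set m := (a + 1) * Nat.totient b with hm
  have htot : 1 ≤ Nat.totient b := Nat.totient_pos.2 hb0
  have ham : a ≤ m := by
    rw [hm]
    calc a ≤ (a + 1) * 1 := by omega
      _ ≤ (a + 1) * Nat.totient b := Nat.mul_le_mul_left _ htot
  have hm1 : 1 ≤ m := Nat.mul_pos (by omega) htot
  have hpb : b ∣ p ^ m - 1 := by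
    have h1 : p ^ Nat.totient b ≡ 1 [MOD b] := Nat.ModEq.pow_totient (Nat.coprime_comm.1 hbp)
    have h2 : (p ^ Nat.totient b) ^ (a + 1) ≡ 1 [MOD b] := by
      have := h1.pow (a + 1)
      rwa [one_pow] at this
    rw [← pow_mul, mul_comm] at h2
    exact (Nat.modEq_iff_dvd' (Nat.one_le_pow _ _ (by omega))).1 h2.symm
  have hpm1 : 1 ≤ p ^ m := Nat.one_le_pow _ _ (by omega)
  set s : UnitAddCircle := (p ^ m) • t with hs
  have hss : (p ^ m) • s = s := by
    have h1 : (p ^ m * (p ^ m - 1)) • t = 0 := by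
      refine addOrderOf_dvd_iff_nsmul_eq_zero.1 ?_
      exact hNab.trans (mul_dvd_mul (pow_dvd_pow p ham) hpb)
    have h2 : (p ^ m) • s = (p ^ m * (p ^ m - 1)) • t + s := by
      rw [hs, smul_smul, ← add_smul]
      congr 1
      have : p ^ m * (p ^ m - 1) + p ^ m = p ^ m * (p ^ m - 1 + 1) := by ring
      rw [this, Nat.sub_add_cancel hpm1]
    rw [h2, h1, zero_add]
  have hst : s ≠ t := by
    intro h
    apply ht
    have h1 : (p ^ m - 1) • t = 0 := by
      have h2 : (p ^ m - 1) • t + t = t := by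
        conv_rhs => rw [← h, hs]
        conv_lhs => rw [← succ_nsmul, Nat.sub_add_cancel hpm1]
      simpa using h2
    have h2 : N ∣ p ^ m - 1 := addOrderOf_dvd_iff_nsmul_eq_zero.2 h1
    refine Nat.Coprime.coprime_dvd_left h2 ?_
    have h3 : Nat.Coprime (p ^ m - 1) (p ^ m) := by
      have h4 : Nat.Coprime (p ^ m - 1) (p ^ m - 1 + 1) := by simp
      rwa [Nat.sub_add_cancel hpm1] at h4
    exact Nat.Coprime.coprime_dvd_right (dvd_pow_self p (by omega)) h3
  -- the invariant set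
  have hmp : MeasurePreserving (fun x : UnitAddCircle => (p ^ m) • x) μ μ :=
    Pool.Agent.H847R3.XpXq.mp_pow hip m
  set E : Set UnitAddCircle := A ∩ (fun x => x + s) ⁻¹' A with hE
  have hEm : MeasurableSet E := hAm.inter (measurable_add_const _ hAm)
  have hEsub : E ⊆ (fun x : UnitAddCircle => (p ^ m) • x) ⁻¹' E := by
    rintro x ⟨h1, h2⟩
    refine ⟨hApow m x h1, ?_⟩
    show (p ^ m) • x + s ∈ A
    have h3 := hApow m _ h2
    rw [smul_add, hss] at h3
    exact h3
  have hE0 : μ ((fun x : UnitAddCircle => (p ^ m) • x) ⁻¹' E \ E) = 0 := by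
    rw [measure_sdiff hEsub hEm.nullMeasurableSet (measure_ne_top _ _),
      hmp.measure_preimage hEm.nullMeasurableSet, tsub_self]
  refine sing_of_null hAm hA0 ?_
  have hsub : {x | x + t ∈ A} ⊆ Aᶜ ∪ ((fun x : UnitAddCircle => (p ^ m) • x) ⁻¹' E \ E) := by
    intro x hx
    have hx' : x + t ∈ A := hx
    by_cases hxA : x ∈ A
    · right
      have h1 : (p ^ m) • x ∈ E := by
        refine ⟨hApow m x hxA, ?_⟩
        show (p ^ m) • x + s ∈ A
        have h3 := hApow m _ hx'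
        rwa [smul_add] at h3
      refine ⟨h1, fun hxE => ?_⟩
      have h2 : x + s ∈ A := hxE.2
      have h3 := hinj m _ h2 _ hx' (by rw [smul_add, smul_add, hss])
      exact hst (add_left_cancel h3)
    · exact Or.inl hxA
  exact measure_mono_null hsub (measure_union_null hA0 hE0)

lemma erg_symm {p q : ℕ} {μ : Measure UnitAddCircle} (he : JointlyErgodic p q μ) :
    JointlyErgodic q p μ := fun A hA h1 h2 => he A hA h2 h1

/-- translates by points whose order is not prime to `p q` -/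
theorem trans_pq {p q : ℕ} (hp : 2 ≤ p) (hq : 2 ≤ q) (hpq : Nat.Coprime p q)
    {μ : Measure UnitAddCircle} [IsProbabilityMeasure μ]
    (hip : MeasurePreserving (fun x : UnitAddCircle => p • x) μ μ)
    (hiq : MeasurePreserving (fun x : UnitAddCircle => q • x) μ μ) (he : JointlyErgodic p q μ)
    (hne : μ ≠ volume) {t : UnitAddCircle} (ht0 : 0 < addOrderOf t)
    (ht : ¬ Nat.Coprime (addOrderOf t) (p * q)) : (μ.map fun x => x + t) ⟂ₘ μ := by
  by_cases h1 : Nat.Coprime (addOrderOf t) p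
  · have h2 : ¬ Nat.Coprime (addOrderOf t) q := fun h => ht (Nat.Coprime.mul_right h1 h)
    obtain ⟨B, hBm, hB0, hB⟩ := ess_inj hq hp (Nat.coprime_comm.1 hpq) hiq hip (erg_symm he) hne
    exact trans_p hq hiq hBm hB0 hB ht0 h2
  · obtain ⟨B, hBm, hB0, hB⟩ := ess_inj hp hq hpq hip hiq he hne
    exact trans_p hp hip hBm hB0 hB ht0 h1

/-- infinitely many coefficients in all residue classes -/
theorem all_classes_inf {p q k : ℕ} (hp : 1 ≤ p) (hq : 1 ≤ q) (hk : 2 ≤ k)
    (hkp : Nat.Coprime k p) (hkq : Nat.Coprime k q)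
    {μ : Measure UnitAddCircle} [IsProbabilityMeasure μ]
    (hip : MeasurePreserving (fun x : UnitAddCircle => p • x) μ μ)
    (hiq : MeasurePreserving (fun x : UnitAddCircle => q • x) μ μ) (he : JointlyErgodic p q μ)
    (hs : ∀ t : UnitAddCircle, (∃ n, (k ^ n) • t = 0) → t ≠ 0 → (μ.map fun x => x + t) ⟂ₘ μ)
    (l : ℕ) (r : ℤ) : {m : ℤ | m ≡ r [ZMOD ((k ^ l : ℕ) : ℤ)] ∧ fc μ m ≠ 0}.Infinite := by
  have hkz : (k : ℤ) ≠ 0 := by exact_mod_cast (by omega : k ≠ 0)
  obtain ⟨r', hr', hr'0⟩ : ∃ r' : ℤ, r' ≡ r [ZMOD ((k ^ l : ℕ) : ℤ)] ∧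
      ¬ ((k ^ (l + 1) : ℕ) : ℤ) ∣ r' := by
    by_cases h : ((k ^ (l + 1) : ℕ) : ℤ) ∣ r
    · refine ⟨r + ((k ^ l : ℕ) : ℤ), Int.modEq_iff_dvd.2 ⟨-1, by ring⟩, fun h2 => ?_⟩
      have h3 : ((k ^ (l + 1) : ℕ) : ℤ) ∣ ((k ^ l : ℕ) : ℤ) := by
        have := dvd_sub h2 h
        rwa [add_sub_cancel_left] at this
      have h4 : k ^ (l + 1) ∣ k ^ l := by exact_mod_cast h3
      have h5 := Nat.le_of_dvd (Nat.pow_pos (by omega)) h4
      have h6 : k ^ l < k ^ (l + 1) := Nat.pow_lt_pow_right (by omega) (by omega)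
      omega
    · exact ⟨r, Int.ModEq.refl _, h⟩
  obtain ⟨m, hm1, hm2⟩ := all_classes (K := k ^ (l + 1)) (Nat.one_le_pow _ _ (by omega))
    (Nat.Coprime.pow_left _ hkp) (Nat.Coprime.pow_left _ hkq) hip hiq he
    (fun t h1 h2 => hs t ⟨_, h1⟩ h2) r'
  have hm0 : m ≠ 0 := by
    rintro rfl
    apply hr'0
    have := hm1.dvd
    rwa [sub_zero] at this
  have hdvd : ((k ^ l : ℕ) : ℤ) ∣ ((k ^ (l + 1) : ℕ) : ℤ) := by
    exact_mod_cast pow_dvd_pow k (Nat.le_succ l)
  have hmr : m ≡ r [ZMOD ((k ^ l : ℕ) : ℤ)] :=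
    (Int.modEq_iff_dvd.2 (hdvd.trans hm1.dvd)).trans hr'
  refine supp_inf hp hq hip hiq he (k := k ^ l) (Nat.one_le_pow _ _ (by omega))
    (Nat.Coprime.mul_right (Nat.Coprime.pow_left _ hkp) (Nat.Coprime.pow_left _ hkq)) hm0 hm2 ?_
  obtain ⟨c, hc⟩ := hmr.dvd
  have hrm : r = m + ((k ^ l : ℕ) : ℤ) * c := by linarith
  rw [hrm, Int.gcd_add_mul_left_left]

end Pool.Agent.V11299.FG
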