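import Pool.Agent.V11299.FG.Lift

/-!
Exceptional measures accumulate at Lebesgue measure; equivalent forms of the conjecture.
-/

set_option autoImplicit false

open MeasureTheory Filter Topology Set

namespace Pool.Agent.V11299.FG

open Pool.Agent.Y139.GR


/-- a probability measure as an element of the space of probability measures -/
noncomputable def mkP (μ : Measure UnitAddCircle) (h : IsProbabilityMeasure μ) : ProbabilityMeasure UnitAddCircle := ⟨μ, h⟩

lemma coe_mkP (μ : Measure UnitAddCircle) (h : IsProbabilityMeasure μ) : (mkP μ h : Measure UnitAddCircle) = μ := rfl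

/-- Lebesgue measure is an accumulation point of the images of an exceptional measure under
multiplications -/
theorem Exceptional.closure {p q : ℕ} (hp : 2 ≤ p) (hq : 1 ≤ q) {μ : Measure UnitAddCircle}
    (h : Exceptional p q μ) (κ : ProbabilityMeasure UnitAddCircle) (hκ : (κ : Measure UnitAddCircle) = volume) :
    κ ∈ _root_.closure {ν : ProbabilityMeasure UnitAddCircle | Exceptional p q (ν : Measure UnitAddCircle) ∧
        ∃ k : ℕ, 1 ≤ k ∧ (ν : Measure UnitAddCircle) = μ.map (fun x : UnitAddCircle => k • x)} := by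
  have hprob := h.prob
  obtain ⟨C, hC, hmain⟩ := Pool.Agent.TH463.UQ.main (η := 1 / 2) (by norm_num)
  have hconv := (hmain p hp μ hprob h.inv_p h.atomless).1
  have hinf : C.Infinite := by
    intro hfin
    obtain ⟨M, hM⟩ := hfin.bddAbove
    have h1 := hC (2 * M + 3)
    have h2 : (M + 2 : ℕ) ≤ Nat.card {c : ℕ | c < 2 * M + 3 ∧ c ∉ C} := by
      have hsub : (Finset.Ico (M + 1) (2 * M + 3) : Set ℕ) ⊆ {c : ℕ | c < 2 * M + 3 ∧ c ∉ C} := by
        intro c hc
        rw [Finset.coe_Ico, mem_Ico] at hc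
        refine ⟨hc.2, fun hcC => ?_⟩
        have := hM hcC
        omega
      have hfin2 : {c : ℕ | c < 2 * M + 3 ∧ c ∉ C}.Finite :=
        (Set.finite_lt_nat (2 * M + 3)).subset fun c hc => hc.1
      have h3 := Set.ncard_le_ncard hsub hfin2
      rw [Set.ncard_coe_finset, Nat.card_Ico] at h3
      have h4 : Nat.card {c : ℕ | c < 2 * M + 3 ∧ c ∉ C} =
        {c : ℕ | c < 2 * M + 3 ∧ c ∉ C}.ncard := rfl
      omega
    have h3 : ((M + 2 : ℕ) : ℝ) ≤ 1 / 2 * ((2 * M + 3 : ℕ) : ℝ) :=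
      le_trans (by exact_mod_cast h2) h1
    push_cast at h3
    linarith
  have hne : NeBot ((atTop : Filter ℕ) ⊓ 𝓟 C) := by
    rw [inf_principal_neBot_iff]
    intro U hU
    obtain ⟨a, ha⟩ := mem_atTop_sets.1 hU
    obtain ⟨c, hcC, hca⟩ := hinf.exists_gt a
    exact ⟨c, ha c hca.le, hcC⟩
  set ν : ℕ → ProbabilityMeasure UnitAddCircle := fun k => mkP (μ.map (fun x : UnitAddCircle => k • x))
    (Measure.isProbabilityMeasure_map (meas_nsmul k).aemeasurable) with hν
  have hνc : ∀ k, ((ν k : ProbabilityMeasure UnitAddCircle) : Measure UnitAddCircle) = μ.map (fun x : UnitAddCircle => k • x) :=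
    fun k => rfl
  have ht : Tendsto ν (atTop ⊓ 𝓟 C) (𝓝 κ) := by
    rw [ProbabilityMeasure.tendsto_iff_forall_integral_tendsto]
    intro f
    have h1 := hconv f.toContinuousMap
    rw [hκ]
    refine h1.congr fun c => ?_
    rw [hνc, integral_map (meas_nsmul c).aemeasurable f.continuous.aestronglyMeasurable]
    rfl
  refine mem_closure_of_tendsto ht ?_
  have h1 : ∀ᶠ k : ℕ in atTop ⊓ 𝓟 C, 1 ≤ k := (eventually_ge_atTop 1).filter_mono inf_le_left
  filter_upwards [h1] with k hk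
  exact ⟨h.map hp hq hk, k, hk, rfl⟩

/-- atomless invariant measures: singular part -/
lemma exists_sing {p q : ℕ} (hp : 2 ≤ p) (hq : 1 ≤ q) {μ : Measure UnitAddCircle} [IsProbabilityMeasure μ]
    (hip : MeasurePreserving (fun x : UnitAddCircle => p • x) μ μ)
    (hiq : MeasurePreserving (fun x : UnitAddCircle => q • x) μ μ) (hat : ∀ x, μ {x} = 0)
    (hne : μ ≠ volume) :
    ∃ ν : Measure UnitAddCircle, IsProbabilityMeasure ν ∧ MeasurePreserving (fun x : UnitAddCircle => p • x) ν ν ∧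
      MeasurePreserving (fun x : UnitAddCircle => q • x) ν ν ∧ (∀ x, ν {x} = 0) ∧
      ν ⟂ₘ (volume : Measure UnitAddCircle) := by
  set σ := μ.singularPart volume with hσ
  obtain ⟨hmeas, hsing, hadd⟩ := Measure.haveLebesgueDecomposition_spec μ (volume : Measure UnitAddCircle)
  have hle : σ ≤ μ := Measure.singularPart_le _ _
  have hσ0 : σ univ ≠ 0 := by
    intro h0
    have h1 : σ = 0 := Measure.measure_univ_eq_zero.1 h0
    apply hne
    refine eq_vol_of_ac hp hip ?_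
    rw [hadd, ← hσ, h1, zero_add]
    exact withDensity_absolutelyContinuous _ _
  have hσt : σ univ ≠ ⊤ := measure_ne_top _ _
  refine ⟨(σ univ)⁻¹ • σ, ⟨?_⟩, ?_, ?_, ?_, ?_⟩
  · rw [Measure.smul_apply, smul_eq_mul, ENNReal.inv_mul_cancel hσ0 hσt]
  · exact Pool.Agent.H847R3.XpXq.mp_smul (Pool.Agent.H847R3.XpXq.sing_inv (by omega) hip) _
  · exact Pool.Agent.H847R3.XpXq.mp_smul (Pool.Agent.H847R3.XpXq.sing_inv (by omega) hiq) _
  · intro x
    rw [Measure.smul_apply, smul_eq_mul]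
    have : σ {x} = 0 := le_antisymm ((hle {x}).trans (hat x).le) (zero_le)
    rw [this, mul_zero]
  · have h1 : σ ⟂ₘ (volume : Measure UnitAddCircle) := hsing
    exact h1.smul _

/-- the class of the atomless singular invariant probability measures -/
structure Singular (p q : ℕ) (μ : Measure UnitAddCircle) : Prop where
  prob : IsProbabilityMeasure μ
  inv_p : MeasurePreserving (fun x : UnitAddCircle => p • x) μ μ
  inv_q : MeasurePreserving (fun x : UnitAddCircle => q • x) μ μ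
  atomless : ∀ x, μ {x} = 0
  sing : μ ⟂ₘ (volume : Measure UnitAddCircle)

lemma Singular.map {p q : ℕ} {μ : Measure UnitAddCircle} (h : Singular p q μ) {k : ℕ} (hk : 1 ≤ k) :
    Singular p q (μ.map (fun x : UnitAddCircle => k • x)) := by
  have hprob := h.prob
  exact ⟨Measure.isProbabilityMeasure_map (meas_nsmul k).aemeasurable, mp_map' h.inv_p k,
    mp_map' h.inv_q k, atomless_map h.atomless hk, sing_map' hk h.sing⟩

theorem tfae_erg {p q : ℕ} (hp : 2 ≤ p) (hq : 1 ≤ q) :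
    List.TFAE [
      ∀ μ : Measure UnitAddCircle, ¬ Exceptional p q μ,
      {μ : Measure UnitAddCircle | Exceptional p q μ}.Finite,
      {r : ℝ | ∃ μ : Measure UnitAddCircle, Exceptional p q μ ∧ r = ‖∫ x, (fourier 1 x : ℂ) ∂μ‖}.Finite,
      IsClosed {μ : ProbabilityMeasure UnitAddCircle | Exceptional p q (μ : Measure UnitAddCircle)},
      ∃ δ : ℝ, 0 < δ ∧ ∀ μ : Measure UnitAddCircle, Exceptional p q μ →
        ∫ x, (fourier 1 x : ℂ) ∂μ = 0 ∨ δ ≤ ‖∫ x, (fourier 1 x : ℂ) ∂μ‖,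
      ∃ (N : ℕ) (ε : ℝ), 0 < ε ∧ ∀ μ : Measure UnitAddCircle, Exceptional p q μ →
        ∃ m : ℕ, 1 ≤ m ∧ m ≤ N ∧ ε ≤ ‖∫ x, (fourier m x : ℂ) ∂μ‖] := by
  tfae_have 1 → 2 := fun h => by
    have : {μ : Measure UnitAddCircle | Exceptional p q μ} = ∅ := by
      ext μ; simpa using h μ
    rw [this]; exact Set.finite_empty
  tfae_have 2 → 3 := fun h => by
    refine (h.image fun μ => ‖∫ x, (fourier 1 x : ℂ) ∂μ‖).subset ?_
    rintro r ⟨μ, hμ, rfl⟩
    exact ⟨μ, hμ, rfl⟩
  tfae_have 3 → 5 := fun h => by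
    set R := {r : ℝ | ∃ μ : Measure UnitAddCircle, Exceptional p q μ ∧ r = ‖∫ x, (fourier 1 x : ℂ) ∂μ‖}
      with hR
    have h1 : (R ∩ Ioi 0).Finite := h.subset inter_subset_left
    rcases (R ∩ Ioi 0).eq_empty_or_nonempty with he | hne
    · refine ⟨1, one_pos, fun μ hμ => Or.inl ?_⟩
      by_contra h0
      have : ‖∫ x, (fourier 1 x : ℂ) ∂μ‖ ∈ R ∩ Ioi 0 := ⟨⟨μ, hμ, rfl⟩, norm_pos_iff.2 h0⟩
      rw [he] at this
      exact this
    · obtain ⟨δ, hδ, hmin⟩ := h1.exists_minimal hne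
      refine ⟨δ, hδ.2, fun μ hμ => ?_⟩
      by_cases h0 : ∫ x, (fourier 1 x : ℂ) ∂μ = 0
      · exact Or.inl h0
      · right
        by_contra hlt
        push Not at hlt
        have h2 := hmin ⟨⟨μ, hμ, rfl⟩, norm_pos_iff.2 h0⟩ hlt.le
        exact absurd h2 (not_le.2 hlt)
  tfae_have 5 → 1 := by
    rintro ⟨δ, hδ, h⟩ μ hμ
    have hprob := hμ.prob
    obtain ⟨k, hk, h1, h2⟩ := gap hμ.atomless (hμ.sing hp hq) hδ
    rcases h _ (hμ.map hp hq hk) with h3 | h3
    · exact h1 h3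
    · exact absurd h2 (not_lt.2 h3)
  tfae_have 1 → 4 := fun h => by
    have : {μ : ProbabilityMeasure UnitAddCircle | Exceptional p q (μ : Measure UnitAddCircle)} = ∅ := by
      ext μ; simpa using h μ
    rw [this]; exact isClosed_empty
  tfae_have 4 → 1 := fun h μ hμ => by
    have h1 := hμ.closure hp hq (mkP volume inferInstance) rfl
    have h2 := closure_minimal (fun ν hν => hν.1) h h1
    exact h2.ne rfl
  tfae_have 1 → 6 := fun h => ⟨0, 1, one_pos, fun μ hμ => absurd hμ (h μ)⟩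
  tfae_have 6 → 1 := by
    rintro ⟨N, ε, hε, h⟩ μ hμ
    have hprob := hμ.prob
    obtain ⟨k, hk, h1⟩ := near hμ.atomless N hε
    obtain ⟨m, hm1, hmN, hm⟩ := h _ (hμ.map hp hq hk)
    exact absurd (h1 m hm1 hmN) (not_lt.2 hm)
  tfae_finish

theorem tfae_all {p q : ℕ} (hp : 2 ≤ p) (hq : 1 ≤ q) :
    List.TFAE [
      ∀ μ : Measure UnitAddCircle, IsProbabilityMeasure μ → MeasurePreserving (fun x : UnitAddCircle => p • x) μ μ →
        MeasurePreserving (fun x : UnitAddCircle => q • x) μ μ → (∀ x, μ {x} = 0) → μ = volume,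
      ∃ δ : ℝ, 0 < δ ∧ ∀ μ : Measure UnitAddCircle, Singular p q μ →
        ∫ x, (fourier 1 x : ℂ) ∂μ = 0 ∨ δ ≤ ‖∫ x, (fourier 1 x : ℂ) ∂μ‖,
      ∃ (N : ℕ) (ε : ℝ), 0 < ε ∧ ∀ μ : Measure UnitAddCircle, Singular p q μ →
        ∃ m : ℕ, 1 ≤ m ∧ m ≤ N ∧ ε ≤ ‖∫ x, (fourier m x : ℂ) ∂μ‖] := by
  have hno : (∀ μ : Measure UnitAddCircle, IsProbabilityMeasure μ →
      MeasurePreserving (fun x : UnitAddCircle => p • x) μ μ → MeasurePreserving (fun x : UnitAddCircle => q • x) μ μ →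
      (∀ x, μ {x} = 0) → μ = volume) → ∀ μ, ¬ Singular p q μ := by
    intro h μ hμ
    have h1 := h μ hμ.prob hμ.inv_p hμ.inv_q hμ.atomless
    have h2 := hμ.sing
    rw [h1] at h2
    exact not_sing_self h2
  tfae_have 1 → 2 := fun h => ⟨1, one_pos, fun μ hμ => absurd hμ (hno h μ)⟩
  tfae_have 1 → 3 := fun h => ⟨0, 1, one_pos, fun μ hμ => absurd hμ (hno h μ)⟩
  tfae_have 2 → 1 := by
    rintro ⟨δ, hδ, h⟩ μ hprob hip hiq hat
    by_contra hne
    obtain ⟨ν, h1, h2, h3, h4, h5⟩ := exists_sing hp hq hip hiq hat hne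
    have hν : Singular p q ν := ⟨h1, h2, h3, h4, h5⟩
    obtain ⟨k, hk, h6, h7⟩ := gap h4 h5 hδ
    rcases h _ (hν.map hk) with h8 | h8
    · exact h6 h8
    · exact absurd h7 (not_lt.2 h8)
  tfae_have 3 → 1 := by
    rintro ⟨N, ε, hε, h⟩ μ hprob hip hiq hat
    by_contra hne
    obtain ⟨ν, h1, h2, h3, h4, h5⟩ := exists_sing hp hq hip hiq hat hne
    have hν : Singular p q ν := ⟨h1, h2, h3, h4, h5⟩
    obtain ⟨k, hk, h6⟩ := near h4 N hε
    obtain ⟨m, hm1, hmN, hm⟩ := h _ (hν.map hk)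
    exact absurd (h6 m hm1 hmN) (not_lt.2 hm)
  tfae_finish

end Pool.Agent.V11299.FG
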