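import Mathlib

/-!
Correlations of a vector under a unitary operator that are zero or bounded away from zero: a minimal
norm argument in the weak closure of part of the orbit (after the proof of Cohen's idempotent theorem
by Amemiya and Ito).
-/

set_option autoImplicit false
set_option linter.unusedSectionVars false

open Filter Topology Set Metric

namespace Pool.Agent.V11299.FG

variable {H : Type*} [NormedAddCommGroup H] [InnerProductSpace ℂ H] [CompleteSpace H]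

/-- the functional `⟨g, ·⟩` in the weak dual -/
noncomputable def D (g : H) : WeakDual ℂ H :=
  StrongDual.toWeakDual (InnerProductSpace.toDual ℂ H g)

lemma D_apply (g f : H) : D g f = inner ℂ g f := rfl

lemma exists_D (φ : WeakDual ℂ H) : ∃ g : H, D g = φ := by
  refine ⟨(InnerProductSpace.toDual ℂ H).symm (WeakDual.toStrongDual φ), ?_⟩
  unfold D
  rw [LinearIsometryEquiv.apply_symm_apply]
  rfl

lemma D_ball (g : H) (r : ℝ) :
    D g ∈ (WeakDual.toStrongDual ⁻¹' closedBall (0 : StrongDual ℂ H) r : Set (WeakDual ℂ H)) ↔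
      ‖g‖ ≤ r := by
  rw [mem_preimage, mem_closedBall_zero_iff]
  have h : ‖WeakDual.toStrongDual (D g)‖ = ‖g‖ :=
    (InnerProductSpace.toDual ℂ H).norm_map g
  rw [h]

/-- composition with an operator -/
noncomputable def pre (A : H →L[ℂ] H) (φ : WeakDual ℂ H) : WeakDual ℂ H :=
  StrongDual.toWeakDual ((WeakDual.toStrongDual φ).comp A)

lemma pre_apply (A : H →L[ℂ] H) (φ : WeakDual ℂ H) (f : H) : pre A φ f = φ (A f) := rfl

lemma continuous_pre (A : H →L[ℂ] H) : Continuous (pre A) := by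
  refine WeakDual.continuous_of_continuous_eval fun f => ?_
  have h : (fun φ : WeakDual ℂ H => pre A φ f) = fun φ => φ (A f) := rfl
  rw [h]
  exact WeakDual.eval_continuous (A f)

/-- the operator `U ^ m` as a continuous linear map -/
noncomputable def pw (U : H ≃ₗᵢ[ℂ] H) (m : ℤ) : H →L[ℂ] H :=
  ((U ^ m).toContinuousLinearEquiv : H →L[ℂ] H)

lemma pw_apply (U : H ≃ₗᵢ[ℂ] H) (m : ℤ) (f : H) : pw U m f = (U ^ m) f := rfl

lemma pow_add_apply (U : H ≃ₗᵢ[ℂ] H) (m n : ℤ) (f : H) : (U ^ (m + n)) f = (U ^ m) ((U ^ n) f) := by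
  rw [zpow_add]; rfl

lemma inner_pow (U : H ≃ₗᵢ[ℂ] H) (m : ℤ) (g f : H) :
    inner ℂ g ((U ^ m) f) = inner ℂ ((U ^ (-m)) g) f := by
  have h := (U ^ m).inner_map_map ((U ^ (-m)) g) f
  rw [← pow_add_apply, add_neg_cancel, zpow_zero] at h
  exact h

lemma pre_D (U : H ≃ₗᵢ[ℂ] H) (m : ℤ) (g : H) : pre (pw U m) (D g) = D ((U ^ (-m)) g) := by
  refine DFunLike.ext _ _ fun f => ?_
  rw [pre_apply, D_apply, D_apply, pw_apply, inner_pow]

theorem abs_main (U : H ≃ₗᵢ[ℂ] H) (v : H) (hv : ‖v‖ = 1) {δ : ℝ} (hδ : 0 < δ)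
    (ha : ∀ n : ℤ, inner ℂ v ((U ^ n) v) = 0 ∨ δ ≤ ‖inner ℂ v ((U ^ n) v)‖) :
    ∃ g : H, inner ℂ g v ≠ 0 ∧ ({m : ℤ | inner ℂ g ((U ^ m) v) ≠ 0}.Finite ∨
      ∃ n : ℤ, n ≠ 0 ∧ ∀ k : ℕ, δ ≤ ‖inner ℂ g ((U ^ ((k : ℤ) * n)) v)‖) := by
  set S : Set ℤ := {n | inner ℂ ((U ^ n) v) v ≠ 0} with hS
  set K₀ : Set (WeakDual ℂ H) := (fun n : ℤ => D ((U ^ n) v)) '' S with hK₀
  set K : Set (WeakDual ℂ H) := closure K₀ with hK
  have hcor : ∀ n m : ℤ, inner ℂ ((U ^ n) v) ((U ^ m) v) = inner ℂ v ((U ^ (m - n)) v) := by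
    intro n m
    rw [inner_pow U m, ← pow_add_apply, inner_pow U (m - n)]
    congr 3
    ring
  have hnorm : ∀ (m : ℤ) (f : H), ‖(U ^ m) f‖ = ‖f‖ := fun m f => (U ^ m).norm_map f
  -- compactness
  have hKc : IsCompact K := by
    refine IsCompact.of_isClosed_subset (WeakDual.isCompact_closedBall (𝕜 := ℂ) (0 : StrongDual ℂ H) 1)
      isClosed_closure (closure_minimal ?_ (WeakDual.isClosed_closedBall 0 1))
    rintro _ ⟨n, _, rfl⟩
    rw [D_ball, hnorm, hv]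
  have hKne : K.Nonempty := by
    refine ⟨D ((U ^ (0 : ℤ)) v), subset_closure ⟨0, ?_, rfl⟩⟩
    show inner ℂ ((U ^ (0 : ℤ)) v) v ≠ 0
    rw [zpow_zero]
    show inner ℂ v v ≠ 0
    rw [inner_self_ne_zero]
    intro h
    rw [h, norm_zero] at hv
    exact zero_ne_one hv
  -- the values
  have hclosed : IsClosed {z : ℂ | z = 0 ∨ δ ≤ ‖z‖} :=
    (isClosed_singleton (x := (0 : ℂ))).union (isClosed_le continuous_const continuous_norm)
  have hval : ∀ φ ∈ K, ∀ m : ℤ, φ ((U ^ m) v) = 0 ∨ δ ≤ ‖φ ((U ^ m) v)‖ := by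
    intro φ hφ m
    have hc : IsClosed {φ : WeakDual ℂ H | φ ((U ^ m) v) = 0 ∨ δ ≤ ‖φ ((U ^ m) v)‖} :=
      hclosed.preimage (WeakDual.eval_continuous ((U ^ m) v))
    refine closure_minimal ?_ hc hφ
    rintro _ ⟨n, _, rfl⟩
    show inner ℂ ((U ^ n) v) ((U ^ m) v) = 0 ∨ δ ≤ ‖inner ℂ ((U ^ n) v) ((U ^ m) v)‖
    rw [hcor]
    exact ha _
  have hzero : ∀ φ ∈ K, φ v ≠ 0 := by
    intro φ hφ
    have hc : IsClosed {φ : WeakDual ℂ H | δ ≤ ‖φ v‖} :=
      isClosed_le continuous_const (WeakDual.eval_continuous v).norm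
    have h : δ ≤ ‖φ v‖ := by
      refine closure_minimal ?_ hc hφ
      rintro _ ⟨n, hn, rfl⟩
      have h0 : inner ℂ ((U ^ n) v) v ≠ 0 := hn
      show δ ≤ ‖inner ℂ ((U ^ n) v) v‖
      have e : inner ℂ ((U ^ n) v) v = inner ℂ v ((U ^ (0 - n)) v) := by
        rw [← hcor]; simp
      rw [e] at h0 ⊢
      exact (ha (0 - n)).resolve_left h0
    intro h1
    rw [h1, norm_zero] at h
    linarith
  -- translation
  have htr : ∀ φ ∈ K, ∀ m : ℤ, φ ((U ^ m) v) ≠ 0 → pre (pw U m) φ ∈ K := by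
    intro φ hφ m hm
    set O : Set (WeakDual ℂ H) := {φ | φ ((U ^ m) v) ≠ 0} with hO
    have hOo : IsOpen O := (isOpen_compl_singleton (x := (0 : ℂ))).preimage
      (WeakDual.eval_continuous ((U ^ m) v))
    have h1 : φ ∈ closure (O ∩ K₀) := hOo.inter_closure ⟨hm, hφ⟩
    refine map_mem_closure (continuous_pre (pw U m)) h1 ?_
    rintro _ ⟨hn1, n, hn, rfl⟩
    refine ⟨n - m, ?_, ?_⟩
    · show inner ℂ ((U ^ (n - m)) v) v ≠ 0
      have h2 : inner ℂ ((U ^ n) v) ((U ^ m) v) ≠ 0 := hn1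
      rw [inner_pow U m, ← pow_add_apply] at h2
      rwa [show n - m = -m + n by ring]
    · show D ((U ^ (n - m)) v) = pre (pw U m) (D ((U ^ n) v))
      rw [pre_D, ← pow_add_apply]
      congr 3
      ring
  -- an element of least norm
  obtain ⟨c, g, hgK, hgc, hmin⟩ : ∃ (c : ℝ) (g : H), D g ∈ K ∧ ‖g‖ = c ∧ ∀ h, D h ∈ K → c ≤ ‖h‖ := by
    have hlsc : LowerSemicontinuousOn
        (fun φ : WeakDual ℂ H => ‖WeakDual.toStrongDual φ‖) K := by
      apply LowerSemicontinuous.lowerSemicontinuousOn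
      rw [lowerSemicontinuous_iff_isClosed_preimage]
      intro r
      have h := WeakDual.isClosed_closedBall (𝕜 := ℂ) (0 : StrongDual ℂ H) r
      convert h using 1
      ext φ
      simp
    obtain ⟨φ, hφ, hφm⟩ := hlsc.exists_isMinOn hKne hKc
    obtain ⟨g, rfl⟩ := exists_D φ
    have hD : ∀ h : H, ‖WeakDual.toStrongDual (D h)‖ = ‖h‖ := fun h =>
      (InnerProductSpace.toDual ℂ H).norm_map h
    refine ⟨‖g‖, g, hφ, rfl, fun h hh => ?_⟩
    have h1 := isMinOn_iff.1 hφm (D h) hh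
    rwa [hD, hD] at h1
  refine ⟨g, hzero _ hgK, ?_⟩
  by_contra hcon
  rw [not_or] at hcon
  obtain ⟨hinf, hno⟩ := hcon
  have hinf' : {m : ℤ | inner ℂ g ((U ^ m) v) ≠ 0}.Infinite := hinf
  set e := hinf'.natEmbedding with he
  have heK : ∀ j, D ((U ^ (-(e j : ℤ))) g) ∈ K := by
    intro j
    rw [← pre_D]
    exact htr _ hgK _ (e j).2
  obtain ⟨ψ, hψ, hcl⟩ := hKc.exists_mapClusterPt (f := atTop)
    (u := fun j : ℕ => D ((U ^ (-(e j : ℤ))) g))
    (by rw [le_principal_iff]; exact mem_map.2 (univ_mem' heK))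
  obtain ⟨h, rfl⟩ := exists_D ψ
  have hch := hmin h hψ
  have hfreq : ∀ η : ℝ, 0 < η → ∃ᶠ j in (atTop : Filter ℕ),
      ‖(U ^ (-(e j : ℤ))) g - h‖ ^ 2 < 2 * η := by
    intro η hη
    have hO : {φ : WeakDual ℂ H | ‖h‖ ^ 2 - η < (φ h).re} ∈ 𝓝 (D h) := by
      refine (isOpen_lt continuous_const
        (Complex.continuous_re.comp (WeakDual.eval_continuous h))).mem_nhds ?_
      show ‖h‖ ^ 2 - η < (inner ℂ h h).re
      have : (inner ℂ h h).re = ‖h‖ ^ 2 := by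
        have := inner_self_eq_norm_sq (𝕜 := ℂ) h
        simpa using this
      rw [this]; linarith
    refine (mapClusterPt_iff_frequently.1 hcl _ hO).mono fun j hj => ?_
    have hj' : ‖h‖ ^ 2 - η < (inner ℂ ((U ^ (-(e j : ℤ))) g) h).re := hj
    have h2 := norm_sub_sq (𝕜 := ℂ) ((U ^ (-(e j : ℤ))) g) h
    rw [hnorm, hgc] at h2
    have h3 : RCLike.re (inner ℂ ((U ^ (-(e j : ℤ))) g) h) =
      (inner ℂ ((U ^ (-(e j : ℤ))) g) h).re := rfl
    rw [h3] at h2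
    have hc0 : 0 ≤ c := hgc ▸ norm_nonneg g
    nlinarith
  -- two close translates
  have hη : 0 < δ ^ 2 / 8 := by positivity
  obtain ⟨j, hj⟩ := (hfreq _ hη).exists
  obtain ⟨l, hlj, hl⟩ := (frequently_atTop.1 (hfreq _ hη)) (j + 1)
  have hne : (e j : ℤ) ≠ e l := by
    intro h
    have : e j = e l := Subtype.ext h
    have := e.injective this
    omega
  have hdist : ‖(U ^ (-(e j : ℤ))) g - (U ^ (-(e l : ℤ))) g‖ < δ := by
    have h1 : ‖(U ^ (-(e j : ℤ))) g - h‖ < δ / 2 := by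
      apply lt_of_pow_lt_pow_left₀ 2 (by positivity)
      calc _ < 2 * (δ ^ 2 / 8) := hj
        _ = (δ / 2) ^ 2 := by ring
    have h2 : ‖(U ^ (-(e l : ℤ))) g - h‖ < δ / 2 := by
      apply lt_of_pow_lt_pow_left₀ 2 (by positivity)
      calc _ < 2 * (δ ^ 2 / 8) := hl
        _ = (δ / 2) ^ 2 := by ring
    calc _ = ‖((U ^ (-(e j : ℤ))) g - h) - ((U ^ (-(e l : ℤ))) g - h)‖ := by
          congr 1; abel
      _ ≤ _ := norm_sub_le _ _
      _ < δ := by linarith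
  set n : ℤ := (e j : ℤ) - e l with hn
  have hn0 : n ≠ 0 := sub_ne_zero.2 hne
  have hdist' : ‖(U ^ (-n)) g - g‖ < δ := by
    have h1 : (U ^ (-(e j : ℤ))) g - (U ^ (-(e l : ℤ))) g =
        (U ^ (-(e l : ℤ))) ((U ^ (-n)) g - g) := by
      rw [map_sub, ← pow_add_apply]
      congr 3
      rw [hn]; ring
    rw [h1, hnorm] at hdist
    exact hdist
  apply hno
  refine ⟨n, hn0, ?_⟩
  intro k
  have hstep : ∀ s : ℤ, inner ℂ g ((U ^ s) v) ≠ 0 → inner ℂ g ((U ^ (s + n)) v) ≠ 0 := by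
    intro s hs h0
    have h1 : δ ≤ ‖inner ℂ g ((U ^ s) v)‖ := (hval _ hgK s).resolve_left hs
    have h2 : inner ℂ ((U ^ (-n)) g - g) ((U ^ s) v) = - inner ℂ g ((U ^ s) v) := by
      rw [inner_sub_left, ← inner_pow, ← pow_add_apply, add_comm n s, h0, zero_sub]
    have h3 : ‖inner ℂ ((U ^ (-n)) g - g) ((U ^ s) v)‖ < δ := by
      refine (norm_inner_le_norm _ _).trans_lt ?_
      rw [hnorm, hv, mul_one]
      exact hdist'
    rw [h2, norm_neg] at h3
    linarith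
  have hk : inner ℂ g ((U ^ ((k : ℤ) * n)) v) ≠ 0 := by
    induction k with
    | zero =>
      have := hzero _ hgK
      simpa [D_apply] using this
    | succ k ih =>
      have := hstep _ ih
      rwa [show ((k + 1 : ℕ) : ℤ) * n = (k : ℤ) * n + n by push_cast; ring]
  exact (hval _ hgK _).resolve_left hk

end Pool.Agent.V11299.FG
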