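import Pool.Agent.Y139.GR.Wie
import Pool.Agent.V11299.FG.Abs

/-!
The non-vanishing Fourier coefficients of an atomless singular measure on the circle are not bounded
away from zero.
-/

set_option autoImplicit false

open MeasureTheory Filter Topology Set

namespace Pool.Agent.V11299.FG

open Pool.Agent.Y139.GR


lemma norm_fourier_one (n : ℤ) (x : UnitAddCircle) : ‖(fourier n x : ℂ)‖ = 1 := by
  rw [fourier_apply]; exact Circle.norm_coe _

section U

variable (μ : Measure UnitAddCircle) [IsFiniteMeasure μ]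

lemma norm_mulC (n : ℤ) (f : Lp ℂ 2 μ) : ‖mulC μ n f‖ = ‖f‖ := by
  rw [Lp.norm_def, Lp.norm_def]
  congr 1
  refine eLpNorm_congr_norm_ae ?_
  filter_upwards [coeFn_mulC μ n f] with x hx
  rw [hx, norm_mul, norm_fourier_one, one_mul]

lemma mulC_mulC (a b : ℤ) (f : Lp ℂ 2 μ) : mulC μ a (mulC μ b f) = mulC μ (a + b) f := by
  refine Lp.ext ?_
  filter_upwards [coeFn_mulC μ a (mulC μ b f), coeFn_mulC μ b f, coeFn_mulC μ (a + b) f]
    with x h1 h2 h3
  rw [h1, h2, h3, fourier_add, mul_assoc]

lemma mulC_zero (f : Lp ℂ 2 μ) : mulC μ 0 f = f := by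
  refine Lp.ext ?_
  filter_upwards [coeFn_mulC μ 0 f] with x h1
  rw [h1, fourier_zero, one_mul]

/-- multiplication by the first character, a unitary operator -/
noncomputable def UU : Lp ℂ 2 μ ≃ₗᵢ[ℂ] Lp ℂ 2 μ where
  toLinearEquiv := LinearEquiv.ofLinearMap (mulC μ 1).toLinearMap (mulC μ (-1)).toLinearMap
    (by
      refine LinearMap.ext fun f => ?_
      show mulC μ 1 (mulC μ (-1) f) = f
      rw [mulC_mulC, add_neg_cancel, mulC_zero])
    (by
      refine LinearMap.ext fun f => ?_
      show mulC μ (-1) (mulC μ 1 f) = f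
      rw [mulC_mulC, neg_add_cancel, mulC_zero])
  norm_map' f := norm_mulC μ 1 f

lemma UU_apply (f : Lp ℂ 2 μ) : UU μ f = mulC μ 1 f := rfl

lemma UU_symm_apply (f : Lp ℂ 2 μ) : (UU μ).symm f = mulC μ (-1) f := rfl

lemma UU_zpow (m : ℤ) (f : Lp ℂ 2 μ) : ((UU μ) ^ m) f = mulC μ m f := by
  induction m using Int.induction_on with
  | zero => rw [zpow_zero, mulC_zero]; rfl
  | succ i ih =>
    rw [add_comm, zpow_add, zpow_one]
    show UU μ (((UU μ) ^ (i : ℤ)) f) = _
    rw [ih, UU_apply, mulC_mulC]
  | pred i ih =>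
    rw [sub_eq_add_neg, add_comm, zpow_add, zpow_neg_one]
    show (UU μ).symm (((UU μ) ^ (-(i : ℤ))) f) = _
    rw [ih, UU_symm_apply, mulC_mulC]

/-- the constant function one -/
noncomputable def one' : Lp ℂ 2 μ := (memLp_const (1 : ℂ) : MemLp (fun _ : UnitAddCircle => (1 : ℂ)) 2 μ).toLp _

lemma coe_one' : (one' μ : UnitAddCircle → ℂ) =ᵐ[μ] fun _ => (1 : ℂ) := MemLp.coeFn_toLp _

lemma inner_U (g : Lp ℂ 2 μ) (m : ℤ) :
    inner ℂ g (((UU μ) ^ m) (one' μ)) = ∫ x, fourier m x * (starRingEnd ℂ) (g x) ∂μ := by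
  rw [L2.inner_def, UU_zpow]
  refine integral_congr_ae ?_
  filter_upwards [coeFn_mulC μ m (one' μ), coe_one' μ] with x h1 h2
  rw [h1, h2, mul_one]
  simp only [RCLike.inner_apply]

lemma inner_one_U (m : ℤ) : inner ℂ (one' μ) (((UU μ) ^ m) (one' μ)) = fc μ m := by
  rw [inner_U]
  unfold fc
  refine integral_congr_ae ?_
  filter_upwards [coe_one' μ] with x h2
  rw [h2]
  simp

end U

/-- Wiener's lemma for complex densities -/
theorem wienerC {ν : Measure UnitAddCircle} [IsFiniteMeasure ν] (hν : ∀ x, ν {x} = 0) {G : UnitAddCircle → ℂ}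
    (hG : Integrable G ν) {n : ℤ} (hn : n ≠ 0) :
    Tendsto (fun N : ℕ => (1 / (N : ℝ)) * ∑ k ∈ Finset.range N,
      ‖∫ x, fourier ((k : ℤ) * n) x * G x ∂ν‖ ^ 2) atTop (𝓝 0) := by
  set K : ℕ → UnitAddCircle → ℂ := fun N t => (1 / (N : ℂ)) * ∑ k ∈ Finset.range N, fourier (k : ℤ) t
    with hK
  have hKc : ∀ N, Continuous (K N) := fun N => by
    rw [hK]
    refine continuous_const.mul (continuous_finsetSum _ fun n _ => map_continuous _)
  have hK1 : ∀ N t, ‖K N t‖ ≤ 1 := by
    intro N t
    rw [hK]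
    simp only [norm_mul, norm_div, norm_one, Complex.norm_natCast]
    rcases Nat.eq_zero_or_pos N with rfl | hN
    · simp
    · have hN' : (0 : ℝ) < N := by exact_mod_cast hN
      rw [one_div, inv_mul_le_iff₀ hN', mul_one]
      refine (norm_sum_le _ _).trans ?_
      refine (Finset.sum_le_card_nsmul _ _ 1 fun n _ => ?_).trans ?_
      · rw [norm_fourier_one]
      · simp
  have hKt : ∀ t : UnitAddCircle, t ≠ 0 → Tendsto (fun N => K N t) atTop (𝓝 0) := by
    intro t ht
    set z : ℂ := fourier 1 t with hz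
    have hz1 : z ≠ 1 := by
      intro h1
      apply ht
      have h2 : (AddCircle.toCircle t : ℂ) = 1 := by rw [← fourier_one]; exact h1
      have h3 : AddCircle.toCircle t = AddCircle.toCircle (0 : UnitAddCircle) := by
        apply Subtype.ext
        rw [h2]
        simp
      exact AddCircle.injective_toCircle one_ne_zero h3
    have hpow : ∀ n : ℕ, (fourier (n : ℤ) t : ℂ) = z ^ n := by
      intro n
      induction n with
      | zero => simp
      | succ n ih => rw [Nat.cast_succ, fourier_add, ih, pow_succ]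
    have hsum : ∀ N : ℕ, ‖K N t‖ ≤ (2 / ‖z - 1‖) * (1 / (N : ℝ)) := by
      intro N
      rw [hK]
      simp only [hpow]
      rw [geom_sum_eq hz1, norm_mul, norm_div, norm_div, norm_one, Complex.norm_natCast]
      have h4 : ‖z ^ N - 1‖ ≤ 2 := by
        refine (norm_sub_le _ _).trans ?_
        have hzn : ‖z‖ = 1 := norm_fourier_one 1 t
        rw [norm_pow, hzn, one_pow, norm_one]
        norm_num
      rw [mul_comm]
      refine mul_le_mul_of_nonneg_right ?_ (by positivity)
      exact div_le_div_of_nonneg_right h4 (norm_nonneg _)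
    refine squeeze_zero_norm hsum ?_
    have := (tendsto_one_div_atTop_nhds_zero_nat (𝕜 := ℝ)).const_mul (2 / ‖z - 1‖)
    simpa using this
  have hcm : Continuous fun z : UnitAddCircle × UnitAddCircle => n • (z.1 - z.2) := by fun_prop
  have hdiag : (ν.prod ν) {z : UnitAddCircle × UnitAddCircle | n • (z.1 - z.2) = 0} = 0 := by
    have hm : MeasurableSet {z : UnitAddCircle × UnitAddCircle | n • (z.1 - z.2) = 0} :=
      (isClosed_eq hcm continuous_const).measurableSet
    rw [Measure.prod_apply hm]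
    have : ∀ x : UnitAddCircle, ν (Prod.mk x ⁻¹' {z : UnitAddCircle × UnitAddCircle | n • (z.1 - z.2) = 0}) = 0 := by
      intro x
      have h1 : (Prod.mk x ⁻¹' {z : UnitAddCircle × UnitAddCircle | n • (z.1 - z.2) = 0}) ⊆
          (fun y : UnitAddCircle => x - y) ⁻¹' {t : UnitAddCircle | n • t = 0} := fun y hy => hy
      have hfin : ({t : UnitAddCircle | n • t = 0} : Set UnitAddCircle).Finite := by
        have h2 : ({t : UnitAddCircle | n • t = 0} : Set UnitAddCircle) ⊆ {t : UnitAddCircle | n.natAbs • t = 0} := by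
          intro t ht
          have ht' : n • t = 0 := ht
          show n.natAbs • t = 0
          rcases Int.natAbs_eq n with h | h
          · rw [h] at ht'
            simpa using ht'
          · rw [h] at ht'
            simpa using ht'
        refine Set.Finite.subset ?_ h2
        have hpos : 0 < n.natAbs := Int.natAbs_pos.2 hn
        have := AddCircle.finite_torsion (p := (1 : ℝ)) hpos
        exact this
      have h3 : ((fun y : UnitAddCircle => x - y) ⁻¹' {t : UnitAddCircle | n • t = 0}).Finite :=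
        hfin.preimage (fun a _ b _ h => sub_right_injective h)
      refine measure_mono_null h1 ?_
      rw [← Set.biUnion_of_singleton ((fun y : UnitAddCircle => x - y) ⁻¹' {t : UnitAddCircle | n • t = 0})]
      exact (measure_biUnion_null_iff h3.countable).2 fun y _ => hν y
    simp only [this, lintegral_zero]
  have hGG : Integrable (fun z : UnitAddCircle × UnitAddCircle => G z.1 * (starRingEnd ℂ) (G z.2)) (ν.prod ν) := by
    have hc : Integrable (fun y => (starRingEnd ℂ) (G y)) ν :=
      (Complex.conjLIE.integrable_comp_iff (φ := G)).2 hG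
    exact Integrable.mul_prod hG hc
  have hlim : Tendsto (fun N => ∫ z, K N (n • (z.1 - z.2)) * (G z.1 * (starRingEnd ℂ) (G z.2))
      ∂(ν.prod ν)) atTop (𝓝 (∫ _z : UnitAddCircle × UnitAddCircle, (0 : ℂ) ∂(ν.prod ν))) := by
    refine tendsto_integral_of_dominated_convergence
      (fun z => ‖G z.1 * (starRingEnd ℂ) (G z.2)‖) (fun N => ?_)
      hGG.norm (fun N => Eventually.of_forall fun z => ?_) ?_
    · exact ((hKc N).comp hcm).aestronglyMeasurable.mul hGG.aestronglyMeasurable
    · rw [norm_mul]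
      exact mul_le_of_le_one_left (norm_nonneg _) (hK1 N _)
    · have : ∀ᵐ z ∂(ν.prod ν), ¬ (n • (z.1 - z.2) = 0) := by
        rw [ae_iff]
        simpa using hdiag
      filter_upwards [this] with z hz
      have := (hKt _ hz).mul_const (G z.1 * (starRingEnd ℂ) (G z.2))
      simpa using this
  rw [integral_zero] at hlim
  have hone : ∀ k : ℤ, ((‖∫ x, fourier k x * G x ∂ν‖ ^ 2 : ℝ) : ℂ) =
      ∫ z, (fourier k (z.1 - z.2) : ℂ) * (G z.1 * (starRingEnd ℂ) (G z.2)) ∂(ν.prod ν) := by
    intro k
    have e : (fun z : UnitAddCircle × UnitAddCircle => (fourier k (z.1 - z.2) : ℂ) * (G z.1 * (starRingEnd ℂ) (G z.2))) =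
        fun z => (fourier k z.1 * G z.1) * (starRingEnd ℂ) (fourier k z.2 * G z.2) := by
      funext z
      rw [fourier_sub_apply, map_mul]
      ring
    rw [e, integral_prod_mul (fun x => (fourier k x : ℂ) * G x)
      fun y => (starRingEnd ℂ) ((fourier k y : ℂ) * G y), integral_conj,
      ← Complex.normSq_eq_norm_sq, Complex.normSq_eq_conj_mul_self, mul_comm]
  have hkn : ∀ (k : ℕ) (t : UnitAddCircle), (fourier ((k : ℤ) * n) t : ℂ) = fourier (k : ℤ) (n • t) := by
    intro k t
    rw [fourier_apply, fourier_apply, mul_smul]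
  have heq : ∀ N : ℕ, ∫ z, K N (n • (z.1 - z.2)) * (G z.1 * (starRingEnd ℂ) (G z.2))
      ∂(ν.prod ν) = (((1 / (N : ℝ)) * ∑ k ∈ Finset.range N,
        ‖∫ x, fourier ((k : ℤ) * n) x * G x ∂ν‖ ^ 2 : ℝ) : ℂ) := by
    intro N
    have e : (fun z : UnitAddCircle × UnitAddCircle => K N (n • (z.1 - z.2)) * (G z.1 * (starRingEnd ℂ) (G z.2))) =
        fun z => (1 / (N : ℂ)) * ∑ k ∈ Finset.range N,
          (fourier ((k : ℤ) * n) (z.1 - z.2) : ℂ) * (G z.1 * (starRingEnd ℂ) (G z.2)) := by
      funext z
      rw [hK]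
      simp only [hkn]
      rw [mul_assoc, Finset.sum_mul]
    rw [e, integral_const_mul, integral_finsetSum _ fun k _ => ?_]
    · push_cast
      congr 1
      refine Finset.sum_congr rfl fun k _ => ?_
      have := hone ((k : ℤ) * n)
      push_cast at this
      rw [this]
    · refine hGG.bdd_mul (c := 1) ?_ (Eventually.of_forall fun z => ?_)
      · exact ((map_continuous (fourier ((k : ℤ) * n))).comp (by fun_prop)).aestronglyMeasurable
      · rw [norm_fourier_one]
  simp only [heq] at hlim
  have := (Complex.continuous_re.tendsto _).comp hlim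
  simpa only [Function.comp_def, Complex.ofReal_re, Complex.zero_re] using this

end Pool.Agent.V11299.FG
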