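import Pool.Agent.V11299.FG.Sing
import Pool.Agent.TH463.UQ.Univ

/-!
Atomless jointly ergodic measures for `×p, ×q` different from Lebesgue measure: singularity, stability
under multiplications.
-/

set_option autoImplicit false

open MeasureTheory Filter Topology Set

namespace Pool.Agent.V11299.FG

open Pool.Agent.Y139.GR


/-- every strictly invariant Borel set has measure zero or one -/
def JointlyErgodic (p q : ℕ) (μ : Measure UnitAddCircle) : Prop :=
  ∀ A : Set UnitAddCircle, MeasurableSet A → (fun x : UnitAddCircle => p • x) ⁻¹' A = A →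
    (fun x : UnitAddCircle => q • x) ⁻¹' A = A → μ A = 0 ∨ μ A = 1

/-- the exceptional measures: atomless invariant jointly ergodic probability measures different
from Lebesgue measure -/
structure Exceptional (p q : ℕ) (μ : Measure UnitAddCircle) : Prop where
  prob : IsProbabilityMeasure μ
  inv_p : MeasurePreserving (fun x : UnitAddCircle => p • x) μ μ
  inv_q : MeasurePreserving (fun x : UnitAddCircle => q • x) μ μ
  atomless : ∀ x, μ {x} = 0
  ergodic : JointlyErgodic p q μ
  ne : μ ≠ volume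

lemma meas_nsmul (k : ℕ) : Measurable (fun x : UnitAddCircle => k • x) := (continuous_nsmul k).measurable

lemma mp_vol' {k : ℕ} (hk : 1 ≤ k) :
    MeasurePreserving (fun x : UnitAddCircle => k • x) (volume : Measure UnitAddCircle) volume := by
  have h := Pool.Agent.H847R3.XpXq.mp_vol (a := (k : ℤ)) (by exact_mod_cast (by omega : k ≠ 0))
  have e : (fun x : UnitAddCircle => (k : ℤ) • x) = fun x : UnitAddCircle => k • x := by
    funext x; exact natCast_zsmul x k
  rwa [e] at h

lemma sing_map' {μ : Measure UnitAddCircle} {k : ℕ} (hk : 1 ≤ k) (h : μ ⟂ₘ (volume : Measure UnitAddCircle)) :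
    μ.map (fun x : UnitAddCircle => k • x) ⟂ₘ (volume : Measure UnitAddCircle) := by
  have h := Pool.Agent.H847R3.XpXq.sing_map (a := (k : ℤ))
    (by exact_mod_cast (by omega : k ≠ 0)) h
  have e : (fun x : UnitAddCircle => (k : ℤ) • x) = fun x : UnitAddCircle => k • x := by
    funext x; exact natCast_zsmul x k
  rwa [e] at h

lemma not_sing_self : ¬ ((volume : Measure UnitAddCircle) ⟂ₘ (volume : Measure UnitAddCircle)) := by
  intro h
  have h1 := (Measure.MutuallySingular.self_iff _).1 h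
  have h2 : (volume : Measure UnitAddCircle) univ = 1 := measure_univ
  rw [h1] at h2
  simp at h2

/-- an invariant measure absolutely continuous with respect to Lebesgue measure is Lebesgue
measure -/
lemma eq_vol_of_ac {p : ℕ} (hp : 2 ≤ p) {μ : Measure UnitAddCircle} [IsProbabilityMeasure μ]
    (hi : MeasurePreserving (fun x : UnitAddCircle => p • x) μ μ) (hac : μ ≪ (volume : Measure UnitAddCircle)) :
    μ = volume := by
  have herg : Ergodic (fun x : UnitAddCircle => p • x) (volume : Measure UnitAddCircle) := by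
    have := AddCircle.ergodic_nsmul (T := (1 : ℝ)) (n := p) (by omega)
    exact this
  obtain ⟨c, hc⟩ := herg.eq_smul_of_absolutelyContinuous hi hac
  have h1 : μ univ = c * (volume : Measure UnitAddCircle) univ := by
    conv_lhs => rw [hc]
    rfl
  have h2 : (volume : Measure UnitAddCircle) univ = 1 := measure_univ
  rw [measure_univ, h2, mul_one] at h1
  rw [hc, ← h1, one_smul]

/-- a jointly ergodic measure is Lebesgue measure or singular -/
lemma sing_of_erg {p q : ℕ} (hp : 2 ≤ p) (hq : 1 ≤ q) {μ : Measure UnitAddCircle} [IsProbabilityMeasure μ]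
    (hip : MeasurePreserving (fun x : UnitAddCircle => p • x) μ μ)
    (hiq : MeasurePreserving (fun x : UnitAddCircle => q • x) μ μ) (he : JointlyErgodic p q μ)
    (hne : μ ≠ volume) : μ ⟂ₘ (volume : Measure UnitAddCircle) := by
  by_contra hns
  apply hne
  refine eq_vol_of_ac hp hip ?_
  refine Measure.AbsolutelyContinuous.mk fun N hN hN0 => ?_
  have hpq : MeasurePreserving (fun x : UnitAddCircle => (p * q) • x) μ μ :=
    Pool.Agent.H847R3.XpXq.mp_mul hip hiq
  set B : Set UnitAddCircle := ⋃ (i : ℕ) (j : ℕ), (fun x : UnitAddCircle => (p ^ i * q ^ j) • x) ⁻¹' N with hB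
  have hmemB : ∀ x, x ∈ B ↔ ∃ i j : ℕ, (p ^ i * q ^ j) • x ∈ N := by
    intro x
    simp only [hB, mem_iUnion, mem_preimage]
  have hBm : MeasurableSet B :=
    MeasurableSet.iUnion fun i => MeasurableSet.iUnion fun j => meas_nsmul _ hN
  have hB0 : (volume : Measure UnitAddCircle) B = 0 := by
    rw [hB, measure_iUnion_null_iff]
    intro i
    rw [measure_iUnion_null_iff]
    intro j
    rw [(mp_vol' (Nat.one_le_iff_ne_zero.2 (by positivity))).measure_preimage hN.nullMeasurableSet]
    exact hN0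
  have hNB : N ⊆ B := fun x hx => (hmemB x).2 ⟨0, 0, by simpa using hx⟩
  have hpB : ∀ x, p • x ∈ B → x ∈ B := by
    intro x hx
    obtain ⟨i, j, h⟩ := (hmemB _).1 hx
    refine (hmemB x).2 ⟨i + 1, j, ?_⟩
    rw [smul_smul] at h
    convert h using 2
    ring
  have hqB : ∀ x, q • x ∈ B → x ∈ B := by
    intro x hx
    obtain ⟨i, j, h⟩ := (hmemB _).1 hx
    refine (hmemB x).2 ⟨i, j + 1, ?_⟩
    rw [smul_smul] at h
    convert h using 2
    ring
  set A : Set UnitAddCircle := ⋂ n : ℕ, (fun x : UnitAddCircle => ((p * q) ^ n) • x) ⁻¹' B with hA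
  have hmemA : ∀ x, x ∈ A ↔ ∀ n : ℕ, ((p * q) ^ n) • x ∈ B := by
    intro x
    simp only [hA, mem_iInter, mem_preimage]
  have hAm : MeasurableSet A := MeasurableSet.iInter fun n => meas_nsmul _ hBm
  have hAB : A ⊆ B := fun x hx => by simpa using (hmemA x).1 hx 0
  have hAp : (fun x : UnitAddCircle => p • x) ⁻¹' A = A := by
    ext x
    rw [mem_preimage, hmemA, hmemA]
    constructor
    · intro h n
      have h1 := h n
      rw [smul_comm] at h1
      exact hpB _ h1
    · intro h n
      have h1 := h (n + 1)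
      have e : ((p * q) ^ (n + 1)) • x = q • (((p * q) ^ n) • (p • x)) := by
        rw [smul_smul, smul_smul]
        congr 1
        ring
      rw [e] at h1
      exact hqB _ h1
  have hAq : (fun x : UnitAddCircle => q • x) ⁻¹' A = A := by
    ext x
    rw [mem_preimage, hmemA, hmemA]
    constructor
    · intro h n
      have h1 := h n
      rw [smul_comm] at h1
      exact hqB _ h1
    · intro h n
      have h1 := h (n + 1)
      have e : ((p * q) ^ (n + 1)) • x = p • (((p * q) ^ n) • (q • x)) := by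
        rw [smul_smul, smul_smul]
        congr 1
        ring
      rw [e] at h1
      exact hpB _ h1
  have hdiff : μ (B \ A) = 0 := by
    have h1 : B \ A ⊆ ⋃ n : ℕ, B \ (fun x : UnitAddCircle => ((p * q) ^ n) • x) ⁻¹' B := by
      rintro x ⟨hx1, hx2⟩
      rw [hmemA] at hx2
      push Not at hx2
      obtain ⟨n, hn⟩ := hx2
      exact mem_iUnion.2 ⟨n, hx1, hn⟩
    refine measure_mono_null h1 ?_
    rw [measure_iUnion_null_iff]
    intro n
    have hsub : (fun x : UnitAddCircle => ((p * q) ^ n) • x) ⁻¹' B ⊆ B := by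
      intro x hx
      have hx' : ((p * q) ^ n) • x ∈ B := hx
      obtain ⟨i, j, h⟩ := (hmemB _).1 hx'
      refine (hmemB x).2 ⟨i + n, j + n, ?_⟩
      rw [smul_smul] at h
      convert h using 2
      rw [mul_pow]
      ring
    have hmp : MeasurePreserving (fun x : UnitAddCircle => ((p * q) ^ n) • x) μ μ :=
      Pool.Agent.H847R3.XpXq.mp_pow hpq n
    rw [measure_sdiff hsub (meas_nsmul _ hBm).nullMeasurableSet (measure_ne_top _ _),
      hmp.measure_preimage hBm.nullMeasurableSet, tsub_self]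
  rcases he A hAm hAp hAq with h0 | h1
  · have : μ B = 0 := by
      have h2 : B ⊆ A ∪ (B \ A) := fun x hx => by
        by_cases h : x ∈ A
        · exact Or.inl h
        · exact Or.inr ⟨hx, h⟩
      exact measure_mono_null h2 (measure_union_null h0 hdiff)
    exact measure_mono_null hNB this
  · exfalso
    apply hns
    refine ⟨Aᶜ, hAm.compl, ?_, ?_⟩
    · rw [measure_compl hAm (measure_ne_top _ _), h1, measure_univ, tsub_self]
    · rw [compl_compl]
      exact measure_mono_null hAB hB0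

lemma Exceptional.sing {p q : ℕ} (hp : 2 ≤ p) (hq : 1 ≤ q) {μ : Measure UnitAddCircle}
    (h : Exceptional p q μ) : μ ⟂ₘ (volume : Measure UnitAddCircle) := by
  haveI := h.prob
  exact sing_of_erg hp hq h.inv_p h.inv_q h.ergodic h.ne

lemma mp_map' {μ : Measure UnitAddCircle} {s : ℕ} (h : MeasurePreserving (fun x : UnitAddCircle => s • x) μ μ) (k : ℕ) :
    MeasurePreserving (fun x : UnitAddCircle => s • x) (μ.map (fun x : UnitAddCircle => k • x))
      (μ.map (fun x : UnitAddCircle => k • x)) := by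
  refine ⟨meas_nsmul s, ?_⟩
  rw [Measure.map_map (meas_nsmul s) (meas_nsmul k)]
  have e : ((fun x : UnitAddCircle => s • x) ∘ fun x : UnitAddCircle => k • x) = (fun x : UnitAddCircle => k • x) ∘ fun x => s • x := by
    funext x
    simp only [Function.comp]
    exact smul_comm _ _ _
  rw [e, ← Measure.map_map (meas_nsmul k) (meas_nsmul s), h.map_eq]

lemma finite_fibre {k : ℕ} (hk : 1 ≤ k) (x : UnitAddCircle) : {y : UnitAddCircle | k • y = x}.Finite := by
  rcases Set.eq_empty_or_nonempty {y : UnitAddCircle | k • y = x} with h | ⟨y₀, hy₀⟩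
  · rw [h]; exact Set.finite_empty
  · have hfin : {t : UnitAddCircle | k • t = 0}.Finite := AddCircle.finite_torsion (p := (1 : ℝ)) hk
    have hy0 : k • y₀ = x := hy₀
    refine (hfin.image (fun t => y₀ + t)).subset ?_
    intro y hy
    have hy' : k • y = x := hy
    refine ⟨y - y₀, ?_, add_sub_cancel y₀ y⟩
    show k • (y - y₀) = 0
    rw [smul_sub, hy', hy0, sub_self]

lemma atomless_map {μ : Measure UnitAddCircle} (h : ∀ x, μ {x} = 0) {k : ℕ} (hk : 1 ≤ k) (x : UnitAddCircle) :
    (μ.map (fun x : UnitAddCircle => k • x)) {x} = 0 := by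
  rw [Measure.map_apply (meas_nsmul k) (measurableSet_singleton x)]
  have h3 : ((fun y : UnitAddCircle => k • y) ⁻¹' {x}).Finite := finite_fibre hk x
  rw [← Set.biUnion_of_singleton ((fun y : UnitAddCircle => k • y) ⁻¹' {x})]
  exact (measure_biUnion_null_iff h3.countable).2 fun y _ => h y

lemma erg_map {p q : ℕ} {μ : Measure UnitAddCircle} (h : JointlyErgodic p q μ) (k : ℕ) :
    JointlyErgodic p q (μ.map (fun x : UnitAddCircle => k • x)) := by
  intro A hA hAp hAq
  rw [Measure.map_apply (meas_nsmul k) hA]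
  refine h _ (meas_nsmul k hA) ?_ ?_
  · ext x
    show k • p • x ∈ A ↔ k • x ∈ A
    rw [smul_comm]
    show k • x ∈ (fun x : UnitAddCircle => p • x) ⁻¹' A ↔ _
    rw [hAp]
  · ext x
    show k • q • x ∈ A ↔ k • x ∈ A
    rw [smul_comm]
    show k • x ∈ (fun x : UnitAddCircle => q • x) ⁻¹' A ↔ _
    rw [hAq]

/-- stability under multiplications -/
theorem Exceptional.map {p q : ℕ} (hp : 2 ≤ p) (hq : 1 ≤ q) {μ : Measure UnitAddCircle}
    (h : Exceptional p q μ) {k : ℕ} (hk : 1 ≤ k) :
    Exceptional p q (μ.map (fun x : UnitAddCircle => k • x)) := by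
  haveI := h.prob
  refine ⟨Measure.isProbabilityMeasure_map (meas_nsmul k).aemeasurable, mp_map' h.inv_p k,
    mp_map' h.inv_q k, atomless_map h.atomless hk, erg_map h.ergodic k, ?_⟩
  intro h1
  have h2 := sing_map' hk (h.sing hp hq)
  rw [h1] at h2
  exact not_sing_self h2

lemma fc_map (μ : Measure UnitAddCircle) (k : ℕ) (m : ℤ) :
    fc (μ.map (fun x : UnitAddCircle => k • x)) m = fc μ (k * m) := by
  unfold fc
  rw [integral_map (meas_nsmul k).aemeasurable (map_continuous _).aestronglyMeasurable]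
  refine integral_congr_ae (Eventually.of_forall fun x => ?_)
  show (fourier m (k • x) : ℂ) = fourier (k * m) x
  rw [fourier_apply, fourier_apply, mul_comm, mul_smul, natCast_zsmul]

lemma norm_fc_neg (μ : Measure UnitAddCircle) (m : ℤ) : ‖fc μ (-m)‖ = ‖fc μ m‖ := by
  unfold fc
  have e : (fun x : UnitAddCircle => (fourier (-m) x : ℂ)) = fun x => (starRingEnd ℂ) (fourier m x) := by
    funext x; exact fourier_neg
  rw [e, integral_conj]
  exact RCLike.norm_conj _

lemma norm_fc_natAbs (μ : Measure UnitAddCircle) (n : ℤ) : ‖fc μ (n.natAbs : ℤ)‖ = ‖fc μ n‖ := by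
  rcases Int.natAbs_eq n with h | h
  · rw [← h]
  · rw [h, norm_fc_neg, Int.natAbs_neg, Int.natAbs_natCast]

/-- small nonzero first coefficients -/
theorem gap {μ : Measure UnitAddCircle} [IsProbabilityMeasure μ] (hat : ∀ x, μ {x} = 0)
    (hs : μ ⟂ₘ (volume : Measure UnitAddCircle)) {δ : ℝ} (hδ : 0 < δ) :
    ∃ k : ℕ, 1 ≤ k ∧ fc (μ.map (fun x : UnitAddCircle => k • x)) 1 ≠ 0 ∧
      ‖fc (μ.map (fun x : UnitAddCircle => k • x)) 1‖ < δ := by
  obtain ⟨n, hn0, hn⟩ := circ_main hat hs (δ := min δ 1) (by positivity)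
  have hne : n ≠ 0 := by
    intro h
    rw [h] at hn
    have : fc μ 0 = 1 := by unfold fc; simp
    rw [this, norm_one] at hn
    exact absurd hn (not_lt.2 (min_le_right _ _))
  refine ⟨n.natAbs, Int.natAbs_pos.2 hne, ?_, ?_⟩
  · rw [fc_map, mul_one, ← norm_ne_zero_iff, norm_fc_natAbs, norm_ne_zero_iff]
    exact hn0
  · rw [fc_map, mul_one, norm_fc_natAbs]
    exact hn.trans_le (min_le_left _ _)

/-- all small frequencies at the same time -/
theorem near {μ : Measure UnitAddCircle} [IsProbabilityMeasure μ] (hat : ∀ x, μ {x} = 0) (N : ℕ) {ε : ℝ}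
    (hε : 0 < ε) : ∃ k : ℕ, 1 ≤ k ∧ ∀ m : ℕ, 1 ≤ m → m ≤ N →
      ‖fc (μ.map (fun x : UnitAddCircle => k • x)) m‖ < ε := by
  have h1 : Tendsto (fun K : ℕ => ∑ m ∈ Finset.Icc 1 N, (1 / (K : ℝ)) * ∑ k ∈ Finset.range K,
      ‖fc μ ((k : ℤ) * m)‖ ^ 2) atTop (𝓝 (∑ _m ∈ Finset.Icc 1 N, (0 : ℝ))) := by
    refine tendsto_finsetSum _ fun m hm => ?_
    have hm0 : (m : ℤ) ≠ 0 := by
      have := (Finset.mem_Icc.1 hm).1
      exact_mod_cast (by omega : m ≠ 0)
    have := wienerC hat (integrable_const (1 : ℂ)) hm0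
    simp only [mul_one] at this
    exact this
  rw [Finset.sum_const_zero] at h1
  have h2 := (h1.eventually (gt_mem_nhds (show (0 : ℝ) < ε ^ 2 / 2 by positivity))).and
    (eventually_ge_atTop 2)
  obtain ⟨K, hK, hK2⟩ := h2.exists
  by_contra hcon
  push Not at hcon
  have hKr : (2 : ℝ) ≤ K := by exact_mod_cast hK2
  have h3 : ∀ k ∈ Finset.Ico 1 K, ε ^ 2 ≤ ∑ m ∈ Finset.Icc 1 N, ‖fc μ ((k : ℤ) * m)‖ ^ 2 := by
    intro k hk
    obtain ⟨m, hm1, hmN, hm⟩ := hcon k (Finset.mem_Ico.1 hk).1
    rw [fc_map] at hm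
    calc ε ^ 2 ≤ ‖fc μ ((k : ℤ) * m)‖ ^ 2 := pow_le_pow_left₀ hε.le hm 2
      _ ≤ _ := Finset.single_le_sum (f := fun m : ℕ => ‖fc μ ((k : ℤ) * m)‖ ^ 2)
        (fun i _ => by positivity) (Finset.mem_Icc.2 ⟨hm1, hmN⟩)
  have h4 : ((K : ℝ) - 1) * ε ^ 2 ≤ ∑ k ∈ Finset.range K,
      ∑ m ∈ Finset.Icc 1 N, ‖fc μ ((k : ℤ) * m)‖ ^ 2 := by
    calc ((K : ℝ) - 1) * ε ^ 2 = ∑ _k ∈ Finset.Ico 1 K, ε ^ 2 := by
          rw [Finset.sum_const, Nat.card_Ico, nsmul_eq_mul, Nat.cast_sub (by omega), Nat.cast_one]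
      _ ≤ ∑ k ∈ Finset.Ico 1 K, ∑ m ∈ Finset.Icc 1 N, ‖fc μ ((k : ℤ) * m)‖ ^ 2 :=
          Finset.sum_le_sum h3
      _ ≤ _ := by
          refine Finset.sum_le_sum_of_subset_of_nonneg ?_ fun i _ _ =>
            Finset.sum_nonneg fun j _ => by positivity
          intro k hk
          rw [Finset.mem_Ico] at hk
          exact Finset.mem_range.2 hk.2
  have h5 : ∑ m ∈ Finset.Icc 1 N, (1 / (K : ℝ)) * ∑ k ∈ Finset.range K,
      ‖fc μ ((k : ℤ) * m)‖ ^ 2 = (1 / (K : ℝ)) * ∑ k ∈ Finset.range K,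
      ∑ m ∈ Finset.Icc 1 N, ‖fc μ ((k : ℤ) * m)‖ ^ 2 := by
    rw [← Finset.mul_sum, Finset.sum_comm]
  rw [h5] at hK
  have h6 : (1 / (K : ℝ)) * (((K : ℝ) - 1) * ε ^ 2) < ε ^ 2 / 2 :=
    (mul_le_mul_of_nonneg_left h4 (by positivity)).trans_lt hK
  rw [one_div, inv_mul_lt_iff₀ (by linarith)] at h6
  nlinarith [sq_pos_of_pos hε]

end Pool.Agent.V11299.FG
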