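import Pool.Agent.V11299.FG.Lift

/-!
Galois symmetry of the Fourier support of jointly ergodic measures.
-/

set_option autoImplicit false

open MeasureTheory Filter Topology Set
open scoped ENNReal

namespace Pool.Agent.V11299.FG

open Pool.Agent.Y139.GR Pool.Agent.W764.SH Pool.Agent.H847R3.XpXq
open Pool.Agent.W764.FB hiding fc

/-- almost invariant sets have measure zero or one -/
lemma ae_erg {p q : ℕ} {μ : Measure UnitAddCircle} [IsProbabilityMeasure μ]
    (hip : MeasurePreserving (fun x : UnitAddCircle => p • x) μ μ)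
    (hiq : MeasurePreserving (fun x : UnitAddCircle => q • x) μ μ) (he : JointlyErgodic p q μ)
    {B : Set UnitAddCircle} (hB : MeasurableSet B) (hp : ∀ᵐ x ∂μ, (p • x ∈ B ↔ x ∈ B))
    (hq : ∀ᵐ x ∂μ, (q • x ∈ B ↔ x ∈ B)) : μ B = 0 ∨ μ B = 1 := by
  have h1 : ∀ i : ℕ, ∀ᵐ x ∂μ, ((p ^ i) • x ∈ B ↔ x ∈ B) := by
    intro i
    induction i with
    | zero => exact Eventually.of_forall fun x => by simp
    | succ i ih =>
      have h := hip.quasiMeasurePreserving.ae ih
      filter_upwards [h, hp] with x h1 h2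
      rw [pow_succ, mul_smul, h1, h2]
  have h2 : ∀ j : ℕ, ∀ᵐ x ∂μ, ((q ^ j) • x ∈ B ↔ x ∈ B) := by
    intro i
    induction i with
    | zero => exact Eventually.of_forall fun x => by simp
    | succ i ih =>
      have h := hiq.quasiMeasurePreserving.ae ih
      filter_upwards [h, hq] with x h1 h2
      rw [pow_succ, mul_smul, h1, h2]
  have h3 : ∀ᵐ x ∂μ, ∀ i j : ℕ, ((p ^ i * q ^ j) • x ∈ B ↔ x ∈ B) := by
    rw [ae_all_iff]
    intro i
    rw [ae_all_iff]
    intro j
    have hqj : MeasurePreserving (fun x : UnitAddCircle => (q ^ j) • x) μ μ :=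
      Pool.Agent.H847R3.XpXq.mp_pow hiq j
    have h := hqj.quasiMeasurePreserving.ae (h1 i)
    filter_upwards [h, h2 j] with x h1 h2
    rw [mul_smul, h1, h2]
  set A : Set UnitAddCircle := ⋃ N : ℕ, ⋂ (i : ℕ) (j : ℕ),
    (fun x : UnitAddCircle => (p ^ (N + i) * q ^ (N + j)) • x) ⁻¹' B with hA
  have hmem : ∀ x, x ∈ A ↔ ∃ N : ℕ, ∀ i j : ℕ, (p ^ (N + i) * q ^ (N + j)) • x ∈ B := by
    intro x
    simp only [hA, mem_iUnion, mem_iInter, mem_preimage]
  have hAm : MeasurableSet A := MeasurableSet.iUnion fun N => MeasurableSet.iInter fun i =>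
    MeasurableSet.iInter fun j => meas_nsmul _ hB
  have hAp : (fun x : UnitAddCircle => p • x) ⁻¹' A = A := by
    ext x
    rw [mem_preimage, hmem, hmem]
    constructor
    · rintro ⟨N, h⟩
      refine ⟨N + 1, fun i j => ?_⟩
      have h4 := h i (j + 1)
      rw [smul_smul] at h4
      convert h4 using 2
      ring
    · rintro ⟨N, h⟩
      refine ⟨N, fun i j => ?_⟩
      have h4 := h (i + 1) j
      rw [smul_smul]
      convert h4 using 2
      ring
  have hAq : (fun x : UnitAddCircle => q • x) ⁻¹' A = A := by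
    ext x
    rw [mem_preimage, hmem, hmem]
    constructor
    · rintro ⟨N, h⟩
      refine ⟨N + 1, fun i j => ?_⟩
      have h4 := h (i + 1) j
      rw [smul_smul] at h4
      convert h4 using 2
      ring
    · rintro ⟨N, h⟩
      refine ⟨N, fun i j => ?_⟩
      have h4 := h i (j + 1)
      rw [smul_smul]
      convert h4 using 2
      ring
  have hAB : A =ᵐ[μ] B := by
    filter_upwards [h3] with x hx
    refine propext ?_
    show x ∈ A ↔ x ∈ B
    rw [hmem]
    constructor
    · rintro ⟨N, h⟩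
      exact (hx _ _).1 (h 0 0)
    · intro h
      exact ⟨0, fun i j => (hx _ _).2 h⟩
  rw [← measure_congr hAB]
  exact he A hAm hAp hAq

/-- a jointly ergodic measure has constant density on a set with respect to its average over the
fibres of a multiplication prime to `p q` -/
lemma exists_slice {p q k : ℕ} (hk : 1 ≤ k) (hkp : Nat.Coprime k p) (hkq : Nat.Coprime k q)
    {μ : Measure UnitAddCircle} [IsProbabilityMeasure μ]
    (hip : MeasurePreserving (fun x : UnitAddCircle => p • x) μ μ)
    (hiq : MeasurePreserving (fun x : UnitAddCircle => q • x) μ μ) (he : JointlyErgodic p q μ) :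
    ∃ (c : ℝ≥0∞) (A : Set UnitAddCircle), MeasurableSet A ∧ c ≠ 0 ∧ c ≠ ⊤ ∧
      μ = c • (mu1 k μ).restrict A := by
  set ρ := mu1 k μ with hρ
  have hle : μ ≤ ρ := le_mu1 (by omega) μ
  have hac : μ ≪ ρ := hle.absolutelyContinuous
  have hfin : IsFiniteMeasure ρ := inferInstance
  have hdec : μ.HaveLebesgueDecomposition ρ := Measure.haveLebesgueDecomposition_of_sigmaFinite _ _
  set h := μ.rnDeriv ρ with hh
  have hm : Measurable h := Measure.measurable_rnDeriv _ _
  have hpe : ∀ᵐ x ∂μ, h (p • x) = h x :=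
    hac.ae_le (hip.rnDeriv_comp_aeEq (mu1_inv (by omega) hkp μ hip))
  have hqe : ∀ᵐ x ∂μ, h (q • x) = h x :=
    hac.ae_le (hiq.rnDeriv_comp_aeEq (mu1_inv (by omega) hkq μ hiq))
  obtain ⟨c, hc⟩ : ∃ c, h =ᵐ[μ] Function.const _ c := by
    refine exists_eventuallyEq_const_of_forall_separating MeasurableSet fun U hU => ?_
    have h0 := ae_erg hip hiq he (hm hU) (by
      filter_upwards [hpe] with x hx
      show h (p • x) ∈ U ↔ h x ∈ U
      rw [hx]) (by
      filter_upwards [hqe] with x hx
      show h (q • x) ∈ U ↔ h x ∈ U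
      rw [hx])
    rcases h0 with h0 | h1
    · right
      exact measure_eq_zero_iff_ae_notMem.1 h0
    · left
      rw [← prob_compl_eq_zero_iff (hm hU)] at h1
      have h2 := measure_eq_zero_iff_ae_notMem.1 h1
      filter_upwards [h2] with x hx
      by_contra hx2
      exact hx hx2
  have hA : MeasurableSet (h ⁻¹' {c}) := hm (measurableSet_singleton c)
  refine ⟨c, h ⁻¹' {c}, hA, ?_, ?_, ?_⟩
  · have h1 := Measure.rnDeriv_pos hac
    obtain ⟨x, hx1, hx2⟩ := (h1.and hc).exists
    have hx3 : h x = c := hx2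
    rw [← hx3]
    exact hx1.ne'
  · have h1 : ∀ᵐ x ∂μ, h x ≤ 1 := hac.ae_le (Measure.rnDeriv_le_one_of_le hle)
    obtain ⟨x, hx1, hx2⟩ := (h1.and hc).exists
    have hx3 : h x = c := hx2
    rw [← hx3]
    exact ne_top_of_le_ne_top (by simp) hx1
  · ext s hs
    rw [Measure.smul_apply, Measure.restrict_apply hs, smul_eq_mul]
    have h1 : μ s = μ (s ∩ h ⁻¹' {c}) := by
      refine (measure_congr ?_).symm
      filter_upwards [hc] with x hx
      refine propext ?_
      show x ∈ s ∩ h ⁻¹' {c} ↔ x ∈ s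
      exact ⟨fun h => h.1, fun h => ⟨h, hx⟩⟩
    rw [h1, ← Measure.setLIntegral_rnDeriv hac]
    rw [← setLIntegral_const]
    refine setLIntegral_congr_fun (hs.inter hA) ?_
    intro x hx
    exact hx.2

/-! ### Fibre sums with values in a commutative monoid -/

lemma sum_shift' {M : Type*} [AddCommMonoid M] {p : ℕ} (hp : 0 < p) (F : ℤ → M)
    (hF : ∀ j : ℤ, F (j + p) = F j) (k : ℤ) :
    ∑ j ∈ Finset.range p, F ((j : ℤ) + k) = ∑ j ∈ Finset.range p, F j := by
  have hper : Function.Periodic F (p : ℤ) := hF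
  have hmod : ∀ j : ℤ, F (j % p) = F j := by
    intro j
    have h1 : F (j % p + (j / p) * p) = F (j % p) := hper.int_mul (j / p) (j % p)
    have h2 : j % (p : ℤ) + j / p * p = j := Int.emod_add_ediv_mul j p
    rw [h2] at h1
    exact h1.symm
  have hpz : (0 : ℤ) < p := by exact_mod_cast hp
  refine Finset.sum_nbij' (fun j => (((j : ℤ) + k) % p).toNat) (fun j => (((j : ℤ) - k) % p).toNat)
    ?_ ?_ ?_ ?_ ?_
  · intro j hj
    have h1 := Int.emod_nonneg ((j : ℤ) + k) hpz.ne'
    have h2 := Int.emod_lt_of_pos ((j : ℤ) + k) hpz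
    rw [Finset.mem_range]
    omega
  · intro j hj
    have h1 := Int.emod_nonneg ((j : ℤ) - k) hpz.ne'
    have h2 := Int.emod_lt_of_pos ((j : ℤ) - k) hpz
    rw [Finset.mem_range]
    omega
  · intro j hj
    rw [Finset.mem_range] at hj
    have h1 := Int.emod_nonneg ((j : ℤ) + k) hpz.ne'
    have e1 : (((((j : ℤ) + k) % p).toNat : ℕ) : ℤ) = ((j : ℤ) + k) % p := Int.toNat_of_nonneg h1
    have e2 : ((((((j : ℤ) + k) % p).toNat : ℕ) : ℤ) - k) % p = (j : ℤ) := by
      rw [e1, Int.sub_emod, Int.emod_emod_of_dvd _ (dvd_refl _), ← Int.sub_emod,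
        add_sub_cancel_right]
      exact Int.emod_eq_of_lt (by positivity) (by exact_mod_cast hj)
    show (((((((j : ℤ) + k) % p).toNat : ℕ) : ℤ) - k) % p).toNat = j
    rw [e2]
    simp
  · intro j hj
    rw [Finset.mem_range] at hj
    have h1 := Int.emod_nonneg ((j : ℤ) - k) hpz.ne'
    have e1 : (((((j : ℤ) - k) % p).toNat : ℕ) : ℤ) = ((j : ℤ) - k) % p := Int.toNat_of_nonneg h1
    have e2 : ((((((j : ℤ) - k) % p).toNat : ℕ) : ℤ) + k) % p = (j : ℤ) := by
      rw [e1, Int.add_emod, Int.emod_emod_of_dvd _ (dvd_refl _), ← Int.add_emod,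
        sub_add_cancel]
      exact Int.emod_eq_of_lt (by positivity) (by exact_mod_cast hj)
    show (((((((j : ℤ) - k) % p).toNat : ℕ) : ℤ) + k) % p).toNat = j
    rw [e2]
    simp
  · intro j hj
    have h1 := Int.emod_nonneg ((j : ℤ) + k) hpz.ne'
    have e1 : (((((j : ℤ) + k) % p).toNat : ℕ) : ℤ) = ((j : ℤ) + k) % p := Int.toNat_of_nonneg h1
    rw [e1, hmod]

/-- fibre sums are functions of `k x` -/
lemma sum_sec {M : Type*} [AddCommMonoid M] {k : ℕ} (hk : 1 ≤ k) (g : UnitAddCircle → M)
    (x : UnitAddCircle) :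
    ∑ j ∈ Finset.range k, g (sec (k : ℤ) (k • x) + hh k 1 j) =
      ∑ j ∈ Finset.range k, g (x + hh k 1 j) := by
  have hkR : (k : ℝ) ≠ 0 := by exact_mod_cast (by omega : k ≠ 0)
  obtain ⟨l, hl⟩ := sec_spec (a := (k : ℤ)) (by exact_mod_cast (by omega : k ≠ 0)) x
  rw [natCast_zsmul] at hl
  rw [hl]
  set F : ℤ → M := fun j => g (x + (((j : ℝ) / (k : ℝ) : ℝ) : UnitAddCircle)) with hF
  have hper : ∀ j : ℤ, F (j + k) = F j := by
    intro j
    simp only [hF]
    congr 2
    push_cast
    rw [add_div, div_self hkR, AddCircle.coe_add]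
    have : ((1 : ℝ) : UnitAddCircle) = 0 := AddCircle.coe_period 1
    rw [this, add_zero]
  have h := sum_shift' (by omega) F hper l
  have e1 : ∑ j ∈ Finset.range k, g (x + (((l : ℝ) / ((k : ℤ) : ℝ) : ℝ) : UnitAddCircle) + hh k 1 j) =
      ∑ j ∈ Finset.range k, F ((j : ℤ) + l) := by
    refine Finset.sum_congr rfl fun j _ => ?_
    simp only [hF]
    congr 1
    unfold hh
    rw [add_assoc, ← AddCircle.coe_add]
    congr 2
    push_cast
    rw [pow_one]
    ring
  have e2 : ∑ j ∈ Finset.range k, g (x + hh k 1 j) = ∑ j ∈ Finset.range k, F j := by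
    refine Finset.sum_congr rfl fun j _ => ?_
    simp only [hF]
    unfold hh
    rw [pow_one]
    push_cast
    rfl
  rw [e1, e2, h]

/-! ### Vanishing sums of roots of unity -/

lemma fourier_hh {k : ℕ} (r : ℤ) (j : ℕ) :
    (fourier r (hh k 1 j : UnitAddCircle) : ℂ) = (fourier r (hh k 1 1 : UnitAddCircle) : ℂ) ^ j := by
  have e : (hh k 1 j : UnitAddCircle) = j • (hh k 1 1 : UnitAddCircle) := by
    unfold hh
    rw [← AddCircle.coe_nsmul]
    congr 1
    rw [nsmul_eq_mul]
    push_cast
    ring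
  rw [e, fourier_apply, fourier_apply, smul_comm, AddCircle.toCircle_nsmul]
  rfl

lemma prim {k : ℕ} (hk : 1 ≤ k) (r : ℤ) :
    IsPrimitiveRoot (fourier r (hh k 1 1 : UnitAddCircle) : ℂ) (k / Int.gcd r k) := by
  have hkR : (k : ℝ) ≠ 0 := by exact_mod_cast (by omega : k ≠ 0)
  set d := Int.gcd r k with hd
  have hdk : d ∣ k := by
    have := Int.gcd_dvd_right r (k : ℤ)
    exact_mod_cast this
  have hdr : (d : ℤ) ∣ r := Int.gcd_dvd_left r (k : ℤ)
  obtain ⟨k', hk'⟩ := hdk
  obtain ⟨r', hr'⟩ := hdr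
  have hd0 : 0 < d := by
    rcases Nat.eq_zero_or_pos d with h | h
    · rw [h, zero_mul] at hk'; omega
    · exact h
  have hk'0 : 0 < k' := by
    rcases Nat.eq_zero_or_pos k' with h | h
    · rw [h, mul_zero] at hk'; omega
    · exact h
  have hkd : k / d = k' := by
    rw [hk']
    exact Nat.mul_div_cancel_left _ hd0
  rw [hkd]
  have hgcd : Int.gcd r' k' = 1 := by
    have h1 : Int.gcd (d * r') ((d * k' : ℕ) : ℤ) = d * Int.gcd r' k' := by
      push_cast
      rw [Int.gcd_mul_left]
      simp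
    rw [← hr', ← hk', ← hd] at h1
    have h2 : d * 1 = d * Int.gcd r' k' := by omega
    exact (Nat.eq_of_mul_eq_mul_left hd0 h2).symm
  have h1 : (fourier r (hh k 1 1 : UnitAddCircle) : ℂ) =
      (Complex.exp (2 * Real.pi * Complex.I / k')) ^ r' := by
    unfold hh
    rw [fourier_coe_apply, ← Complex.exp_int_mul]
    congr 1
    have hd0' : (d : ℂ) ≠ 0 := by exact_mod_cast hd0.ne'
    have hk0' : (k' : ℂ) ≠ 0 := by exact_mod_cast hk'0.ne'
    have e1 : (r : ℂ) = d * r' := by exact_mod_cast congrArg (Int.cast : ℤ → ℂ) hr'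
    have e2 : (k : ℂ) = d * k' := by exact_mod_cast congrArg (Nat.cast : ℕ → ℂ) hk'
    push_cast
    rw [e1, e2]
    field_simp
  rw [h1]
  exact (Complex.isPrimitiveRoot_exp k' hk'0.ne').zpow_of_gcd_eq_one _ hgcd

/-- Galois conjugation of vanishing sums of roots of unity -/
lemma galois {k : ℕ} (hk : 1 ≤ k) {r s : ℤ} (hrs : Int.gcd r k = Int.gcd s k) (J : Finset ℕ)
    (h : ∑ j ∈ J, (fourier r (hh k 1 j : UnitAddCircle) : ℂ) = 0) :
    ∑ j ∈ J, (fourier s (hh k 1 j : UnitAddCircle) : ℂ) = 0 := by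
  have hr := prim hk r
  have hs := prim hk s
  rw [← hrs] at hs
  have hpos : 0 < k / Int.gcd r k := by
    have hdk : Int.gcd r k ∣ k := by
      have := Int.gcd_dvd_right r (k : ℤ)
      exact_mod_cast this
    exact Nat.div_pos (Nat.le_of_dvd (by omega) hdk) (Nat.pos_of_dvd_of_pos hdk (by omega))
  rw [Finset.sum_congr rfl fun j _ => fourier_hh r j] at h
  rw [Finset.sum_congr rfl fun j _ => fourier_hh s j]
  set f : Polynomial ℤ := ∑ j ∈ J, Polynomial.X ^ j with hf
  have haev : ∀ w : ℂ, Polynomial.aeval w f = ∑ j ∈ J, w ^ j := by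
    intro w
    rw [hf, map_sum]
    simp
  rw [← haev] at h ⊢
  have h1 : minpoly ℤ (fourier r (hh k 1 1 : UnitAddCircle) : ℂ) ∣ f :=
    minpoly.isIntegrallyClosed_dvd (hr.isIntegral hpos) h
  rw [← Polynomial.cyclotomic_eq_minpoly hr hpos, Polynomial.cyclotomic_eq_minpoly hs hpos] at h1
  obtain ⟨g, hg⟩ := h1
  rw [hg, map_mul, minpoly.aeval, zero_mul]

/-- the fibre sum of a character restricted to a set -/
noncomputable def CF (k : ℕ) (r : ℤ) (A : Set UnitAddCircle) (x : UnitAddCircle) : ℂ :=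
  ∑ j ∈ Finset.range k, A.indicator (fun y => (fourier r y : ℂ)) (x + hh k 1 j)

lemma measurable_CF (k : ℕ) (r : ℤ) {A : Set UnitAddCircle} (hA : MeasurableSet A) :
    Measurable (CF k r A) := by
  unfold CF
  refine Finset.measurable_fun_sum _ fun j _ => ?_
  exact ((map_continuous (fourier r : C(UnitAddCircle, ℂ))).measurable.indicator hA).comp
    (measurable_add_const _)

lemma norm_CF (k : ℕ) (r : ℤ) (A : Set UnitAddCircle) (x : UnitAddCircle) : ‖CF k r A x‖ ≤ k := by
  unfold CF
  refine (norm_sum_le _ _).trans ?_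
  have : ∀ j ∈ Finset.range k, ‖A.indicator (fun y => (fourier r y : ℂ)) (x + hh k 1 j)‖ ≤ 1 := by
    intro j _
    rw [norm_indicator_eq_indicator_norm]
    refine indicator_apply_le' (fun _ => (norm_fourier_one r _).le) fun _ => zero_le_one
  refine (Finset.sum_le_sum this).trans ?_
  rw [Finset.sum_const, Finset.card_range, nsmul_eq_mul, mul_one]

lemma CF_sec {k : ℕ} (hk : 1 ≤ k) (r : ℤ) (A : Set UnitAddCircle) (x : UnitAddCircle) :
    CF k r A (sec (k : ℤ) (k • x)) = CF k r A x :=
  sum_sec hk _ x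

lemma CF_eq {k : ℕ} (r : ℤ) (A : Set UnitAddCircle) [DecidablePred (· ∈ A)] (x : UnitAddCircle) :
    CF k r A x = (fourier r x : ℂ) * ∑ j ∈ (Finset.range k).filter (fun j => x + hh k 1 j ∈ A),
      (fourier r (hh k 1 j : UnitAddCircle) : ℂ) := by
  unfold CF
  rw [Finset.mul_sum, Finset.sum_filter]
  refine Finset.sum_congr rfl fun j _ => ?_
  by_cases h : x + hh k 1 j ∈ A
  · rw [indicator_of_mem h, if_pos h, fourier_apply, fourier_apply, fourier_apply, smul_add,
      AddCircle.toCircle_add]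
    rfl
  · rw [indicator_of_notMem h, if_neg h]

lemma fourier_hh_mul {k : ℕ} (hk : 1 ≤ k) (r m : ℤ) (x : UnitAddCircle) (j : ℕ) :
    (fourier (r + k * m) (x + hh k 1 j) : ℂ) = fourier (k * m) x * fourier r (x + hh k 1 j) := by
  rw [fourier_add, mul_comm]
  congr 1
  rw [fourier_apply, fourier_apply, smul_add]
  have e : ((k : ℤ) * m) • (hh k 1 j : UnitAddCircle) = 0 := by
    rw [mul_comm, mul_smul, natCast_zsmul, smul_hh_one hk, smul_zero]
  rw [e, add_zero]

lemma fc_slice {k : ℕ} (hk : 1 ≤ k) {μ : Measure UnitAddCircle} [IsProbabilityMeasure μ] {c : ℝ≥0∞}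
    {A : Set UnitAddCircle} (hA : MeasurableSet A) (hμ : μ = c • (mu1 k μ).restrict A) (r m : ℤ) :
    fc μ (r + k * m) = (c.toReal : ℂ) * ∫ x, (fourier (k * m) x : ℂ) * CF k r A x ∂μ := by
  have hint : ∀ (n : ℤ) (ν : Measure UnitAddCircle) [IsFiniteMeasure ν],
      Integrable (A.indicator (fun y => (fourier n y : ℂ))) ν := by
    intro n ν _
    exact (integrable_cm _ _).indicator hA
  have h1 : fc μ (r + k * m) = (c.toReal : ℂ) *
      ∫ x, A.indicator (fun y => (fourier (r + k * m) y : ℂ)) x ∂(mu1 k μ) := by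
    rw [integral_indicator hA]
    unfold fc
    conv_lhs => rw [hμ]
    rw [integral_smul_measure]
    exact Complex.real_smul
  rw [h1]
  congr 1
  unfold mu1
  rw [integral_finsetSum_measure fun j _ => ?_]
  · have h2 : ∀ j ∈ Finset.range k,
        ∫ x, A.indicator (fun y => (fourier (r + k * m) y : ℂ)) x ∂(μ.map fun x => x + hh k 1 j) =
        ∫ x, (fourier (k * m) x : ℂ) * A.indicator (fun y => (fourier r y : ℂ)) (x + hh k 1 j) ∂μ := by
      intro j _
      rw [integral_map (measurable_add_const _).aemeasurable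
        (((map_continuous (fourier (r + k * m) : C(UnitAddCircle, ℂ))).measurable.indicator hA).aestronglyMeasurable)]
      refine integral_congr_ae (Eventually.of_forall fun x => ?_)
      show A.indicator (fun y => (fourier (r + k * m) y : ℂ)) (x + hh k 1 j) =
        (fourier (k * m) x : ℂ) * A.indicator (fun y => (fourier r y : ℂ)) (x + hh k 1 j)
      by_cases h : x + hh k 1 j ∈ A
      · rw [indicator_of_mem h, indicator_of_mem h, fourier_hh_mul hk]
      · rw [indicator_of_notMem h, indicator_of_notMem h, mul_zero]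
    rw [Finset.sum_congr rfl h2, ← integral_finsetSum]
    · refine integral_congr_ae (Eventually.of_forall fun x => ?_)
      show _ = (fourier (k * m) x : ℂ) * CF k r A x
      unfold CF
      rw [Finset.mul_sum]
    · intro j _
      have h3 : Integrable (fun x => A.indicator (fun y => (fourier r y : ℂ)) (x + hh k 1 j)) μ := by
        have hm : Measurable fun x => A.indicator (fun y => (fourier r y : ℂ)) (x + hh k 1 j) :=
          ((map_continuous (fourier r : C(UnitAddCircle, ℂ))).measurable.indicator hA).comp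
            (measurable_add_const _)
        refine Integrable.of_bound hm.aestronglyMeasurable 1 (Eventually.of_forall fun x => ?_)
        rw [norm_indicator_eq_indicator_norm]
        exact indicator_apply_le' (fun _ => (norm_fourier_one r _).le) fun _ => zero_le_one
      exact h3.bdd_mul (c := 1) (map_continuous _).aestronglyMeasurable
        (Eventually.of_forall fun x => (norm_fourier_one _ x).le)
  · have := Measure.isProbabilityMeasure_map (μ := μ) (measurable_add_const (hh k 1 j)).aemeasurable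
    exact hint _ _

/-- **Galois symmetry.** If the Fourier coefficients of a jointly ergodic measure vanish on the
residue class `r mod k`, with `k` prime to `p q`, they vanish on the residue classes `s mod k` with
`gcd (s, k) = gcd (r, k)`. -/
theorem fc_galois {p q k : ℕ} (hk : 1 ≤ k) (hkp : Nat.Coprime k p) (hkq : Nat.Coprime k q)
    {μ : Measure UnitAddCircle} [IsProbabilityMeasure μ]
    (hip : MeasurePreserving (fun x : UnitAddCircle => p • x) μ μ)
    (hiq : MeasurePreserving (fun x : UnitAddCircle => q • x) μ μ) (he : JointlyErgodic p q μ)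
    {r s : ℤ} (hrs : Int.gcd r k = Int.gcd s k) (hr : ∀ m : ℤ, fc μ (r + k * m) = 0) (m : ℤ) :
    fc μ (s + k * m) = 0 := by
  classical
  obtain ⟨c, A, hA, hc0, hct, hμ⟩ := exists_slice hk hkp hkq hip hiq he
  have hcr : (c.toReal : ℂ) ≠ 0 := by
    exact_mod_cast (ENNReal.toReal_pos hc0 hct).ne'
  have h1 : ∀ m : ℤ, ∫ x, (fourier (k * m) x : ℂ) * CF k r A x ∂μ = 0 := by
    intro m
    have h2 := fc_slice hk hA hμ r m
    rw [hr m] at h2
    exact (mul_eq_zero.1 h2.symm).resolve_left hcr
  set ν := μ.map (fun x : UnitAddCircle => k • x) with hν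
  have hνp : IsProbabilityMeasure ν := Measure.isProbabilityMeasure_map (meas_nsmul k).aemeasurable
  set G : UnitAddCircle → ℂ := fun y => (starRingEnd ℂ) (CF k r A (sec (k : ℤ) y)) with hG
  have hGm : Measurable G :=
    Complex.continuous_conj.measurable.comp ((measurable_CF k r hA).comp (meas_sec k))
  have hG2 : MemLp G 2 ν := by
    refine (memLp_top_of_bound hGm.aestronglyMeasurable (k : ℝ)
      (Eventually.of_forall fun x => ?_)).mono_exponent le_top
    rw [hG]
    simp only [RCLike.norm_conj]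
    exact norm_CF k r A _
  have hG0 := null_of_orth hG2 (fun m => by
    have hmm : AEStronglyMeasurable (fun x : UnitAddCircle => (fourier m x : ℂ) * (starRingEnd ℂ) (G x)) ν :=
      ((map_continuous (fourier m : C(UnitAddCircle, ℂ))).measurable.mul
        (Complex.continuous_conj.measurable.comp hGm)).aestronglyMeasurable
    rw [hν, integral_map (meas_nsmul k).aemeasurable hmm]
    rw [← h1 m]
    refine integral_congr_ae (Eventually.of_forall fun x => ?_)
    show (fourier m (k • x) : ℂ) * (starRingEnd ℂ) (G (k • x)) = _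
    have e1 : (fourier m (k • x) : ℂ) = fourier (k * m) x := by
      rw [fourier_apply, fourier_apply, mul_comm, mul_smul, natCast_zsmul]
    rw [e1, hG]
    simp only [Complex.conj_conj]
    rw [CF_sec hk])
  have hG1 : ∀ᵐ x ∂μ, CF k r A x = 0 := by
    have h2 : ∀ᵐ x ∂μ, G (k • x) = 0 := ae_of_ae_map (meas_nsmul k).aemeasurable hG0
    filter_upwards [h2] with x hx
    rw [hG] at hx
    simp only [map_eq_zero] at hx
    rwa [CF_sec hk] at hx
  have hG3 : ∀ᵐ x ∂μ, CF k s A x = 0 := by
    filter_upwards [hG1] with x hx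
    rw [CF_eq] at hx ⊢
    have h3 := (mul_eq_zero.1 hx).resolve_left (by
      intro h0
      have := norm_fourier_one r x
      rw [h0, norm_zero] at this
      exact zero_ne_one this)
    rw [galois hk hrs _ h3, mul_zero]
  rw [fc_slice hk hA hμ s m]
  have h4 : ∫ x, (fourier (k * m) x : ℂ) * CF k s A x ∂μ = 0 := by
    rw [integral_congr_ae (g := fun _ => (0 : ℂ)) (by
      filter_upwards [hG3] with x hx
      rw [hx, mul_zero])]
    simp
  rw [h4, mul_zero]

end Pool.Agent.V11299.FG
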