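import Pool.Agent.V11299.FG.Erg
import Pool.Agent.W764.SH.Inv

/-!
Ergodic lifts of jointly ergodic measures under multiplications by integers prime to `p q`.
-/

set_option autoImplicit false

open MeasureTheory Filter Topology Set
open scoped ENNReal

namespace Pool.Agent.V11299.FG

open Pool.Agent.W764.FB Pool.Agent.W764.SH Pool.Agent.H847R3.XpXq


/-- the sum of `g` over the fibre of `x` under multiplication by `k` -/
noncomputable def Fib (k : ℕ) (g : UnitAddCircle → ℝ≥0∞) (x : UnitAddCircle) : ℝ≥0∞ := fs k 1 g (sec k x)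

lemma smul_sec {k : ℕ} (hk : 1 ≤ k) (x : UnitAddCircle) : k • sec (k : ℤ) x = x := by
  unfold sec
  have hkR : (k : ℝ) ≠ 0 := by exact_mod_cast (by omega : k ≠ 0)
  rw [← AddCircle.coe_nsmul, nsmul_eq_mul]
  have h : (k : ℝ) * (((AddCircle.measurableEquivIoc 1 0 x : ℝ)) / ((k : ℤ) : ℝ)) =
      (AddCircle.measurableEquivIoc 1 0 x : ℝ) := by
    push_cast
    field_simp
  rw [h]
  exact (AddCircle.equivIoc (1 : ℝ) 0).symm_apply_apply x

lemma measurable_Fib (k : ℕ) {g : UnitAddCircle → ℝ≥0∞} (hg : Measurable g) : Measurable (Fib k g) :=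
  (measurable_fs k 1 hg).comp (meas_sec k)

lemma Fib_comp {k q : ℕ} (hk : 1 ≤ k) (hkq : Nat.Coprime k q) (g : UnitAddCircle → ℝ≥0∞) (x : UnitAddCircle) :
    Fib k (fun y => g (q • y)) x = Fib k g (q • x) := by
  unfold Fib
  have h1 : q • x = k • (q • sec (k : ℤ) x) := by
    rw [smul_comm, smul_sec hk]
  rw [fs_mul (by omega) hkq, h1, fs_one_sec (by omega)]

lemma smul_hh_one {k : ℕ} (hk : 1 ≤ k) (j : ℕ) : k • hh k 1 j = 0 := by
  unfold hh
  have hkR : (k : ℝ) ≠ 0 := by exact_mod_cast (by omega : k ≠ 0)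
  rw [← AddCircle.coe_nsmul, nsmul_eq_mul, pow_one, mul_div_cancel₀ _ hkR,
    AddCircle.coe_eq_zero_iff]
  exact ⟨j, by simp⟩

lemma Fib_mul {k : ℕ} (hk : 1 ≤ k) (g h : UnitAddCircle → ℝ≥0∞) (x : UnitAddCircle) :
    Fib k (fun y => g (k • y) * h y) x = g x * Fib k h x := by
  unfold Fib fs
  rw [Finset.mul_sum]
  refine Finset.sum_congr rfl fun j _ => ?_
  show g (k • (sec (k : ℤ) x + hh k 1 j)) * h (sec (k : ℤ) x + hh k 1 j) = _
  rw [smul_add, smul_sec hk, smul_hh_one hk, add_zero]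

/-- the number of points of `A` over `x` -/
lemma Fib_ind (k : ℕ) (A : Set UnitAddCircle) (x : UnitAddCircle) : ∃ j : ℕ, j ≤ k ∧ Fib k (A.indicator 1) x = j := by
  classical
  unfold Fib fs
  rw [pow_one]
  refine ⟨((Finset.range k).filter fun j => sec (k : ℤ) x + hh k 1 j ∈ A).card, ?_, ?_⟩
  · refine (Finset.card_filter_le _ _).trans ?_
    rw [Finset.card_range]
  · rw [Finset.card_filter]
    push_cast
    refine Finset.sum_congr rfl fun j _ => ?_
    by_cases h : sec (k : ℤ) x + hh k 1 j ∈ A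
    · rw [indicator_of_mem h, if_pos h]; rfl
    · rw [indicator_of_notMem h, if_neg h]

lemma Fib_mono {k : ℕ} {g h : UnitAddCircle → ℝ≥0∞} (hgh : ∀ x, g x ≤ h x) (x : UnitAddCircle) : Fib k g x ≤ Fib k h x := by
  unfold Fib fs
  exact Finset.sum_le_sum fun j _ => hgh _

lemma ind_inv {s : ℕ} {A : Set UnitAddCircle} (h : (fun x : UnitAddCircle => s • x) ⁻¹' A = A) (y : UnitAddCircle) :
    A.indicator (1 : UnitAddCircle → ℝ≥0∞) (s • y) = A.indicator 1 y := by
  have h1 : s • y ∈ A ↔ y ∈ A := by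
    rw [← mem_preimage (f := fun x : UnitAddCircle => s • x), h]
  by_cases hy : y ∈ A
  · rw [indicator_of_mem hy, indicator_of_mem (h1.2 hy)]; rfl
  · rw [indicator_of_notMem hy, indicator_of_notMem (fun h2 => hy (h1.1 h2))]

lemma exists_count {p q k : ℕ} (hk : 1 ≤ k) (hkp : Nat.Coprime k p) (hkq : Nat.Coprime k q)
    {μ : Measure UnitAddCircle} [IsProbabilityMeasure μ] (he : JointlyErgodic p q μ) {A : Set UnitAddCircle}
    (hA : MeasurableSet A) (hAp : (fun x : UnitAddCircle => p • x) ⁻¹' A = A)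
    (hAq : (fun x : UnitAddCircle => q • x) ⁻¹' A = A) :
    ∃ j : ℕ, ∀ᵐ x ∂μ, Fib k (A.indicator 1) x = j := by
  by_contra hcon
  rw [not_exists] at hcon
  have hm : Measurable (Fib k (A.indicator 1)) :=
    measurable_Fib k (measurable_one.indicator hA)
  have hinv : ∀ {s : ℕ}, Nat.Coprime k s → (fun x : UnitAddCircle => s • x) ⁻¹' A = A → ∀ x,
      Fib k (A.indicator 1) (s • x) = Fib k (A.indicator 1) x := by
    intro s hs hsA x
    rw [← Fib_comp hk hs]
    congr 1
    funext y
    exact ind_inv hsA y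
  have h0 : ∀ j : ℕ, μ {x | Fib k (A.indicator 1) x = j} = 0 := by
    intro j
    have hmj : MeasurableSet {x | Fib k (A.indicator 1) x = (j : ℝ≥0∞)} :=
      hm (measurableSet_singleton _)
    refine (he _ hmj ?_ ?_).resolve_right ?_
    · ext x
      show Fib k (A.indicator 1) (p • x) = j ↔ Fib k (A.indicator 1) x = j
      rw [hinv hkp hAp]
    · ext x
      show Fib k (A.indicator 1) (q • x) = j ↔ Fib k (A.indicator 1) x = j
      rw [hinv hkq hAq]
    · intro h1
      refine hcon j ?_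
      rw [← prob_compl_eq_zero_iff hmj] at h1
      rw [ae_iff]
      refine measure_mono_null (fun x hx => ?_) h1
      exact hx
  have h1 : μ (⋃ j : ℕ, {x | Fib k (A.indicator 1) x = (j : ℝ≥0∞)}) = 0 :=
    measure_iUnion_null_iff.2 h0
  have h2 : (⋃ j : ℕ, {x | Fib k (A.indicator 1) x = (j : ℝ≥0∞)}) = univ := by
    rw [eq_univ_iff_forall]
    intro x
    obtain ⟨j, _, hj⟩ := Fib_ind k A x
    exact mem_iUnion.2 ⟨j, hj⟩
  rw [h2, measure_univ] at h1
  exact one_ne_zero h1

/-- **Ergodic lifts.** -/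
theorem Exceptional.lift {p q k : ℕ} (hk : 1 ≤ k) (hkp : Nat.Coprime k p)
    (hkq : Nat.Coprime k q) {μ : Measure UnitAddCircle} (h : Exceptional p q μ) :
    ∃ ν : Measure UnitAddCircle, Exceptional p q ν ∧ ν.map (fun x : UnitAddCircle => k • x) = μ := by
  classical
  have hprob := h.prob
  -- a strictly invariant set with a minimal number of points over almost all points
  have hex : ∃ j : ℕ, 1 ≤ j ∧ ∃ A : Set UnitAddCircle, MeasurableSet A ∧ (fun x : UnitAddCircle => p • x) ⁻¹' A = A ∧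
      (fun x : UnitAddCircle => q • x) ⁻¹' A = A ∧ ∀ᵐ x ∂μ, Fib k (A.indicator 1) x = j := by
    refine ⟨k, hk, univ, MeasurableSet.univ, rfl, rfl, Eventually.of_forall fun x => ?_⟩
    unfold Fib fs
    simp
  set j₀ := Nat.find hex with hj₀
  obtain ⟨hj1, A, hA, hAp, hAq, hAj⟩ := Nat.find_spec hex
  have hmin : ∀ j : ℕ, 1 ≤ j → ∀ B : Set UnitAddCircle, MeasurableSet B → (fun x : UnitAddCircle => p • x) ⁻¹' B = B →
      (fun x : UnitAddCircle => q • x) ⁻¹' B = B → (∀ᵐ x ∂μ, Fib k (B.indicator 1) x = j) → j₀ ≤ j := by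
    intro j hj B hB hBp hBq hBj
    exact Nat.find_min' hex ⟨hj, B, hB, hBp, hBq, hBj⟩
  have hj0 : (j₀ : ℝ≥0∞) ≠ 0 := by
    have : j₀ ≠ 0 := by omega
    exact_mod_cast this
  have hjt : (j₀ : ℝ≥0∞) ≠ ⊤ := ENNReal.natCast_ne_top _
  set ν : Measure UnitAddCircle := (j₀ : ℝ≥0∞)⁻¹ • (mu1 k (μ.map (sec (k : ℤ)))).restrict A with hν
  have hint : ∀ g : UnitAddCircle → ℝ≥0∞, Measurable g →
      ∫⁻ y, g y ∂ν = (j₀ : ℝ≥0∞)⁻¹ * ∫⁻ x, Fib k (fun y => g y * A.indicator 1 y) x ∂μ := by
    intro g hg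
    rw [hν, lintegral_smul_measure, smul_eq_mul, ← lintegral_indicator hA]
    have hm : Measurable (A.indicator g) := hg.indicator hA
    rw [lintegral_mu1 k _ hm, lintegral_map (measurable_fs k 1 hm) (meas_sec k)]
    congr 2
    funext x
    unfold Fib
    congr 1
    funext y
    by_cases hy : y ∈ A
    · rw [indicator_of_mem hy, indicator_of_mem hy, Pi.one_apply, mul_one]
    · rw [indicator_of_notMem hy, indicator_of_notMem hy, mul_zero]
  have hmap : ν.map (fun x : UnitAddCircle => k • x) = μ := by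
    refine Measure.ext_of_lintegral _ fun g hg => ?_
    rw [lintegral_map hg (meas_nsmul k), hint (fun y => g (k • y)) (hg.comp (meas_nsmul k))]
    have e : ∀ᵐ x ∂μ, Fib k (fun y => g (k • y) * A.indicator 1 y) x = g x * j₀ := by
      filter_upwards [hAj] with x hx
      rw [Fib_mul hk, hx]
    rw [lintegral_congr_ae e, lintegral_mul_const' _ _ hjt, mul_comm, mul_assoc,
      ENNReal.mul_inv_cancel hj0 hjt, mul_one]
  have hinv : ∀ {s : ℕ}, Nat.Coprime k s → (fun x : UnitAddCircle => s • x) ⁻¹' A = A →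
      MeasurePreserving (fun x : UnitAddCircle => s • x) μ μ →
      MeasurePreserving (fun x : UnitAddCircle => s • x) ν ν := by
    intro s hs hsA hsμ
    refine ⟨meas_nsmul s, ?_⟩
    refine Measure.ext_of_lintegral _ fun g hg => ?_
    rw [lintegral_map hg (meas_nsmul s), hint (fun y => g (s • y)) (hg.comp (meas_nsmul s)), hint _ hg]
    congr 1
    have hm : Measurable fun y => g y * A.indicator (1 : UnitAddCircle → ℝ≥0∞) y :=
      hg.mul (measurable_one.indicator hA)
    rw [← hsμ.lintegral_comp (measurable_Fib k hm)]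
    refine lintegral_congr fun x => ?_
    rw [← Fib_comp hk hs]
    congr 1
    funext y
    rw [ind_inv hsA y]
  have hνA : ∀ B : Set UnitAddCircle, MeasurableSet B →
      ν B = (j₀ : ℝ≥0∞)⁻¹ * ∫⁻ x, Fib k ((A ∩ B).indicator 1) x ∂μ := by
    intro B hB
    rw [← lintegral_indicator_one hB, hint _ (measurable_one.indicator hB)]
    congr 2
    funext x
    congr 1
    funext y
    by_cases hyA : y ∈ A
    · by_cases hyB : y ∈ B
      · rw [indicator_of_mem hyA, indicator_of_mem hyB,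
          indicator_of_mem (show y ∈ A ∩ B from ⟨hyA, hyB⟩)]
        simp
      · rw [indicator_of_notMem hyB,
          indicator_of_notMem (show y ∉ A ∩ B from fun h => hyB h.2), zero_mul]
    · rw [indicator_of_notMem hyA,
        indicator_of_notMem (show y ∉ A ∩ B from fun h => hyA h.1), mul_zero]
  refine ⟨ν, ⟨?_, hinv hkp hAp h.inv_p, hinv hkq hAq h.inv_q, ?_, ?_, ?_⟩, hmap⟩
  · refine ⟨?_⟩
    have h1 : (ν.map (fun x : UnitAddCircle => k • x)) univ = 1 := by rw [hmap, measure_univ]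
    rwa [Measure.map_apply (meas_nsmul k) MeasurableSet.univ, preimage_univ] at h1
  · intro y
    have h1 : (ν.map (fun x : UnitAddCircle => k • x)) {k • y} = 0 := by rw [hmap]; exact h.atomless _
    rw [Measure.map_apply (meas_nsmul k) (measurableSet_singleton _)] at h1
    refine measure_mono_null ?_ h1
    intro z hz
    rw [mem_singleton_iff.1 hz]
    rfl
  · intro B hB hBp hBq
    have hABm : MeasurableSet (A ∩ B) := hA.inter hB
    have hABp : (fun x : UnitAddCircle => p • x) ⁻¹' (A ∩ B) = A ∩ B := by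
      rw [preimage_inter, hAp, hBp]
    have hABq : (fun x : UnitAddCircle => q • x) ⁻¹' (A ∩ B) = A ∩ B := by
      rw [preimage_inter, hAq, hBq]
    obtain ⟨j, hj⟩ := exists_count hk hkp hkq h.ergodic hABm hABp hABq
    have hval : ν B = (j₀ : ℝ≥0∞)⁻¹ * j := by
      rw [hνA B hB, lintegral_congr_ae hj, lintegral_const, measure_univ, mul_one]
    rcases Nat.eq_zero_or_pos j with hj0' | hjpos
    · left
      rw [hval, hj0', Nat.cast_zero, mul_zero]
    · right
      have h1 := hmin j hjpos _ hABm hABp hABq hj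
      have h2 : j ≤ j₀ := by
        obtain ⟨x, hx1, hx2⟩ := (hj.and hAj).exists
        have h3 : Fib k ((A ∩ B).indicator 1) x ≤ Fib k (A.indicator 1) x := by
          refine Fib_mono (fun y => ?_) x
          exact indicator_le_indicator_of_subset inter_subset_left (fun _ => zero_le) y
        rw [hx1, hx2] at h3
        exact_mod_cast h3
      rw [hval, le_antisymm h2 h1, ENNReal.inv_mul_cancel hj0 hjt]
  · intro h1
    apply h.ne
    rw [← hmap, h1, (mp_vol' hk).map_eq]

end Pool.Agent.V11299.FG
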