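import Pool.Agent.V11299.FG.Supp

/-!
Fibre multiplicities of jointly ergodic measures.
-/

set_option autoImplicit false

open MeasureTheory Filter Topology Set
open scoped ENNReal

namespace Pool.Agent.V11299.FG

open Pool.Agent.Y139.GR Pool.Agent.W764.SH Pool.Agent.H847R3.XpXq
open Pool.Agent.W764.FB hiding fc

lemma fs_ind (k : ℕ) (A : Set UnitAddCircle) (x : UnitAddCircle) :
    ∃ j : ℕ, fs k 1 (A.indicator 1) x = j := by
  classical
  unfold fs
  rw [pow_one]
  refine ⟨((Finset.range k).filter fun j => x + hh k 1 j ∈ A).card, ?_⟩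
  rw [Finset.card_filter]
  push_cast
  refine Finset.sum_congr rfl fun j _ => ?_
  by_cases h : x + hh k 1 j ∈ A
  · rw [indicator_of_mem h, if_pos h]; rfl
  · rw [indicator_of_notMem h, if_neg h]

/-- almost all fibres contain the same number of points of the carrying set -/
lemma slice_count {k : ℕ} (hk : 1 ≤ k) {μ : Measure UnitAddCircle} [IsProbabilityMeasure μ]
    {c : ℝ≥0∞} {A : Set UnitAddCircle} (hA : MeasurableSet A) (hc0 : c ≠ 0) (hct : c ≠ ⊤)
    (hμ : μ = c • (mu1 k μ).restrict A) : ∀ᵐ x ∂μ, fs k 1 (A.indicator 1) x = c⁻¹ := by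
  classical
  set ν := μ.map (fun x : UnitAddCircle => k • x) with hν
  have hνp : IsProbabilityMeasure ν := Measure.isProbabilityMeasure_map (meas_nsmul k).aemeasurable
  have hFm : Measurable (Fib k (A.indicator 1)) := measurable_Fib k (measurable_one.indicator hA)
  have key : Fib k (A.indicator 1) =ᵐ[ν] fun _ => c⁻¹ := by
    refine ae_eq_of_forall_setLIntegral_eq_of_sigmaFinite hFm measurable_const fun D hD _ => ?_
    rw [setLIntegral_const, ← lintegral_indicator hD, hν,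
      lintegral_map (hFm.indicator hD) (meas_nsmul k), Measure.map_apply (meas_nsmul k) hD]
    have h1 : ∀ x, D.indicator (Fib k (A.indicator 1)) (k • x) =
        fs k 1 (((fun y : UnitAddCircle => k • y) ⁻¹' D ∩ A).indicator 1) x := by
      intro x
      have h2 : ∀ j, k • (x + hh k 1 j) = k • x := fun j => by
        rw [smul_add, smul_hh_one hk, add_zero]
      by_cases hx : k • x ∈ D
      · rw [indicator_of_mem hx]
        show fs k 1 (A.indicator 1) (sec (k : ℤ) (k • x)) = _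
        rw [fs_one_sec (by omega)]
        unfold fs
        refine Finset.sum_congr rfl fun j _ => ?_
        by_cases hj : x + hh k 1 j ∈ A
        · rw [indicator_of_mem hj, indicator_of_mem]
          exact ⟨by rw [mem_preimage, h2]; exact hx, hj⟩
        · rw [indicator_of_notMem hj, indicator_of_notMem]
          exact fun h => hj h.2
      · rw [indicator_of_notMem hx]
        unfold fs
        refine (Finset.sum_eq_zero fun j _ => ?_).symm
        rw [indicator_of_notMem]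
        intro h
        apply hx
        have h3 := h.1
        rw [mem_preimage, h2] at h3
        exact h3
    have hm : MeasurableSet ((fun y : UnitAddCircle => k • y) ⁻¹' D ∩ A) := (meas_nsmul k hD).inter hA
    rw [lintegral_congr h1, ← lintegral_mu1 k μ (measurable_one.indicator hm),
      lintegral_indicator_one hm]
    have h3 : μ ((fun y : UnitAddCircle => k • y) ⁻¹' D) =
        c * mu1 k μ ((fun y : UnitAddCircle => k • y) ⁻¹' D ∩ A) := by
      conv_lhs => rw [hμ]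
      rw [Measure.smul_apply, Measure.restrict_apply (meas_nsmul k hD), smul_eq_mul]
    rw [h3, ← mul_assoc, ENNReal.inv_mul_cancel hc0 hct, one_mul]
  have h4 := ae_of_ae_map (meas_nsmul k).aemeasurable key
  filter_upwards [h4] with x hx
  have h5 : fs k 1 (A.indicator 1) (sec (k : ℤ) (k • x)) = c⁻¹ := hx
  rwa [fs_one_sec (by omega)] at h5

/-- a common carrying set for the powers of `k` -/
lemma exists_slices {p q k : ℕ} (hk : 1 ≤ k) (hkp : Nat.Coprime k p) (hkq : Nat.Coprime k q)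
    {μ : Measure UnitAddCircle} [IsProbabilityMeasure μ]
    (hip : MeasurePreserving (fun x : UnitAddCircle => p • x) μ μ)
    (hiq : MeasurePreserving (fun x : UnitAddCircle => q • x) μ μ) (he : JointlyErgodic p q μ) :
    ∃ (j : ℕ → ℕ) (A : Set UnitAddCircle), MeasurableSet A ∧ μ Aᶜ = 0 ∧
      ∀ n, 1 ≤ j n ∧ (j n : ℝ≥0∞) • μ = (mu1 (k ^ n) μ).restrict A ∧
        ∀ᵐ x ∂μ, fs (k ^ n) 1 (A.indicator 1) x = j n := by
  have hkn : ∀ n, 1 ≤ k ^ n := fun n => Nat.one_le_pow _ _ (by omega)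
  have h0 := fun n => exists_slice (hkn n) (Nat.Coprime.pow_left n hkp) (Nat.Coprime.pow_left n hkq)
    hip hiq he
  choose c A' hA' hc0 hct hμ using h0
  have hA'0 : ∀ n, μ (A' n)ᶜ = 0 := by
    intro n
    conv_lhs => rw [hμ n]
    rw [Measure.smul_apply, Measure.restrict_apply (hA' n).compl, compl_inter_self, measure_empty,
      smul_zero]
  set A : Set UnitAddCircle := ⋂ n, A' n with hAdef
  have hA : MeasurableSet A := MeasurableSet.iInter hA'
  have hA0 : μ Aᶜ = 0 := by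
    rw [hAdef, compl_iInter]
    exact measure_iUnion_null hA'0
  have hres : ∀ n, (mu1 (k ^ n) μ).restrict (A' n) = (mu1 (k ^ n) μ).restrict A := by
    intro n
    refine Measure.restrict_congr_set ?_
    have h1 : mu1 (k ^ n) μ (A' n \ A) = 0 := by
      have h2 : μ (A' n \ A) = 0 := measure_mono_null (fun x hx => hx.2) hA0
      rw [hμ n, Measure.smul_apply, Measure.restrict_apply ((hA' n).diff hA), smul_eq_mul,
        inter_eq_left.2 sdiff_subset, mul_eq_zero] at h2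
      exact h2.resolve_left (hc0 n)
    have h2 : A ⊆ A' n := iInter_subset _ _
    exact (ae_eq_set.2 ⟨h1, by rw [sdiff_eq_empty.2 h2, measure_empty]⟩)
  have hμ' : ∀ n, μ = c n • (mu1 (k ^ n) μ).restrict A := fun n => by
    rw [← hres n]
    exact hμ n
  have hcount := fun n => slice_count (hkn n) hA (hc0 n) (hct n) (hμ' n)
  have hj : ∀ n, ∃ j : ℕ, (c n)⁻¹ = j := by
    intro n
    obtain ⟨x, hx⟩ := (hcount n).exists
    obtain ⟨j, hj⟩ := fs_ind (k ^ n) A x
    exact ⟨j, hx ▸ hj⟩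
  choose j hj using hj
  refine ⟨j, A, hA, hA0, fun n => ⟨?_, ?_, ?_⟩⟩
  · have h1 : (c n)⁻¹ ≠ 0 := ENNReal.inv_ne_zero.2 (hct n)
    rw [hj n] at h1
    have : j n ≠ 0 := by exact_mod_cast h1
    omega
  · rw [← hj n]
    conv_lhs => rw [hμ' n]
    rw [smul_smul, ENNReal.inv_mul_cancel (hc0 n) (hct n), one_smul]
  · filter_upwards [hcount n] with x hx
    rw [hx, hj n]

lemma norm_sq_expand {F : Finset ℕ} (m : ℤ) (x : UnitAddCircle) :
    ((‖∑ s ∈ F, (fourier (m * s) x : ℂ)‖ ^ 2 : ℝ) : ℂ) =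
      ∑ s ∈ F, ∑ t ∈ F, (fourier (m * s - m * t) x : ℂ) := by
  have h1 : ∀ w : ℂ, ((‖w‖ ^ 2 : ℝ) : ℂ) = w * (starRingEnd ℂ) w := by
    intro w
    rw [Complex.mul_conj, Complex.normSq_eq_norm_sq]
  rw [h1, map_sum, Finset.sum_mul_sum]
  refine Finset.sum_congr rfl fun s _ => Finset.sum_congr rfl fun t _ => ?_
  rw [← fourier_neg, sub_eq_add_neg, fourier_add]

/-- mean squares over a fibre -/
lemma fibre_sq {k : ℕ} (hk : 1 ≤ k) {F : Finset ℕ} {m : ℤ}
    (hd : ∀ s ∈ F, ∀ t ∈ F, s ≠ t → ¬ (k : ℤ) ∣ (m * s - m * t)) (x : UnitAddCircle) :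
    ∑ i ∈ Finset.range (k ^ 1), ‖∑ s ∈ F, (fourier (m * s) (x + hh k 1 i) : ℂ)‖ ^ 2 =
      (k : ℝ) * F.card := by
  have h1 : ((∑ i ∈ Finset.range (k ^ 1), ‖∑ s ∈ F, (fourier (m * s) (x + hh k 1 i) : ℂ)‖ ^ 2 : ℝ) : ℂ)
      = (((k : ℝ) * F.card : ℝ) : ℂ) := by
    rw [Complex.ofReal_sum]
    rw [Finset.sum_congr rfl fun i _ => norm_sq_expand (F := F) m (x + hh k 1 i), Finset.sum_comm]
    have h2 : ∀ s ∈ F, ∑ i ∈ Finset.range (k ^ 1), ∑ t ∈ F,
        (fourier (m * s - m * t) (x + hh k 1 i) : ℂ) = k := by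
      intro s hs
      rw [Finset.sum_comm, Finset.sum_eq_single s]
      · simp
      · intro t ht hts
        refine Pool.Agent.W764.FB.fourier_sum_zero (by omega) 1 ?_ x
        rw [pow_one]
        exact hd s hs t ht (Ne.symm hts)
      · intro h
        exact absurd hs h
    rw [Finset.sum_congr rfl h2, Finset.sum_const, nsmul_eq_mul]
    push_cast
    ring
  exact_mod_cast h1

/-- the bound for the multiplicities -/
theorem mult_bound {k : ℕ} (hk : 1 ≤ k) {μ : Measure UnitAddCircle} [IsProbabilityMeasure μ]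
    {A : Set UnitAddCircle} {j : ℕ}
    (hj : (j : ℝ≥0∞) • μ = (mu1 k μ).restrict A) {F : Finset ℕ}
    (hF : ∀ s ∈ F, MeasurePreserving (fun x : UnitAddCircle => s • x) μ μ) {m : ℤ}
    (hd : ∀ s ∈ F, ∀ t ∈ F, s ≠ t → ¬ (k : ℤ) ∣ (m * s - m * t)) :
    (F.card : ℝ) * j * ‖fc μ m‖ ^ 2 ≤ k := by
  rcases F.eq_empty_or_nonempty with rfl | hne
  · simp
  have hFpos : (0 : ℝ) < F.card := by exact_mod_cast hne.card_pos
  set g : UnitAddCircle → ℂ := fun x => ∑ s ∈ F, (fourier (m * s) x : ℂ) with hg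
  have hgc : Continuous g := continuous_finsetSum _ fun s _ => map_continuous _
  have h1 : ∫ x, g x ∂μ = F.card * fc μ m := by
    rw [hg, integral_finsetSum _ fun s _ => integrable_cm _ _]
    have h2 : ∀ s ∈ F, ∫ x, (fourier (m * s) x : ℂ) ∂μ = fc μ m := by
      intro s hs
      have h3 := fc_map μ s m
      rw [(hF s hs).map_eq, mul_comm] at h3
      exact h3.symm
    rw [Finset.sum_congr rfl h2, Finset.sum_const, nsmul_eq_mul]
  have hgi : Integrable (fun x => ‖g x‖) μ := Pool.Agent.H847R3.XpXq.integrable_of_cont hgc.norm μ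
  have hgi2 : Integrable (fun x => ‖g x‖ ^ 2) μ :=
    Pool.Agent.H847R3.XpXq.integrable_of_cont (hgc.norm.pow 2) μ
  have h2 : ‖∫ x, g x ∂μ‖ ^ 2 ≤ ∫ x, ‖g x‖ ^ 2 ∂μ := by
    set I := ∫ x, ‖g x‖ ∂μ with hI
    have h3 : ‖∫ x, g x ∂μ‖ ≤ I := norm_integral_le_integral_norm _
    have h4 : 0 ≤ ∫ x, (‖g x‖ - I) ^ 2 ∂μ := integral_nonneg fun x => sq_nonneg _
    have h5 : ∫ x, (‖g x‖ - I) ^ 2 ∂μ = ∫ x, ‖g x‖ ^ 2 ∂μ - I ^ 2 := by
      have e : ∀ x, (‖g x‖ - I) ^ 2 = (‖g x‖ ^ 2 - 2 * I * ‖g x‖) + I ^ 2 := fun x => by ring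
      simp_rw [e]
      have i3 : Integrable (fun x => ‖g x‖ ^ 2 - 2 * I * ‖g x‖) μ := hgi2.sub (hgi.const_mul _)
      rw [integral_add i3 (integrable_const _),
        integral_sub hgi2 (hgi.const_mul _), integral_const_mul, integral_const, ← hI]
      simp
      ring
    have h6 : ‖∫ x, g x ∂μ‖ ^ 2 ≤ I ^ 2 := pow_le_pow_left₀ (norm_nonneg _) h3 2
    linarith
  have h3 : (j : ℝ) * ∫ x, ‖g x‖ ^ 2 ∂μ ≤ k * F.card := by
    have hm : Measurable fun x => ENNReal.ofReal (‖g x‖ ^ 2) :=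
      ENNReal.measurable_ofReal.comp (hgc.norm.pow 2).measurable
    have h4 : (j : ℝ≥0∞) * ∫⁻ x, ENNReal.ofReal (‖g x‖ ^ 2) ∂μ ≤ ENNReal.ofReal (k * F.card) := by
      calc (j : ℝ≥0∞) * ∫⁻ x, ENNReal.ofReal (‖g x‖ ^ 2) ∂μ
          = ∫⁻ x, ENNReal.ofReal (‖g x‖ ^ 2) ∂((j : ℝ≥0∞) • μ) := by
            rw [lintegral_smul_measure, smul_eq_mul]
        _ = ∫⁻ x in A, ENNReal.ofReal (‖g x‖ ^ 2) ∂(mu1 k μ) := by rw [hj]
        _ ≤ ∫⁻ x, ENNReal.ofReal (‖g x‖ ^ 2) ∂(mu1 k μ) := setLIntegral_le_lintegral _ _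
        _ = ∫⁻ x, fs k 1 (fun x => ENNReal.ofReal (‖g x‖ ^ 2)) x ∂μ := lintegral_mu1 k μ hm
        _ = ∫⁻ _, ENNReal.ofReal (k * F.card) ∂μ := by
            refine lintegral_congr fun x => ?_
            unfold fs
            rw [← ENNReal.ofReal_sum_of_nonneg fun i _ => by positivity]
            rw [hg, fibre_sq hk hd x]
        _ = ENNReal.ofReal (k * F.card) := by rw [lintegral_const, measure_univ, mul_one]
    have h5 : ENNReal.ofReal ((j : ℝ) * ∫ x, ‖g x‖ ^ 2 ∂μ) ≤ ENNReal.ofReal (k * F.card) := by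
      rw [ENNReal.ofReal_mul (by positivity), ENNReal.ofReal_natCast,
        ofReal_integral_eq_lintegral_ofReal hgi2 (Eventually.of_forall fun x => by positivity)]
      exact h4
    exact (ENNReal.ofReal_le_ofReal_iff (by positivity)).1 h5
  rw [h1, norm_mul, Complex.norm_natCast, mul_pow] at h2
  have h4 : (F.card : ℝ) * ((F.card : ℝ) * j * ‖fc μ m‖ ^ 2) ≤ F.card * k := by
    calc (F.card : ℝ) * ((F.card : ℝ) * j * ‖fc μ m‖ ^ 2)
        = j * ((F.card : ℝ) ^ 2 * ‖fc μ m‖ ^ 2) := by ring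
      _ ≤ j * ∫ x, ‖g x‖ ^ 2 ∂μ := mul_le_mul_of_nonneg_left h2 (by positivity)
      _ ≤ k * F.card := h3
      _ = F.card * k := by ring
  exact le_of_mul_le_mul_left h4 hFpos

/-! ### Multiplicities along the powers of `k` -/

lemma hh_pow (k n i : ℕ) : (hh (k ^ n) 1 i : UnitAddCircle) = hh k n i := by
  unfold hh
  rw [pow_one, Nat.cast_pow]

lemma hh_scale {k : ℕ} (hk : 1 ≤ k) {n n' : ℕ} (h : n ≤ n') (i : ℕ) :
    (hh k n' (k ^ (n' - n) * i) : UnitAddCircle) = hh k n i := by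
  unfold hh
  have hkR : (k : ℝ) ≠ 0 := by exact_mod_cast (by omega : k ≠ 0)
  have e : (k : ℝ) ^ n' = k ^ (n' - n) * k ^ n := by rw [← pow_add]; congr 1; omega
  congr 1
  rw [e]
  push_cast
  field_simp

lemma exists_hh {k : ℕ} (hk : 1 ≤ k) {n : ℕ} {t : UnitAddCircle} (ht : (k ^ n) • t = 0) :
    ∃ i < k ^ n, t = hh k n i := by
  have hpos : 0 < k ^ n := Nat.pow_pos (by omega)
  obtain ⟨i, hi, h⟩ := (AddCircle.nsmul_eq_zero_iff hpos).1 ht
  refine ⟨i, hi, ?_⟩
  rw [← h]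
  unfold hh
  rw [mul_one, Nat.cast_pow]

section
variable {k : ℕ} {μ : Measure UnitAddCircle} [IsProbabilityMeasure μ] {A : Set UnitAddCircle}
  {j : ℕ → ℕ}

lemma j_eq (hA : MeasurableSet A) (hj : ∀ n, (j n : ℝ≥0∞) • μ = (mu1 (k ^ n) μ).restrict A)
    (n : ℕ) : (j n : ℝ≥0∞) = ∑ i ∈ Finset.range (k ^ n), μ {x | x + hh k n i ∈ A} := by
  have h1 : ((j n : ℝ≥0∞) • μ) univ = j n := by
    rw [Measure.smul_apply, measure_univ, smul_eq_mul, mul_one]
  rw [hj n, Measure.restrict_apply_univ] at h1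
  rw [← h1]
  unfold mu1
  rw [Measure.finsetSum_apply]
  refine Finset.sum_congr rfl fun i _ => ?_
  rw [Measure.map_apply (measurable_add_const _) hA, hh_pow]
  rfl

lemma j_mono_aux (hk : 1 ≤ k) (hA : MeasurableSet A)
    (hj : ∀ n, (j n : ℝ≥0∞) • μ = (mu1 (k ^ n) μ).restrict A) {n n' : ℕ} (h : n ≤ n')
    (E : Finset ℕ) (hE : E ⊆ Finset.range (k ^ n')) (hEk : ∀ i ∈ E, ¬ k ^ (n' - n) ∣ i) :
    (j n : ℝ≥0∞) + ∑ i ∈ E, μ {x | x + hh k n' i ∈ A} ≤ j n' := by
  classical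
  have hpos : 0 < k ^ (n' - n) := Nat.pow_pos (by omega)
  rw [j_eq hA hj n, j_eq hA hj n']
  have h1 : ∑ i ∈ Finset.range (k ^ n), μ {x | x + hh k n i ∈ A} =
      ∑ i ∈ (Finset.range (k ^ n)).image (fun i => k ^ (n' - n) * i),
        μ {x | x + hh k n' i ∈ A} := by
    rw [Finset.sum_image]
    · refine Finset.sum_congr rfl fun i _ => ?_
      rw [hh_scale hk h]
    · intro a _ b _ hab
      exact Nat.eq_of_mul_eq_mul_left hpos hab
  rw [h1, ← Finset.sum_union]
  · refine Finset.sum_le_sum_of_subset ?_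
    intro i hi
    rcases Finset.mem_union.1 hi with hi | hi
    · obtain ⟨a, ha, rfl⟩ := Finset.mem_image.1 hi
      rw [Finset.mem_range] at ha ⊢
      have e : k ^ n' = k ^ (n' - n) * k ^ n := by rw [← pow_add]; congr 1; omega
      rw [e]
      exact Nat.mul_lt_mul_of_pos_left ha hpos
    · exact hE hi
  · rw [Finset.disjoint_left]
    intro i hi hi2
    obtain ⟨a, _, rfl⟩ := Finset.mem_image.1 hi
    exact hEk _ hi2 (dvd_mul_right _ _)

/-- if the multiplicities are bounded, the translates by points of large order are singular -/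
lemma exists_stable (hk : 1 ≤ k) (hA : MeasurableSet A)
    (hj : ∀ n, (j n : ℝ≥0∞) • μ = (mu1 (k ^ n) μ).restrict A) {B : ℕ} (hB : ∀ n, j n ≤ B) :
    ∃ n₀ : ℕ, ∀ t : UnitAddCircle, (∃ n, (k ^ n) • t = 0) → (k ^ n₀) • t ≠ 0 →
      μ {x | x + t ∈ A} = 0 := by
  have hmono : ∀ n n', n ≤ n' → j n ≤ j n' := by
    intro n n' h
    have h1 := j_mono_aux hk hA hj h ∅ (Finset.empty_subset _) (by simp)
    rw [Finset.sum_empty, add_zero] at h1
    exact_mod_cast h1
  obtain ⟨n₀, hn₀⟩ : ∃ n₀, ∀ n, j n ≤ j n₀ := by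
    have hfin : (range j).Finite := (Set.finite_Iic B).subset (by rintro _ ⟨n, rfl⟩; exact hB n)
    obtain ⟨b, ⟨n₀, rfl⟩, hmax⟩ := hfin.exists_maximal (range_nonempty j)
    refine ⟨n₀, fun n => ?_⟩
    by_contra h
    push Not at h
    exact absurd (hmax ⟨n, rfl⟩ h.le) (not_le.2 h)
  refine ⟨n₀, fun t ⟨n, hn⟩ ht => ?_⟩
  have hn' : (k ^ (n + n₀)) • t = 0 := by
    rw [pow_add, mul_comm, mul_smul, hn, smul_zero]
  obtain ⟨i, hi, rfl⟩ := exists_hh hk hn'
  have hle : n₀ ≤ n + n₀ := by omega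
  have hid : ¬ k ^ (n + n₀ - n₀) ∣ i := by
    rintro ⟨a, rfl⟩
    apply ht
    rw [hh_scale hk hle]
    rw [← hh_pow, smul_hh_one (Nat.one_le_pow _ _ (by omega))]
  have h1 := j_mono_aux hk hA hj hle {i} (by
    rw [Finset.singleton_subset_iff, Finset.mem_range]; exact hi) (by
    intro a ha
    rw [Finset.mem_singleton.1 ha]
    exact hid)
  rw [Finset.sum_singleton] at h1
  have h2 : (j (n + n₀) : ℝ≥0∞) ≤ j n₀ := by exact_mod_cast hn₀ _
  have h3 : (j n₀ : ℝ≥0∞) + μ {x | x + hh k (n + n₀) i ∈ A} ≤ j n₀ + 0 := by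
    rw [add_zero]; exact h1.trans h2
  exact le_antisymm ((ENNReal.add_le_add_iff_left (ENNReal.natCast_ne_top _)).1 h3) zero_le

end

/-- the multiplicities are bounded -/
lemma j_bounded {p k : ℕ} (hp : 2 ≤ p) (hk : 2 ≤ k) (hkp : Nat.Coprime k p)
    {μ : Measure UnitAddCircle} [IsProbabilityMeasure μ]
    (hip : MeasurePreserving (fun x : UnitAddCircle => p • x) μ μ) (hne : μ ≠ volume)
    {A : Set UnitAddCircle} (hA : MeasurableSet A) {j : ℕ → ℕ}
    (hj : ∀ n, (j n : ℝ≥0∞) • μ = (mu1 (k ^ n) μ).restrict A) : ∃ B : ℕ, ∀ n, j n ≤ B := by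
  obtain ⟨m, hm0, hm⟩ := exists_supp hne
  obtain ⟨C, hC1, hC⟩ := ord_cop k p hk hp hkp
  have hmpos : 0 < m.natAbs := Int.natAbs_pos.2 hm0
  set D := C * m.natAbs with hD
  have hDpos : 0 < D := Nat.mul_pos (by omega) hmpos
  have hfc : 0 < ‖fc μ m‖ ^ 2 := by
    have := norm_pos_iff.2 hm
    positivity
  have hmono : ∀ n n', n ≤ n' → j n ≤ j n' := by
    intro n n' h
    have h1 := j_mono_aux (by omega) hA hj h ∅ (Finset.empty_subset _) (by simp)
    rw [Finset.sum_empty, add_zero] at h1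
    exact_mod_cast h1
  have hlarge : ∀ n, D ≤ k ^ n → (j n : ℝ) ≤ 2 * D / ‖fc μ m‖ ^ 2 := by
    intro n hn
    set N := k ^ n / D with hN
    have hN1 : 1 ≤ N := Nat.div_pos hn hDpos
    have hN2 : k ^ n ≤ 2 * (D * N) := by
      have h1 := Nat.div_add_mod (k ^ n) D
      have h2 := Nat.mod_lt (k ^ n) hDpos
      have h3 : D ≤ D * N := Nat.le_mul_of_pos_right _ hN1
      rw [← hN] at h1
      omega
    have hdist := distinct_cop (p := k) (q := p) hp hkp hC hm0 (n := n) (N := N) (by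
      calc C * N * m.natAbs = D * N := by rw [hD]; ring
        _ ≤ k ^ n := Nat.mul_div_le _ _) hC1
    set F : Finset ℕ := (Finset.range N).image fun i => p ^ i with hF
    have hinj : Function.Injective fun i : ℕ => p ^ i := Nat.pow_right_injective hp
    have hcard : F.card = N := by
      rw [hF, Finset.card_image_of_injective _ hinj, Finset.card_range]
    have h1 := mult_bound (k := k ^ n) (Nat.one_le_pow _ _ (by omega)) (j := j n) (hj n) (F := F)
      (m := m) (by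
        intro s hs
        obtain ⟨i, _, rfl⟩ := Finset.mem_image.1 hs
        exact Pool.Agent.H847R3.XpXq.mp_pow hip i) (by
        intro s hs t ht hst
        obtain ⟨a, ha, rfl⟩ := Finset.mem_image.1 hs
        obtain ⟨b, hb, rfl⟩ := Finset.mem_image.1 ht
        have := hdist a (Finset.mem_range.1 ha) b (Finset.mem_range.1 hb) (fun h => hst (by rw [h]))
        push_cast at this ⊢
        exact this)
    rw [hcard] at h1
    rw [le_div_iff₀ hfc]
    have hN0 : (0 : ℝ) < N := by exact_mod_cast hN1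
    have h2 : ((k ^ n : ℕ) : ℝ) ≤ 2 * (D * N) := by exact_mod_cast hN2
    have h3 : (N : ℝ) * (j n * ‖fc μ m‖ ^ 2) ≤ N * (2 * D) := by
      calc (N : ℝ) * (j n * ‖fc μ m‖ ^ 2) = N * j n * ‖fc μ m‖ ^ 2 := by ring
        _ ≤ ((k ^ n : ℕ) : ℝ) := h1
        _ ≤ 2 * (D * N) := h2
        _ = N * (2 * D) := by ring
    exact le_of_mul_le_mul_left h3 hN0
  obtain ⟨n₁, hn₁⟩ : ∃ n₁, D ≤ k ^ n₁ := by
    have h2 : Tendsto (fun n : ℕ => k ^ n) atTop atTop := tendsto_pow_atTop_atTop_of_one_lt (by omega)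
    exact (h2.eventually_ge_atTop D).exists
  refine ⟨⌈2 * D / ‖fc μ m‖ ^ 2⌉₊, fun n => ?_⟩
  have h1 : j n ≤ j (max n n₁) := hmono _ _ (le_max_left _ _)
  have h2 := hlarge (max n n₁) (hn₁.trans (Nat.pow_le_pow_right (by omega) (le_max_right _ _)))
  have h3 : (j (max n n₁) : ℝ) ≤ (⌈2 * D / ‖fc μ m‖ ^ 2⌉₊ : ℝ) := h2.trans (Nat.le_ceil _)
  exact h1.trans (by exact_mod_cast h3)

end Pool.Agent.V11299.FG
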