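import Pool.Agent.V11299.FG.Circ
import Pool.Agent.H847R3.XpXqF

/-!
The non-vanishing Fourier coefficients of an atomless singular measure on the circle are not bounded
away from zero.
-/

set_option autoImplicit false

open MeasureTheory Filter Topology Set

namespace Pool.Agent.V11299.FG

open Pool.Agent.Y139.GR


/-- a square integrable function orthogonal to all characters vanishes almost everywhere -/
lemma null_of_orth {ν : Measure UnitAddCircle} [IsFiniteMeasure ν] {G : UnitAddCircle → ℂ} (hG : MemLp G 2 ν)
    (h : ∀ m : ℤ, ∫ x, fourier m x * (starRingEnd ℂ) (G x) ∂ν = 0) : G =ᵐ[ν] 0 := by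
  set g : Lp ℂ 2 ν := hG.toLp with hg
  have hgG : (g : UnitAddCircle → ℂ) =ᵐ[ν] G := MemLp.coeFn_toLp _
  set L : C(UnitAddCircle, ℂ) →L[ℂ] ℂ := (innerSL ℂ g).comp (ContinuousMap.toLp 2 ν ℂ) with hL
  have hLm : ∀ f : C(UnitAddCircle, ℂ), L f = inner ℂ g (ContinuousMap.toLp 2 ν ℂ f) := fun f => rfl
  have hker : ∀ f : C(UnitAddCircle, ℂ), L f = 0 := by
    have h1 : (Submodule.span ℂ (range (fourier (T := (1 : ℝ))))).topologicalClosure ≤
        LinearMap.ker L.toLinearMap := by
      refine Submodule.topologicalClosure_minimal _ ?_ L.isClosed_ker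
      rw [Submodule.span_le]
      rintro _ ⟨m, rfl⟩
      show L (fourier m) = 0
      rw [hLm, L2.inner_def, ← h m]
      refine integral_congr_ae ?_
      filter_upwards [hgG, ContinuousMap.coeFn_toLp (p := 2) (𝕜 := ℂ) ν (fourier m : C(UnitAddCircle, ℂ))]
        with x h1 h2
      rw [h1, h2]
      simp only [RCLike.inner_apply]
    rw [span_fourier_closure_eq_top] at h1
    intro f
    exact h1 (Submodule.mem_top (x := f))
  have hd : DenseRange (ContinuousMap.toLp 2 ν ℂ : C(UnitAddCircle, ℂ) →L[ℂ] Lp ℂ 2 ν) :=
    ContinuousMap.toLp_denseRange ℂ ν ℂ (by norm_num)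
  have hg0 : g = 0 := by
    have h2 : ∀ y : Lp ℂ 2 ν, inner ℂ g y = (0 : ℂ) := by
      have hcl : IsClosed {y : Lp ℂ 2 ν | inner ℂ g y = (0 : ℂ)} :=
        isClosed_eq (continuous_const.inner continuous_id) continuous_const
      intro y
      have : y ∈ closure (range (ContinuousMap.toLp 2 ν ℂ : C(UnitAddCircle, ℂ) →L[ℂ] Lp ℂ 2 ν)) := hd y
      refine closure_minimal ?_ hcl this
      rintro _ ⟨f, rfl⟩
      exact hker f
    exact inner_self_eq_zero.1 (h2 g)
  filter_upwards [hgG, Lp.coeFn_zero ℂ 2 ν] with x h1 h2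
  rw [← h1, hg0, h2]

/-- **Theorem.** The nonzero Fourier coefficients of an atomless singular probability measure on
the circle come arbitrarily close to zero. -/
theorem circ_main {μ : Measure UnitAddCircle} [IsProbabilityMeasure μ] (hat : ∀ x, μ {x} = 0)
    (hs : μ ⟂ₘ (volume : Measure UnitAddCircle)) {δ : ℝ} (hδ : 0 < δ) :
    ∃ n : ℤ, fc μ n ≠ 0 ∧ ‖fc μ n‖ < δ := by
  by_contra hcon
  push Not at hcon
  have hv : ‖one' μ‖ = 1 := by
    have h1 : ‖one' μ‖ ^ 2 = 1 := by
      have h2 := inner_one_U μ 0
      rw [zpow_zero] at h2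
      have h3 : inner ℂ (one' μ) (one' μ) = fc μ 0 := h2
      have h4 : fc μ 0 = 1 := by
        unfold fc
        simp
      rw [← inner_self_eq_norm_sq (𝕜 := ℂ), h3, h4]
      simp
    nlinarith [norm_nonneg (one' μ)]
  obtain ⟨g, hg0, hg⟩ := abs_main (UU μ) (one' μ) hv hδ (fun n => by
    rw [inner_one_U]
    by_cases h : fc μ n = 0
    · exact Or.inl h
    · exact Or.inr (hcon n h))
  have hgint : Integrable (fun x => (starRingEnd ℂ) (g x)) μ :=
    (Complex.conjLIE.integrable_comp_iff (φ := fun x => g x)).2 ((Lp.memLp g).integrable (by norm_num))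
  rcases hg with hfin | ⟨n, hn, hk⟩
  · -- finitely many coefficients
    have hg2 : MemLp (fun x => g x) 2 μ := Lp.memLp g
    set b : ℤ → ℂ := fun m => ∫ x, fourier m x * (starRingEnd ℂ) (g x) ∂μ with hb
    have hbU : ∀ m, inner ℂ g (((UU μ) ^ m) (one' μ)) = b m := fun m => inner_U μ g m
    have hfin' : {m : ℤ | b m ≠ 0}.Finite := by
      simpa only [hbU] using hfin
    set F := hfin'.toFinset with hF
    have hbF : ∀ m, m ∉ F → b m = 0 := by
      intro m hm
      by_contra h
      exact hm (hfin'.mem_toFinset.2 h)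
    set P : C(UnitAddCircle, ℂ) := ∑ j ∈ F, (starRingEnd ℂ) (b j) • fourier j with hP
    have hPx : ∀ x, P x = ∑ j ∈ F, (starRingEnd ℂ) (b j) * fourier j x := by
      intro x
      rw [hP, ContinuousMap.coe_sum, Finset.sum_apply]
      rfl
    have hPc : ∀ m : ℤ, ∫ x : UnitAddCircle, fourier m x * (starRingEnd ℂ) (P x) = b m := by
      intro m
      have e : (fun x : UnitAddCircle => fourier m x * (starRingEnd ℂ) (P x)) =
          fun x => ∑ j ∈ F, b j * fourier (m - j) x := by
        funext x
        rw [hPx, map_sum, Finset.mul_sum]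
        refine Finset.sum_congr rfl fun j _ => ?_
        rw [map_mul, Complex.conj_conj, ← fourier_neg, sub_eq_add_neg, fourier_add]
        ring
      rw [e, integral_finsetSum _ fun j _ => (integrable_cm _ _).const_mul _]
      have e2 : ∀ j : ℤ, ∫ x : UnitAddCircle, b j * fourier (m - j) x = if j = m then b j else 0 := by
        intro j
        rw [integral_const_mul]
        split_ifs with hj
        · rw [hj, sub_self]
          simp
        · rw [Pool.Agent.H847R3.XpXq.integral_fourier_zero (sub_ne_zero.2 (Ne.symm hj)), mul_zero]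
      rw [Finset.sum_congr rfl fun j _ => e2 j, Finset.sum_ite_eq']
      split_ifs with hm
      · rfl
      · exact (hbF m hm).symm
    obtain ⟨S, hS, hS1, hS2⟩ := hs
    classical
    set G : UnitAddCircle → ℂ := fun x => if x ∈ S then - P x else g x with hG
    have hμG : G =ᵐ[μ] fun x => g x := by
      have : ∀ᵐ x ∂μ, x ∉ S := by
        rw [ae_iff]; simpa using hS1
      filter_upwards [this] with x hx
      rw [hG]; simp only [if_neg hx]
    have hvG : G =ᵐ[(volume : Measure UnitAddCircle)] fun x => - P x := by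
      have : ∀ᵐ x ∂(volume : Measure UnitAddCircle), x ∈ S := by
        rw [ae_iff]; exact hS2
      filter_upwards [this] with x hx
      rw [hG]; simp only [if_pos hx]
    have hPi : MemLp (fun x : UnitAddCircle => - P x) 2 (volume : Measure UnitAddCircle) := by
      refine MemLp.neg ?_
      exact (memLp_top_of_bound P.continuous.aestronglyMeasurable ‖P‖
        (Eventually.of_forall fun x => P.norm_coe_le_norm x)).mono_exponent le_top
    have hGm : MemLp G 2 μ := (memLp_congr_ae hμG).2 hg2
    have hGv : MemLp G 2 (volume : Measure UnitAddCircle) := (memLp_congr_ae hvG).2 hPi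
    have hGn : MemLp G 2 (μ + volume) := by
      have hae : AEStronglyMeasurable G (μ + volume) :=
        aestronglyMeasurable_add_measure_iff.2 ⟨hGm.1, hGv.1⟩
      rw [memLp_two_iff_integrable_sq_norm hae]
      exact ((memLp_two_iff_integrable_sq_norm hGm.1).1 hGm).add_measure
        ((memLp_two_iff_integrable_sq_norm hGv.1).1 hGv)
    have h0 := null_of_orth hGn (fun m => by
      have hi1 : Integrable (fun x => fourier m x * (starRingEnd ℂ) (G x)) μ := by
        have h1 : Integrable (fun x => (starRingEnd ℂ) (G x)) μ :=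
          (Complex.conjLIE.integrable_comp_iff (φ := G)).2 (hGm.integrable (by norm_num))
        exact h1.bdd_mul (c := 1) (map_continuous _).aestronglyMeasurable
          (Eventually.of_forall fun x => (norm_fourier_one m x).le)
      have hi2 : Integrable (fun x => fourier m x * (starRingEnd ℂ) (G x))
          (volume : Measure UnitAddCircle) := by
        have h1 : Integrable (fun x => (starRingEnd ℂ) (G x)) (volume : Measure UnitAddCircle) :=
          (Complex.conjLIE.integrable_comp_iff (φ := G)).2 (hGv.integrable (by norm_num))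
        exact h1.bdd_mul (c := 1) (map_continuous _).aestronglyMeasurable
          (Eventually.of_forall fun x => (norm_fourier_one m x).le)
      rw [integral_add_measure hi1 hi2]
      have e1 : ∫ x, fourier m x * (starRingEnd ℂ) (G x) ∂μ = b m := by
        rw [hb]
        refine integral_congr_ae ?_
        filter_upwards [hμG] with x hx
        rw [hx]
      have e2 : ∫ x : UnitAddCircle, fourier m x * (starRingEnd ℂ) (G x) = - b m := by
        rw [← hPc m, ← integral_neg]
        refine integral_congr_ae ?_
        filter_upwards [hvG] with x hx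
        rw [hx, map_neg, mul_neg]
      rw [e1, e2, add_neg_cancel])
    apply hg0
    have hb0 : inner ℂ g (one' μ) = b 0 := by
      have := hbU 0
      rwa [zpow_zero] at this
    rw [hb0, hb]
    have hGμ : G =ᵐ[μ] 0 := ae_mono (Measure.le_add_right le_rfl) h0
    have : ∀ᵐ x ∂μ, fourier 0 x * (starRingEnd ℂ) (g x) = 0 := by
      filter_upwards [hμG, hGμ] with x h1 h2
      rw [← h1, h2]
      simp
    show ∫ x, fourier 0 x * (starRingEnd ℂ) (g x) ∂μ = 0
    rw [integral_congr_ae this]
    simp
  · -- an arithmetic progression of large coefficients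
    have hw := wienerC hat hgint hn
    have h1 : ∀ᶠ N : ℕ in atTop, δ ^ 2 ≤ (1 / (N : ℝ)) * ∑ k ∈ Finset.range N,
        ‖∫ x, fourier ((k : ℤ) * n) x * (starRingEnd ℂ) (g x) ∂μ‖ ^ 2 := by
      filter_upwards [eventually_ge_atTop 1] with N hN
      have hN' : (0 : ℝ) < N := by exact_mod_cast hN
      rw [one_div, le_inv_mul_iff₀ hN']
      have : ∑ _k ∈ Finset.range N, δ ^ 2 ≤ ∑ k ∈ Finset.range N,
          ‖∫ x, fourier ((k : ℤ) * n) x * (starRingEnd ℂ) (g x) ∂μ‖ ^ 2 := by
        refine Finset.sum_le_sum fun k _ => ?_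
        have h2 := hk k
        rw [inner_U] at h2
        exact pow_le_pow_left₀ hδ.le h2 2
      simpa using this
    have h2 := ge_of_tendsto hw h1
    nlinarith [sq_pos_of_pos hδ]

end Pool.Agent.V11299.FG
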