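import Pool.Agent.V11299.FG.Mult

/-!
Rational translates of jointly ergodic measures.
-/

set_option autoImplicit false

open MeasureTheory Filter Topology Set
open scoped ENNReal

namespace Pool.Agent.V11299.FG

open Pool.Agent.Y139.GR Pool.Agent.W764.SH Pool.Agent.H847R3.XpXq
open Pool.Agent.W764.FB hiding fc

lemma sing_of_null {μ : Measure UnitAddCircle} {A : Set UnitAddCircle} (hA : MeasurableSet A)
    (hA0 : μ Aᶜ = 0) {t : UnitAddCircle} (h : μ {x | x + t ∈ A} = 0) :
    (μ.map fun x => x + t) ⟂ₘ μ := by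
  refine ⟨A, hA, ?_, hA0⟩
  rw [Measure.map_apply (measurable_add_const _) hA]
  exact h

/-- images under multiplication by `K` -/
lemma push_sing {K : ℕ} (hK : 1 ≤ K) {μ : Measure UnitAddCircle} {A : Set UnitAddCircle}
    (hA : MeasurableSet A) (hA0 : μ Aᶜ = 0) {s : UnitAddCircle}
    (h : ∀ i, μ {x | x + (s + hh K 1 i) ∈ A} = 0) :
    ((μ.map fun x => K • x).map fun x => x + K • s) ⟂ₘ (μ.map fun x => K • x) := by
  have hFm : Measurable (Fib K (A.indicator 1)) := measurable_Fib K (measurable_one.indicator hA)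
  set D : Set UnitAddCircle := {y | Fib K (A.indicator 1) y ≠ 0} with hD
  have hDm : MeasurableSet D := (measurableSet_eq_fun hFm measurable_const).compl
  have hmem : ∀ x, K • x ∈ D ↔ ∃ i < K, x + hh K 1 i ∈ A := by
    intro x
    show fs K 1 (A.indicator 1) (sec (K : ℤ) (K • x)) ≠ 0 ↔ _
    rw [fs_one_sec (by omega)]
    unfold fs
    rw [Ne, Finset.sum_eq_zero_iff]
    push Not
    constructor
    · rintro ⟨i, hi, h1⟩
      rw [Finset.mem_range, pow_one] at hi
      refine ⟨i, hi, ?_⟩
      by_contra h2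
      exact h1 (indicator_of_notMem h2 _)
    · rintro ⟨i, hi, h1⟩
      refine ⟨i, Finset.mem_range.2 (by rwa [pow_one]), ?_⟩
      rw [indicator_of_mem h1]
      exact one_ne_zero
  refine ⟨D, hDm, ?_, ?_⟩
  · rw [Measure.map_apply (measurable_add_const _) hDm,
      Measure.map_apply (meas_nsmul K) (measurable_add_const _ hDm)]
    have hsub : (fun x : UnitAddCircle => K • x) ⁻¹' ((fun x => x + K • s) ⁻¹' D) ⊆
        ⋃ i : ℕ, {x | x + (s + hh K 1 i) ∈ A} := by
      intro x hx
      have h1 : K • x + K • s ∈ D := hx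
      rw [← smul_add, hmem] at h1
      obtain ⟨i, _, hi⟩ := h1
      refine mem_iUnion.2 ⟨i, ?_⟩
      show x + (s + hh K 1 i) ∈ A
      rwa [← add_assoc]
    exact measure_mono_null hsub (measure_iUnion_null h)
  · rw [Measure.map_apply (meas_nsmul K) hDm.compl]
    refine measure_mono_null ?_ hA0
    intro x hx hxA
    apply hx
    rw [mem_preimage.symm, mem_preimage, hmem]
    exact ⟨0, by omega, by rw [hh_zero, add_zero]; exact hxA⟩

lemma CF_null {k : ℕ} (hk : 1 ≤ k) {μ : Measure UnitAddCircle} [IsProbabilityMeasure μ]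
    {c : ℝ≥0∞} {A : Set UnitAddCircle} (hA : MeasurableSet A) (hc0 : c ≠ 0) (hct : c ≠ ⊤)
    (hμ : μ = c • (mu1 k μ).restrict A) {r : ℤ} (hr : ∀ m : ℤ, fc μ (r + k * m) = 0) :
    ∀ᵐ x ∂μ, CF k r A x = 0 := by
  have hcr : (c.toReal : ℂ) ≠ 0 := by
    exact_mod_cast (ENNReal.toReal_pos hc0 hct).ne'
  have h1 : ∀ m : ℤ, ∫ x, (fourier (k * m) x : ℂ) * CF k r A x ∂μ = 0 := by
    intro m
    have h2 := fc_slice hk hA hμ r m
    rw [hr m] at h2
    exact (mul_eq_zero.1 h2.symm).resolve_left hcr
  set ν := μ.map (fun x : UnitAddCircle => k • x) with hν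
  have hνp : IsProbabilityMeasure ν := Measure.isProbabilityMeasure_map (meas_nsmul k).aemeasurable
  set G : UnitAddCircle → ℂ := fun y => (starRingEnd ℂ) (CF k r A (sec (k : ℤ) y)) with hG
  have hGm : Measurable G :=
    Complex.continuous_conj.measurable.comp ((measurable_CF k r hA).comp (meas_sec k))
  have hG2 : MemLp G 2 ν := by
    refine (memLp_top_of_bound hGm.aestronglyMeasurable (k : ℝ)
      (Eventually.of_forall fun x => ?_)).mono_exponent le_top
    rw [hG]
    simp only [RCLike.norm_conj]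
    exact norm_CF k r A _
  have hG0 := null_of_orth hG2 (fun m => by
    have hmm : AEStronglyMeasurable (fun x : UnitAddCircle => (fourier m x : ℂ) * (starRingEnd ℂ) (G x)) ν :=
      ((map_continuous (fourier m : C(UnitAddCircle, ℂ))).measurable.mul
        (Complex.continuous_conj.measurable.comp hGm)).aestronglyMeasurable
    rw [hν, integral_map (meas_nsmul k).aemeasurable hmm]
    rw [← h1 m]
    refine integral_congr_ae (Eventually.of_forall fun x => ?_)
    show (fourier m (k • x) : ℂ) * (starRingEnd ℂ) (G (k • x)) = _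
    have e1 : (fourier m (k • x) : ℂ) = fourier (k * m) x := by
      rw [fourier_apply, fourier_apply, mul_comm, mul_smul, natCast_zsmul]
    rw [e1, hG]
    simp only [Complex.conj_conj]
    rw [CF_sec hk])
  have h2 : ∀ᵐ x ∂μ, G (k • x) = 0 := ae_of_ae_map (meas_nsmul k).aemeasurable hG0
  filter_upwards [h2] with x hx
  rw [hG] at hx
  simp only [map_eq_zero] at hx
  rwa [CF_sec hk] at hx

/-- a measure singular to its translates has Fourier coefficients in all classes -/
lemma all_classes {p q K : ℕ} (hK : 1 ≤ K) (hKp : Nat.Coprime K p) (hKq : Nat.Coprime K q)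
    {μ : Measure UnitAddCircle} [IsProbabilityMeasure μ]
    (hip : MeasurePreserving (fun x : UnitAddCircle => p • x) μ μ)
    (hiq : MeasurePreserving (fun x : UnitAddCircle => q • x) μ μ) (he : JointlyErgodic p q μ)
    (hs : ∀ t : UnitAddCircle, K • t = 0 → t ≠ 0 → (μ.map fun x => x + t) ⟂ₘ μ) (r : ℤ) :
    ∃ m : ℤ, m ≡ r [ZMOD K] ∧ fc μ m ≠ 0 := by
  obtain ⟨c, A, hA, hc0, hct, hμ⟩ := exists_slice hK hKp hKq hip hiq he
  by_contra hcon
  push Not at hcon
  have h0 := CF_null hK hA hc0 hct hμ (r := r) (fun m => hcon _ (Int.modEq_iff_dvd.2 ⟨-m, by ring⟩))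
  have hA0 : μ Aᶜ = 0 := by
    conv_lhs => rw [hμ]
    rw [Measure.smul_apply, Measure.restrict_apply hA.compl, compl_inter_self, measure_empty,
      smul_zero]
  have hA1 : ∀ᵐ x ∂μ, x ∈ A := by rw [ae_iff]; exact hA0
  have hi : ∀ i, 1 ≤ i → i < K → ∀ᵐ x ∂μ, x + hh K 1 i ∉ A := by
    intro i h1 h2
    have hne : (hh K 1 i : UnitAddCircle) ≠ 0 := by
      intro h
      have h3 := norm_hh h1 h2
      rw [h, norm_zero] at h3
      have : (0 : ℝ) < 1 / K := by
        have : (0 : ℝ) < K := by exact_mod_cast hK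
        positivity
      linarith
    have h3 := hs _ (smul_hh_one hK i) hne
    set σ := (μ.map fun x => x + hh K 1 i).restrict A with hσ
    have hσμ : σ ≪ μ := by
      have h4 : σ ≤ (mu1 K μ).restrict A := by
        refine Measure.restrict_mono_measure ?_ A
        unfold mu1
        rw [Measure.le_iff]
        intro s hs
        rw [Measure.finsetSum_apply]
        exact Finset.single_le_sum (f := fun i => (μ.map fun x => x + hh K 1 i) s)
          (fun _ _ => zero_le) (Finset.mem_range.2 h2)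
      have h5 : (mu1 K μ).restrict A ≪ μ := by
        conv_rhs => rw [hμ]
        exact Measure.absolutelyContinuous_smul hc0
      exact h4.absolutelyContinuous.trans h5
    have hσs : σ ⟂ₘ μ := h3.mono_ac Measure.restrict_le_self.absolutelyContinuous
      Measure.AbsolutelyContinuous.rfl
    have hσ0 : σ = 0 := Measure.eq_zero_of_absolutelyContinuous_of_mutuallySingular hσμ hσs
    have h6 : σ univ = 0 := by rw [hσ0]; rfl
    rw [hσ, Measure.restrict_apply_univ, Measure.map_apply (measurable_add_const _) hA] at h6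
    rw [ae_iff]
    refine measure_mono_null ?_ h6
    intro x hx
    exact not_not.1 hx
  have hall : ∀ᵐ x ∂μ, ∀ i, 1 ≤ i → i < K → x + hh K 1 i ∉ A := by
    rw [ae_all_iff]
    intro i
    by_cases h1 : 1 ≤ i
    · by_cases h2 : i < K
      · filter_upwards [hi i h1 h2] with x hx _ _
        exact hx
      · exact Eventually.of_forall fun x _ h => absurd h h2
    · exact Eventually.of_forall fun x h => absurd h h1
  obtain ⟨x, hx0, hx1, hx2⟩ := (h0.and (hA1.and hall)).exists
  have h1 : CF K r A x = fourier r x := by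
    unfold CF
    rw [Finset.sum_eq_single 0]
    · rw [hh_zero, add_zero, indicator_of_mem hx1]
    · intro i hi hi0
      exact indicator_of_notMem (hx2 i (by omega) (Finset.mem_range.1 hi)) _
    · intro h
      exact absurd (Finset.mem_range.2 (by omega)) h
  rw [h1] at hx0
  have := norm_fourier_one r x
  rw [hx0, norm_zero] at this
  exact zero_ne_one this

/-- the translates by points of finite order prime to `p q` -/
theorem rational_translates {p q k : ℕ} (hp : 2 ≤ p) (hk : 2 ≤ k)
    (hkp : Nat.Coprime k p) (hkq : Nat.Coprime k q) {μ : Measure UnitAddCircle}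
    [IsProbabilityMeasure μ] (hip : MeasurePreserving (fun x : UnitAddCircle => p • x) μ μ)
    (hiq : MeasurePreserving (fun x : UnitAddCircle => q • x) μ μ) (he : JointlyErgodic p q μ)
    (hne : μ ≠ volume) : ∃ n₀ : ℕ,
      (∀ t : UnitAddCircle, (∃ n, (k ^ n) • t = 0) → (k ^ n₀) • t ≠ 0 →
        (μ.map fun x => x + t) ⟂ₘ μ) ∧
      ∀ n, n₀ ≤ n → ∀ t : UnitAddCircle, (∃ n, (k ^ n) • t = 0) → t ≠ 0 →
        ((μ.map fun x => (k ^ n) • x).map fun x => x + t) ⟂ₘ (μ.map fun x => (k ^ n) • x) := by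
  obtain ⟨j, A, hA, hA0, h⟩ := exists_slices (by omega : 1 ≤ k) hkp hkq hip hiq he
  obtain ⟨B, hB⟩ := j_bounded hp hk hkp hip hne hA (fun n => (h n).2.1)
  obtain ⟨n₀, hn₀⟩ := exists_stable (by omega : 1 ≤ k) hA (fun n => (h n).2.1) hB
  refine ⟨n₀, fun t h1 h2 => sing_of_null hA hA0 (hn₀ t h1 h2), fun n hn t ⟨l, hl⟩ ht => ?_⟩
  have hkn : 1 ≤ k ^ n := Nat.one_le_pow _ _ (by omega)
  obtain ⟨i, hi, hti⟩ := exists_hh (by omega : 1 ≤ k) hl
  have hs : (k ^ n) • (hh k (l + n) i : UnitAddCircle) = t := by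
    rw [hti]
    unfold hh
    have hkR : (k : ℝ) ≠ 0 := by exact_mod_cast (by omega : k ≠ 0)
    rw [← AddCircle.coe_nsmul]
    congr 1
    rw [nsmul_eq_mul, pow_add]
    push_cast
    field_simp
  have h3 := push_sing (μ := μ) hkn hA hA0 (s := hh k (l + n) i) (fun i' => by
    refine hn₀ _ ⟨l + n, ?_⟩ ?_
    · rw [smul_add, ← hh_pow, smul_hh_one (Nat.one_le_pow _ _ (by omega)), zero_add, pow_add,
        mul_smul, smul_hh_one hkn, smul_zero]
    · intro h4
      apply ht
      have e : k ^ n = k ^ (n - n₀) * k ^ n₀ := by rw [← pow_add]; congr 1; omega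
      have hw : ∀ w : UnitAddCircle, (k ^ n₀) • w = 0 → (k ^ n) • w = 0 := by
        intro w hw
        rw [e, mul_smul, hw, smul_zero]
      have h5 := hw _ h4
      rw [smul_add, hs, smul_hh_one hkn, add_zero] at h5
      exact h5)
  rw [hs] at h3
  exact h3

end Pool.Agent.V11299.FG
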